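import Pool.Agent.Lib.MP_732f67_ag.NE.Klm

/-!
Semiample divisors are nef; nefness does not depend on the polarisation.
-/

namespace Pool.Agent.KM

universe u v

variable {k : Type u} {L : Type v} [Field k] [Field L] [Algebra k L]

/-- the dimension of the space of sections on a curve exists -/
theorem exists_isH0_car {X : Set (Subalgebra k L)} (hX : IsProj X) {A E : Subalgebra k L → Lˣ}
    (hAc : IsCar X A) (hA : Ample X A) (hE : IsCar X E) {O : Subalgebra k L} (hO : O ∈ X) :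
    ∃ h, IsH0 X E O h := by
  obtain ⟨m, N, K, z, σ, α, hm, hV, hc, hα⟩ := exists_polC hX hAc hA (D := fun _ : Unit => E)
    (fun _ => hE)
  obtain rfl := hV.eq
  obtain ⟨h, hh⟩ := exists_isH0 hc (hα ()) hV.toBF 0 hO
  rw [zpow_zero, mul_one] at hh
  exact ⟨h, hh⟩

/-- multiplication by a section of `O(F)` which does not vanish at the point `O`.

PROOF. The map `g ↦ (f F(O)) g`. -/
theorem HasSecC.mul_sec {X : Set (Subalgebra k L)} {F E : Subalgebra k L → Lˣ}
    {O : Subalgebra k L} {f : L} (hf : f ∈ Sec X F) (hu : Un O (f * F O)) {r : ℕ}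
    (h : HasSecC X E O r) : HasSecC X (F * E) O r := by
  obtain ⟨g, hg, hc⟩ := h
  refine ⟨fun i => f * F O * g i, fun i => ⟨O.mul_mem hu.2.1 (hg i).1, fun O' hO' hle => ?_⟩,
    fun c hc' => hc c ?_⟩
  · obtain ⟨g', hg', hm⟩ := (hg i).2 O' hO' hle
    refine ⟨f * F O' * g', O'.mul_mem (hf O' hO') hg', ?_⟩
    have h1 : f * F O * g i * (((F * E) O' / (F * E) O : Lˣ) : L) - f * F O' * g' =
        f * F O' * (g i * ((E O' / E O : Lˣ) : L) - g') := by
      rw [Pi.mul_apply, Pi.mul_apply, Units.val_div_eq_div_val, Units.val_div_eq_div_val,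
        Units.val_mul, Units.val_mul]
      have h2 : ((F O : Lˣ) : L) ≠ 0 := Units.ne_zero _
      have h3 : ((E O : Lˣ) : L) ≠ 0 := Units.ne_zero _
      field_simp
    rw [h1]
    refine ⟨O.mul_mem (hle (hf O' hO')) hm.1, fun h4 => hm.2 ?_⟩
    exact ⟨right_ne_zero_of_mul h4.1, hm.1, by
      have h5 := O.mul_mem (hle (hf O' hO')) h4.2.2
      have h6 : f * (F O' : L) * (f * F O' * (g i * ((E O' / E O : Lˣ) : L) - g'))⁻¹ =
          (g i * ((E O' / E O : Lˣ) : L) - g')⁻¹ := by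
        rw [mul_inv, ← mul_assoc, mul_inv_cancel₀ (left_ne_zero_of_mul h4.1), one_mul]
      rwa [h6] at h5⟩
  · have h1 : ∑ i, c i • (f * F O * g i) = f * F O * ∑ i, c i • g i := by
      rw [Finset.mul_sum]
      exact Finset.sum_congr rfl fun i _ => by rw [mul_smul_comm]
    rw [h1] at hc'
    have h2 : (f * (F O : L))⁻¹ * (f * F O * ∑ i, c i • g i) = ∑ i, c i • g i := by
      rw [← mul_assoc, inv_mul_cancel₀ hu.1, one_mul]
    refine ⟨?_, fun h3 => hc'.2 (hu.mul h3)⟩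
    rw [← h2]
    exact O.mul_mem hu.2.2 hc'.1

/-- if some positive multiple of `D` has no base points then `D` is nef -/
theorem NefD.of_free {X : Set (Subalgebra k L)} (hX : IsProj X) {A D : Subalgebra k L → Lˣ}
    (hAc : IsCar X A) (hA : Ample X A) (hDc : IsCar X D) {m : ℕ} (hm : 1 ≤ m)
    (hD : Free X (D ^ m)) : NefD X A D := by
  intro O hO d hd
  obtain ⟨δ, h1, -, -, h4, -⟩ := exists_isDeg_prod hX hAc hA hO
  have hmc : IsCar X (D ^ m) := hDc.pow _
  obtain ⟨f, hf, hu⟩ := hD O hO.1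
  obtain ⟨b₀, hb⟩ := (h1 _ hmc _).2 rfl
  obtain ⟨h, hh⟩ := exists_isH0_car hX hAc hA (hAc.pow b₀) hO.1
  obtain ⟨h', hh'⟩ := exists_isH0_car hX hAc hA (hmc.mul (hAc.pow b₀)) hO.1
  have h5 := hb b₀ le_rfl h h' hh hh'
  have h6 : h ≤ h' := by
    by_contra hlt
    push Not at hlt
    exact hh'.2 ((HasSecC.mul_sec hf hu hh.1).mono hlt)
  have h7 := h4 D hDc (m : ℤ)
  rw [zpow_natCast] at h7
  have h8 : 0 ≤ δ (D ^ m) := by omega
  rw [(h1 D hDc d).1 hd]
  rw [h7] at h8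
  by_contra hneg
  push Not at hneg
  have h9 : (m : ℤ) * δ D < 0 := mul_neg_of_pos_of_neg (by exact_mod_cast hm) hneg
  omega

/-- semiample divisors are nef -/
theorem Semi.nefD {X : Set (Subalgebra k L)} (hX : IsProj X) {A D : Subalgebra k L → Lˣ}
    (hAc : IsCar X A) (hA : Ample X A) (hDc : IsCar X D) (hD : Semi X D) : NefD X A D := by
  obtain ⟨m₀, hm₀⟩ := hD
  exact NefD.of_free hX hAc hA hDc (m := m₀ + 1) (by omega) (hm₀ _ (by omega))

/-- nefness does not depend on the polarisation.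

PROOF. `B / A` is generated by sections for some power `B` of `A'`, and `A M ^ a` is ample for all `a`, so a
multiple of `B M ^ a` has no base points and `B M ^ a` is nef with respect to `A'`:
`deg B + a deg M ≥ 0` for all `a`. -/
theorem NefD.change {X : Set (Subalgebra k L)} (hX : IsProj X) {A A' M : Subalgebra k L → Lˣ}
    (hAc : IsCar X A) (hA : Ample X A) (hAc' : IsCar X A') (hA' : Ample X A') (hM : IsCar X M)
    (h : NefD X A M) : NefD X A' M := by
  obtain ⟨m', hm', hF', hP'⟩ := id hA'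
  obtain ⟨V, hV⟩ := exists_va hX (hAc'.pow m') hF' hP'
  obtain ⟨d, r0, hd, hr⟩ := exists_bf_sub hX hV hAc
  obtain ⟨V', hV'⟩ := hr r0 le_rfl
  obtain ⟨B, hB⟩ : ∃ B, B = (A' ^ m') ^ (d * r0) := ⟨_, rfl⟩
  rw [← hB] at hV'
  have hBc : IsCar X B := by
    rw [hB]
    exact (hAc'.pow m').pow _
  have key : ∀ a : ℕ, NefD X A' (B * M ^ a) := by
    intro a
    obtain ⟨e, he, hFe, -⟩ := h.ample_pow hX hAc hA hM a
    obtain ⟨V₁, hV₁⟩ := exists_bf hX ((hAc.mul (hM.pow a)).pow e) hFe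
    have h1 := (hV'.pow e).mul hV₁
    have h2 : (B / A) ^ e * (A * M ^ a) ^ e = (B * M ^ a) ^ e := by
      rw [← mul_pow, ← mul_assoc, div_mul_cancel]
    rw [h2] at h1
    refine NefD.of_free hX hAc' hA' (hBc.mul (hM.pow a)) he fun O hO => ?_
    obtain ⟨f, hf, hu⟩ := h1.gen O hO
    exact ⟨f, h1.sec hf, hu⟩
  intro O hO x hx
  obtain ⟨δ, h1, -, h3, h4, -⟩ := exists_isDeg_prod hX hAc' hA' hO
  rw [(h1 M hM x).1 hx]
  by_contra hneg
  push Not at hneg
  have h5 := key ((δ B).natAbs + 1) O hO _ ((h1 _ (hBc.mul (hM.pow _)) _).2 rfl)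
  rw [h3 _ _ hBc (hM.pow _)] at h5
  have h6 := h4 M hM (((δ B).natAbs + 1 : ℕ) : ℤ)
  rw [zpow_natCast] at h6
  rw [h6] at h5
  have h7 : (((δ B).natAbs + 1 : ℕ) : ℤ) * δ M ≤ (((δ B).natAbs + 1 : ℕ) : ℤ) * (-1) :=
    mul_le_mul_of_nonneg_left (by omega) (by positivity)
  push_cast at h7 h5
  have h8 := Int.le_natAbs (a := δ B)
  push_cast at h8
  omega

end Pool.Agent.KM
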