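import Pool.Agent.Lib.MP_732f67_ag.NE.Lin
import Pool.Agent.Lib.MP_732f67_ag.NE.Ind
import Pool.Agent.Lib.MP_732f67_ag.G.Big

/-!
The textbook form of the question: nef decompositions with nef, numerically trivial and
numerically equivalent tested on curves; the base point free theorem reduces it to decompositions
into semiample divisors.
-/

namespace Pool.Agent.KM

variable {L : Type} [Field L] [Algebra ℂ L]

/-- global regular functions are constants.

PROOF. Otherwise `x` is transcendental over `ℂ`, not in the integral closure of `ℂ` in `L`, so there is a valuation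
ring of `L` over `ℂ` which does not contain `x`; it has a center on `X`. -/
theorem glob_const {X : Set (Subalgebra ℂ L)} (hX : IsProj X) {x : L} (hx : ∀ O ∈ X, x ∈ O) :
    ∃ c : ℂ, algebraMap ℂ L c = x := by
  by_contra hcon
  have hcl : IsIntegrallyClosedIn (algebraMap ℂ L).range L := by
    rw [Subring.isIntegrallyClosedIn_iff]
    intro y hy
    have h1 : IsIntegral ℂ y := by
      obtain ⟨p, hp, hpy⟩ := hy
      obtain ⟨q, hq, hqd, hqm⟩ : ∃ q : Polynomial ℂ,
          q.map (algebraMap ℂ L).rangeRestrict = p ∧ q.degree = p.degree ∧ q.Monic := by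
        apply Polynomial.lifts_and_degree_eq_and_monic
        · rw [Polynomial.lifts_iff_coeff_lifts]
          intro n
          exact (algebraMap ℂ L).rangeRestrict_surjective _
        · exact hp
      refine ⟨q, hqm, ?_⟩
      rw [← hq, Polynomial.eval₂_map] at hpy
      exact hpy
    obtain ⟨c, hc⟩ := big_const (L := L) (x := y) (fun h => h h1.isAlgebraic)
    exact ⟨c, hc⟩
  obtain ⟨R, hR, hxR⟩ := Subring.exists_le_valuationSubring_of_isIntegrallyClosedIn
    (R := (algebraMap ℂ L).range) (x := x) hcon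
  obtain ⟨O, hO, h1, -⟩ := hX.exists_center R (fun c => hR ⟨c, rfl⟩)
  exact hxR (h1 x (hx O hO))

/-- a divisor which is semiample together with its inverse is torsion.

PROOF. `f ∈ H^0(D^m)`, `g ∈ H^0(D^-m)`, nonzero: `f g` is a constant, so both have no zeros. -/
theorem triv_of_semi {X : Set (Subalgebra ℂ L)} (hX : IsProj X) {D : Subalgebra ℂ L → Lˣ}
    (h1 : Semi X D) (h2 : Semi X D⁻¹) : Triv X D := by
  obtain ⟨m₁, hm₁⟩ := h1
  obtain ⟨m₂, hm₂⟩ := h2
  obtain ⟨O₀, hO₀⟩ := hX.exists_mem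
  obtain ⟨f, hf, hfu⟩ := hm₁ (m₁ + m₂ + 1) (by omega) O₀ hO₀
  obtain ⟨g, hg, hgu⟩ := hm₂ (m₁ + m₂ + 1) (by omega) O₀ hO₀
  have hf0 : f ≠ 0 := fun h => hfu.1 (by rw [h, zero_mul])
  have hg0 : g ≠ 0 := fun h => hgu.1 (by rw [h, zero_mul])
  have hinv : ∀ O : Subalgebra ℂ L, (((D⁻¹) ^ (m₁ + m₂ + 1)) O : Lˣ) =
      ((D ^ (m₁ + m₂ + 1)) O)⁻¹ := fun O => by
    rw [Pi.pow_apply, Pi.pow_apply, Pi.inv_apply, inv_pow]
  have hprod : ∀ O : Subalgebra ℂ L, (f * ((D ^ (m₁ + m₂ + 1)) O : Lˣ)) *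
      (g * (((D⁻¹) ^ (m₁ + m₂ + 1)) O : Lˣ)) = f * g := by
    intro O
    rw [hinv]
    have h3 : (((D ^ (m₁ + m₂ + 1)) O : Lˣ) : L) * ((((D ^ (m₁ + m₂ + 1)) O)⁻¹ : Lˣ) : L) = 1 :=
      Units.mul_inv _
    linear_combination (f * g) * h3
  have hfg : ∀ O ∈ X, f * g ∈ O := by
    intro O hO
    rw [← hprod O]
    exact O.mul_mem (hf O hO) (hg O hO)
  obtain ⟨c, hc⟩ := glob_const hX hfg
  have hc0 : c ≠ 0 := by
    rintro rfl
    rw [map_zero] at hc
    exact mul_ne_zero hf0 hg0 hc.symm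
  refine ⟨m₁ + m₂ + 1, by omega, Units.mk0 f hf0, fun O hO => ?_⟩
  have hval : ((Units.mk0 f hf0 * D O ^ (m₁ + m₂ + 1) : Lˣ) : L) =
      f * ((D ^ (m₁ + m₂ + 1)) O : Lˣ) := by
    rw [Units.val_mul, Units.val_mk0, Pi.pow_apply]
  rw [hval]
  have hne : f * (((D ^ (m₁ + m₂ + 1)) O : Lˣ) : L) ≠ 0 := mul_ne_zero hf0 (Units.ne_zero _)
  refine ⟨hne, hf O hO, ?_⟩
  have h4 : (f * (((D ^ (m₁ + m₂ + 1)) O : Lˣ) : L))⁻¹ =
      algebraMap ℂ L c⁻¹ * (g * (((D⁻¹) ^ (m₁ + m₂ + 1)) O : Lˣ)) := by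
    have hcl : algebraMap ℂ L c ≠ 0 := by
      rw [Ne, map_eq_zero]
      exact hc0
    rw [map_inv₀, inv_eq_iff_eq_inv, mul_inv, inv_inv, eq_mul_inv_iff_mul_eq₀ ?_, hprod O, hc]
    exact mul_ne_zero hg0 (Units.ne_zero _)
  rw [h4]
  exact O.mul_mem (O.algebraMap_mem _) (hg O hO)

/-- numerical equivalence becomes real linear equivalence if numerically trivial divisors are
torsion -/
theorem NumEq.rlin {r m : ℕ} {X : Set (Subalgebra ℂ L)} (hX : IsProj X)
    {A : Subalgebra ℂ L → Lˣ} (hAc : IsCar X A) (hA : Ample X A) {κ : Subalgebra ℂ L → Lˣ}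
    (hκ : IsCar X κ) {M : Fin r → Subalgebra ℂ L → Lˣ} (hM : ∀ i, IsCar X (M i)) {a : Fin r → ℝ}
    (h : NumEq X A m κ a M) (ht : ∀ D, IsCar X D → NumTriv X A D → Triv X D) :
    RLin X m κ a M := by
  obtain ⟨s, b, c, x, hD, hb, ha⟩ := h.exists_comb hX hAc hA hκ hM
  have hcar : ∀ j, IsCar X (κ ^ c j * ∏ i, M i ^ x j i) := fun j =>
    (hκ.zpow (c j)).mul (hκ.prod_zpow Finset.univ (x j) M fun i _ => hM i)
  have hT : ∀ j, Triv X (κ ^ c j * ∏ i, M i ^ x j i) := fun j => ht _ (hcar j) (hD j)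
  choose e he u hu using hT
  refine ⟨s, fun j => b j / e j, u, fun O hO hP c' e' f' hc' he' hf' => ?_⟩
  have hkey : ∀ j, (e j : ℤ) * (c j * c' + ∑ i, x j i * e' i) + f' j = 0 := by
    intro j
    have h1 : IsOrd O (u j * (κ ^ c j * ∏ i, M i ^ x j i) O ^ e j : Lˣ)
        (f' j + (e j : ℤ) * (c j * c' + ∑ i, x j i * e' i)) := by
      rw [Units.val_mul, Units.val_pow_eq_pow_val]
      refine (hf' j).mul hP ?_
      have h2 : IsOrd O (((κ ^ c j * ∏ i, M i ^ x j i) O : Lˣ) : L)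
          (c j * c' + ∑ i, x j i * e' i) := by
        rw [Pi.mul_apply, Units.val_mul, Pi.pow_apply, Units.val_zpow_eq_zpow_val,
          Finset.prod_apply, Units.coe_prod]
        refine (hc'.zpow hP (c j)).mul hP (IsOrd.prod hP _ fun i _ => ?_)
        rw [Pi.pow_apply, Units.val_zpow_eq_zpow_val]
        exact (he' i).zpow hP (x j i)
      have h3 := h2.zpow hP (e j : ℤ)
      rwa [zpow_natCast] at h3
    have h4 := (isOrd_zero_iff hP).2 (hu j O hO)
    have h5 := h1.unique hP h4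
    linarith
  have hne : ∀ j, ((e j : ℕ) : ℝ) ≠ 0 := fun j => by
    have := he j
    positivity
  have hk2 : ∀ j, b j / e j * f' j =
      -(b j * ((c j : ℝ) * c' + ∑ i, (x j i : ℝ) * e' i)) := by
    intro j
    have h1 : ((e j : ℕ) : ℝ) * ((c j : ℝ) * c' + ∑ i, (x j i : ℝ) * e' i) + f' j = 0 := by
      have := hkey j
      exact_mod_cast congrArg (fun z : ℤ => (z : ℝ)) this
    have h2 : (f' j : ℝ) = -((e j : ℕ) : ℝ) * ((c j : ℝ) * c' + ∑ i, (x j i : ℝ) * e' i) := by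
      linarith
    rw [h2]
    field_simp [hne j]
  have hs1 : ∑ j, b j / e j * f' j = -(∑ j, b j * c j) * c' - ∑ i, (∑ j, b j * x j i) * e' i := by
    rw [Finset.sum_congr rfl fun j _ => hk2 j]
    have h1 : ∀ j ∈ (Finset.univ : Finset (Fin s)),
        -(b j * ((c j : ℝ) * c' + ∑ i, (x j i : ℝ) * e' i)) =
          -(b j * c j * c') - ∑ i, b j * x j i * e' i := by
      intro j _
      rw [mul_add, Finset.mul_sum, neg_add, ← sub_eq_add_neg]
      congr 1
      · ring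
      · exact Finset.sum_congr rfl fun i _ => by ring
    rw [Finset.sum_congr rfl h1, Finset.sum_sub_distrib, Finset.sum_neg_distrib, Finset.sum_comm,
      ← Finset.sum_mul]
    congr 1
    · ring
    · exact Finset.sum_congr rfl fun i _ => by rw [Finset.sum_mul]
  have hs2 : ∑ i, a i * (e' i : ℝ) = ∑ i, (∑ j, b j * x j i) * (e' i : ℝ) :=
    Finset.sum_congr rfl fun i _ => by rw [ha i]
  rw [hs1, ← hb, hs2]
  ring

/-- the base point free theorem reduces nef decompositions to decompositions into semiample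
divisors -/
theorem NDec.dec {r m : ℕ} {X : Set (Subalgebra ℂ L)} (hX : IsProj X)
    {A : Subalgebra ℂ L → Lˣ} (hAc : IsCar X A) (hA : Ample X A) {κ : Subalgebra ℂ L → Lˣ}
    (hκ : IsCar X κ) {M : Fin r → Subalgebra ℂ L → Lˣ} {a : Fin r → ℝ} (h : NDec X A m κ a M)
    (hbpf : ∀ D, IsCar X D → NefD X A D → Semi X D) : Dec X m κ a M where
  pos := h.pos
  car := h.car
  semi i := hbpf _ (h.car i) (h.nef i)
  ne i hT := h.ne i (hT.numTriv hX hAc hA (h.car i))
  equiv := h.equiv.rlin hX hAc hA hκ h.car fun D hD hN => by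
    obtain ⟨h1, h2⟩ := hN.nef hX hAc hA hD
    exact triv_of_semi hX (hbpf D hD h1) (hbpf D⁻¹ hD.inv h2)

/-- the textbook form of the statement: every nef decomposition of `- K_X` on a klt Fano variety
of dimension `n` has total weight `≤ 2 n`, with equality only for `(ℙ^1)^n` -/
def MainN : Prop :=
  ∀ (L : Type) [Field L] [Algebra ℂ L] (n : ℕ) (X : Set (Subalgebra ℂ L))
    (D : Fin n → Derivation ℂ L L) (m : ℕ) (κ : Subalgebra ℂ L → Lˣ), KltFano X D m κ →
    ∀ A : Subalgebra ℂ L → Lˣ, IsCar X A → Ample X A →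
    ∀ (r : ℕ) (a : Fin r → ℝ) (M : Fin r → Subalgebra ℂ L → Lˣ), NDec X A m κ a M →
      ∑ i, a i ≤ 2 * n ∧ (∑ i, a i = 2 * n → IsP1n X n)

/-- the statement for decompositions into semiample divisors, without a log resolution -/
def MainS : Prop :=
  ∀ (L : Type) [Field L] [Algebra ℂ L] (n : ℕ) (X : Set (Subalgebra ℂ L))
    (D : Fin n → Derivation ℂ L L) (m : ℕ) (κ : Subalgebra ℂ L → Lˣ), KltFano X D m κ →
    ∀ (r : ℕ) (a : Fin r → ℝ) (M : Fin r → Subalgebra ℂ L → Lˣ), Dec X m κ a M →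
      ∑ i, a i ≤ 2 * n ∧ (∑ i, a i = 2 * n → IsP1n X n)

/-- the base point free theorem for klt Fano varieties; the assumption follows from `NefD X A D`
by Kleiman's theorem (`NefD.ample_pow`) -/
def BpfN : Prop :=
  ∀ (L : Type) [Field L] [Algebra ℂ L] (n : ℕ) (X : Set (Subalgebra ℂ L))
    (D : Fin n → Derivation ℂ L L) (m : ℕ) (κ : Subalgebra ℂ L → Lˣ), KltFano X D m κ →
    ∀ M : Subalgebra ℂ L → Lˣ, IsCar X M → (∀ a : ℕ, Ample X (κ⁻¹ * M ^ a)) → Semi X M

/-- the reduction of the textbook form -/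
theorem mainN_of (hS : MainS) (hB : BpfN) : MainN := by
  intro L _ _ n X D m κ hX A hAc hA r a M hM
  refine hS L n X D m κ hX r a M (hM.dec hX.proj hAc hA hX.can.1 fun E hE hN => ?_)
  exact hB L n X D m κ hX E hE fun b => NefD.ample_pow hX.proj hX.can.1.inv hX.fano hE
    (hN.change hX.proj hAc hA hX.can.1.inv hX.fano hE) b

end Pool.Agent.KM
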