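import Pool.Agent.Lib.MP_732f67_ag.N.Bpf
import Pool.Agent.Lib.MP_732f67_ag.N.CdH
import Pool.Agent.Lib.MP_732f67_ag.X.RxM
import Pool.Agent.Lib.MP_732f67_ag.KV.Ex
import Pool.Agent.Lib.MP_732f67_ag.NE.Fin

/-!
The base point free theorem for klt Fano varieties, without hypotheses.
-/

namespace Pool.Agent.KM

theorem vx : VX := vx_of vx1

theorem bpfN : BpfN := fun _ _ _ _ _ _ _ _ hX _ hM hA => bpf rx vx hX hM hA

end Pool.Agent.KM
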