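import Pool.Agent.Lib.MP_732f67_ag.NE.Fin
import Pool.Agent.Lib.MP_732f67_ag.G.OrdP

/-!
Real linear equivalence implies numerical equivalence; a decomposition into semiample divisors is a
nef decomposition; the textbook form of the question with both directions of the equality case.
-/

namespace Pool.Agent.KM

universe u v

section

variable {k : Type u} {L : Type v} [Field k] [Field L] [Algebra k L]

/-- a Cartier divisor with order zero along all prime divisors of a normal variety is trivial -/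
theorem IsProj.un_of_ord {X : Set (Subalgebra k L)} (hX : IsProj X) (hn : Normal X)
    {D : Subalgebra k L → Lˣ} (hD : IsCar X D) (h : ∀ P ∈ X, PrimDiv P → IsOrd P (D P) 0) :
    ∀ O ∈ X, Un O (D O) := by
  intro O hO
  refine hX.un_of_primDiv hn hO (D O).ne_zero fun P hP hP' hle => ?_
  have h1 := hD.un_of_le hO hP hle
  have h2 := h1.mul ((isOrd_zero_iff hP').1 (h P hP hP'))
  rwa [Units.val_div_eq_div_val, div_mul_cancel₀ _ (D P).ne_zero] at h2

/-- the divisor of a function is a Cartier divisor -/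
theorem IsCar.const_un (X : Set (Subalgebra k L)) (u : Lˣ) : IsCar X fun _ => u := by
  intro O _
  refine ⟨∅, fun s hs => absurd hs (Finset.notMem_empty s), fun O' _ _ => ?_⟩
  rw [div_self']
  exact Un.one O'

/-- real linear equivalence implies numerical equivalence.

PROOF. The coefficients `1 / m`, `a i`, `b j` satisfy the integral linear equations given by the orders
along the prime divisors; they are a real combination of integral solutions
(`exists_int_comb`), and these belong to divisors without zeros and poles (`IsProj.un_of_ord`), which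
have the degree zero on all curves. -/
theorem RLin.numEq {r m : ℕ} {X : Set (Subalgebra k L)} (hX : IsProj X) (hn : Normal X)
    {A : Subalgebra k L → Lˣ} (hAc : IsCar X A) (hA : Ample X A) {κ : Subalgebra k L → Lˣ}
    (hκ : IsCar X κ) {M : Fin r → Subalgebra k L → Lˣ} (hM : ∀ i, IsCar X (M i)) {a : Fin r → ℝ}
    (h : RLin X m κ a M) : NumEq X A m κ a M := by
  obtain ⟨s, b, u, hu⟩ := h
  obtain ⟨D, hDdef⟩ : ∃ D : Fin ((r + s) + 1) → Subalgebra k L → Lˣ,
      D = Fin.cons κ (Fin.append M fun j _ => u j) := ⟨_, rfl⟩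
  have hD0 : D 0 = κ := by
    rw [hDdef]
    rfl
  have hDl : ∀ i : Fin r, D (Fin.succ (Fin.castAdd s i)) = M i := fun i => by
    rw [hDdef, Fin.cons_succ, Fin.append_left]
  have hDr : ∀ j : Fin s, D (Fin.succ (Fin.natAdd r j)) = fun _ => u j := fun j => by
    rw [hDdef, Fin.cons_succ, Fin.append_right]
  have hcar : ∀ i, IsCar X (D i) := by
    intro i
    refine Fin.cases ?_ (fun i => ?_) i
    · rw [hD0]
      exact hκ
    · refine Fin.addCases (fun i => ?_) (fun j => ?_) i
      · rw [hDl]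
        exact hM i
      · rw [hDr]
        exact IsCar.const_un X (u j)
  obtain ⟨t, c, x, hx, hy⟩ := exists_int_comb
    (Fin.cons ((1 : ℝ) / m) (Fin.append a b) : Fin ((r + s) + 1) → ℝ)
    {v | ∃ O ∈ X, PrimDiv O ∧ ∀ i, IsOrd O (D i O) (v i)} (by
      rintro v ⟨O, hO, hp, hv⟩
      have h1 := hu O hO hp (v 0) (fun i => v (Fin.succ (Fin.castAdd s i)))
        (fun j => v (Fin.succ (Fin.natAdd r j))) (by
          have := hv 0
          rwa [hD0] at this) (fun i => by
          have := hv (Fin.succ (Fin.castAdd s i))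
          rwa [hDl] at this) (fun j => by
          have := hv (Fin.succ (Fin.natAdd r j))
          rwa [hDr] at this)
      rw [Fin.sum_univ_succ, Fin.sum_univ_add]
      simp only [Fin.cons_zero, Fin.cons_succ, Fin.append_left, Fin.append_right]
      have h2 : ∑ i : Fin r, (v (Fin.succ (Fin.castAdd s i)) : ℝ) * a i =
          ∑ i, a i * (v (Fin.succ (Fin.castAdd s i)) : ℝ) :=
        Finset.sum_congr rfl fun i _ => mul_comm _ _
      have h3 : ∑ j : Fin s, (v (Fin.succ (Fin.natAdd r j)) : ℝ) * b j =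
          ∑ j, b j * (v (Fin.succ (Fin.natAdd r j)) : ℝ) :=
        Finset.sum_congr rfl fun i _ => mul_comm _ _
      rw [h2, h3]
      have h4 : (v 0 : ℝ) * (1 / m) = -(-(v 0 : ℝ) / m) := by ring
      rw [h4, h1]
      ring)
  -- the integral solutions are trivial divisors
  have hcar' : ∀ j, IsCar X (∏ i, D i ^ x j i) := fun j =>
    hκ.prod_zpow Finset.univ (x j) D fun i _ => hcar i
  have hun : ∀ j, ∀ O ∈ X, Un O ((∏ i, D i ^ x j i : Subalgebra k L → Lˣ) O) := by
    intro j
    refine hX.un_of_ord hn (hcar' j) fun P hP hP' => ?_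
    have h1 : ∀ i, ∃ e, IsOrd P (D i P) e := fun i => hP'.exists_ord (D i P).ne_zero
    choose e he using h1
    have h2 := hx j e ⟨P, hP, hP', he⟩
    have h3 : IsOrd P (((∏ i, D i ^ x j i : Subalgebra k L → Lˣ) P : Lˣ) : L)
        (∑ i, x j i * e i) := by
      rw [Finset.prod_apply, Units.coe_prod]
      refine IsOrd.prod hP' _ fun i _ => ?_
      rw [Pi.pow_apply, Units.val_zpow_eq_zpow_val]
      exact (he i).zpow hP' (x j i)
    have h4 : ∑ i, x j i * e i = 0 := by
      rw [← h2]
      exact Finset.sum_congr rfl fun i _ => mul_comm _ _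
    rwa [h4] at h3
  intro O hO d e hd he
  obtain ⟨δ, hδ, -, -, -, hprod⟩ := exists_isDeg_prod hX hAc hA hO
  have hδ0 : ∀ E, IsCar X E → Triv X E → δ E = 0 := fun E hE hT =>
    hT.numTriv hX hAc hA hE O hO (δ E) ((hδ E hE _).2 rfl)
  have h5 : ∀ j, ∑ i, x j i * δ (D i) = 0 := by
    intro j
    rw [← hprod (x j) D hcar]
    refine hδ0 _ (hcar' j) ⟨1, le_rfl, 1, fun O' hO' => ?_⟩
    rw [one_mul, pow_one]
    exact hun j O' hO'
  have h6 : ∀ j, δ (D (Fin.succ (Fin.natAdd r j))) = 0 := by
    intro j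
    refine hδ0 _ (hcar _) ⟨1, le_rfl, (u j)⁻¹, fun O' hO' => ?_⟩
    rw [hDr, pow_one, inv_mul_cancel]
    exact Un.one O'
  have h7 : ∑ i, (Fin.cons ((1 : ℝ) / m) (Fin.append a b) : Fin ((r + s) + 1) → ℝ) i *
      (δ (D i) : ℝ) = 0 := by
    have h8 : ∀ i ∈ (Finset.univ : Finset (Fin ((r + s) + 1))),
        (Fin.cons ((1 : ℝ) / m) (Fin.append a b) : Fin ((r + s) + 1) → ℝ) i * (δ (D i) : ℝ) =
          ∑ j, c j * ((x j i : ℝ) * (δ (D i) : ℝ)) := by
      intro i _
      rw [hy i, Finset.sum_mul]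
      exact Finset.sum_congr rfl fun j _ => by ring
    rw [Finset.sum_congr rfl h8, Finset.sum_comm]
    refine Finset.sum_eq_zero fun j _ => ?_
    rw [← Finset.mul_sum]
    have h9 : ∑ i, (x j i : ℝ) * (δ (D i) : ℝ) = 0 := by
      have := congrArg (fun z : ℤ => (z : ℝ)) (h5 j)
      push_cast at this
      exact this
    rw [h9, mul_zero]
  rw [Fin.sum_univ_succ, Fin.sum_univ_add] at h7
  simp only [Fin.cons_zero, Fin.cons_succ, Fin.append_left, Fin.append_right, hD0, hDl] at h7
  have h8 : ∑ j : Fin s, b j * (δ (D (Fin.succ (Fin.natAdd r j))) : ℝ) = 0 :=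
    Finset.sum_eq_zero fun j _ => by rw [h6, Int.cast_zero, mul_zero]
  rw [h8, add_zero] at h7
  rw [(hδ κ hκ d).1 hd]
  have h9 : ∑ i, a i * (e i : ℝ) = ∑ i, a i * (δ (M i) : ℝ) :=
    Finset.sum_congr rfl fun i _ => by rw [(hδ (M i) (hM i) (e i)).1 (he i)]
  rw [h9]
  have h10 : -((δ κ : ℤ) : ℝ) / m = -((1 : ℝ) / m * (δ κ : ℝ)) := by ring
  rw [h10]
  linarith

end

variable {L : Type} [Field L] [Algebra ℂ L]

/-- a decomposition into semiample divisors is a nef decomposition, if numerically trivial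
divisors are torsion -/
theorem Dec.ndec {r m : ℕ} {X : Set (Subalgebra ℂ L)} (hX : IsProj X) (hn : Normal X)
    {A : Subalgebra ℂ L → Lˣ} (hAc : IsCar X A) (hA : Ample X A) {κ : Subalgebra ℂ L → Lˣ}
    (hκ : IsCar X κ) {M : Fin r → Subalgebra ℂ L → Lˣ} {a : Fin r → ℝ} (h : Dec X m κ a M)
    (hbpf : ∀ D, IsCar X D → NefD X A D → Semi X D) : NDec X A m κ a M where
  pos := h.pos
  car := h.car
  nef i := (h.semi i).nefD hX hAc hA (h.car i)
  ne i hT := by
    obtain ⟨h1, h2⟩ := hT.nef hX hAc hA (h.car i)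
    exact h.ne i (triv_of_semi hX (hbpf _ (h.car i) h1) (hbpf _ (h.car i).inv h2))
  equiv := h.equiv.numEq hX hn hAc hA hκ h.car

end Pool.Agent.KM
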