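import Pool.Agent.Lib.MP_732f67_ag.NE.Dic
import Pool.Agent.Lib.MP_732f67_ag.G.VA

/-!
Covers by charts on which finitely many Cartier divisors are principal.
-/

namespace Pool.Agent.KM

universe u v

variable {k : Type u} {L : Type v} [Field k] [Field L] [Algebra k L] {N K : ℕ} {z : Fin N → L}
  {σ : Fin K → Fin N}

/-- the charts `z (σ a) ≠ 0` cover -/
structure Cvr (k : Type u) {L : Type v} [Field k] [Field L] [Algebra k L] {N K : ℕ}
    (z : Fin N → L) (σ : Fin K → Fin N) : Prop where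
  ne : ∀ j, z j ≠ 0
  cov : ∃ M : ℕ, ∀ j, z j ^ (M + 1) ∈
    Submodule.span k (Set.range fun a => z (σ a)) * lsys k z ^ M

/-- the divisor `D` is given by `β a` on the chart `a` -/
def OnC (z : Fin N → L) (σ : Fin K → Fin N) (D : Subalgebra k L → Lˣ) (β : Fin K → Lˣ) : Prop :=
  ∀ a, ∀ O ∈ Pts (lsys k z), cht (lsys k z) (z (σ a)) ≤ O → Un O (D O / β a : Lˣ)

theorem OnC.one : OnC z σ (1 : Subalgebra k L → Lˣ) 1 := by
  intro a O _ _
  rw [Pi.one_apply, Pi.one_apply, div_one, Units.val_one]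
  exact Un.one O

theorem OnC.mul {D D' : Subalgebra k L → Lˣ} {β β' : Fin K → Lˣ} (h : OnC z σ D β)
    (h' : OnC z σ D' β') : OnC z σ (D * D') (β * β') := by
  intro a O hO hc
  rw [Pi.mul_apply, Pi.mul_apply, mul_div_mul_comm, Units.val_mul]
  exact (h a O hO hc).mul (h' a O hO hc)

theorem OnC.inv {D : Subalgebra k L → Lˣ} {β : Fin K → Lˣ} (h : OnC z σ D β) :
    OnC z σ D⁻¹ β⁻¹ := by
  intro a O hO hc
  have h1 : D⁻¹ O / β⁻¹ a = (D O / β a)⁻¹ := by
    rw [Pi.inv_apply, Pi.inv_apply, inv_div_inv, inv_div]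
  rw [h1, Units.val_inv_eq_inv_val]
  exact (h a O hO hc).inv

/-- an element of the maximal ideal of a local ring -/
private def covMx (O : Subalgebra k L) [IsLocalRing O] (x : L) : Prop :=
  ∃ h : x ∈ O, (⟨x, h⟩ : O) ∈ IsLocalRing.maximalIdeal O

private theorem covMx_add {O : Subalgebra k L} [IsLocalRing O] {x y : L} (hx : covMx O x)
    (hy : covMx O y) : covMx O (x + y) := by
  obtain ⟨hx, hx'⟩ := hx
  obtain ⟨hy, hy'⟩ := hy
  exact ⟨O.add_mem hx hy, Ideal.add_mem _ hx' hy'⟩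

private theorem covMx_mul {O : Subalgebra k L} [IsLocalRing O] {x y : L} (hx : x ∈ O)
    (hy : covMx O y) : covMx O (x * y) := by
  obtain ⟨hy, hy'⟩ := hy
  exact ⟨O.mul_mem hx hy, Ideal.mul_mem_left _ ⟨x, hx⟩ hy'⟩

private theorem covMx_zero {O : Subalgebra k L} [IsLocalRing O] : covMx O (0 : L) :=
  ⟨O.zero_mem, Ideal.zero_mem _⟩

private theorem covMx_smul {O : Subalgebra k L} [IsLocalRing O] {x : L} (c : k)
    (hx : covMx O x) : covMx O (c • x) := by
  rw [Algebra.smul_def]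
  exact covMx_mul (O.algebraMap_mem c) hx

private theorem covMx_span {O : Subalgebra k L} [IsLocalRing O] {S : Set L} {v : L}
    (h : ∀ s ∈ S, covMx O (s / v)) {x : L} (hx : x ∈ Submodule.span k S) : covMx O (x / v) := by
  induction hx using Submodule.span_induction with
  | mem x hx => exact h x hx
  | zero => rw [zero_div]; exact covMx_zero
  | add x y _ _ hx hy => rw [add_div]; exact covMx_add hx hy
  | smul c x _ hx => rw [smul_div_assoc]; exact covMx_smul c hx

private theorem covMx_pow {O : Subalgebra k L} [IsLocalRing O] {x : L} (hx : x ∈ O) {n : ℕ}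
    (h : covMx O (x ^ n)) : covMx O x := by
  obtain ⟨h1, h2⟩ := h
  refine ⟨hx, ?_⟩
  have h3 : (⟨x, hx⟩ : O) ^ n ∈ IsLocalRing.maximalIdeal O := h2
  exact (IsLocalRing.maximalIdeal.isMaximal O).isPrime.mem_of_pow_mem n h3

/-- every point contains a chart of the cover -/
theorem Cvr.exists_le (hc : Cvr k z σ) {O : Subalgebra k L} (hO : O ∈ Pts (lsys k z)) :
    ∃ a, cht (lsys k z) (z (σ a)) ≤ O := by
  obtain ⟨v, hv, hv0, hl⟩ := hO
  have hloc := hl.isLocalRing
  have hle := hl.le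
  have hdiv : ∀ w ∈ lsys k z, w / v ∈ O := fun w hw => hle (Algebra.subset_adjoin ⟨w, hw, rfl⟩)
  have hz : ∀ j, z j ∈ lsys k z := fun j => Submodule.subset_span ⟨j, rfl⟩
  obtain ⟨a, ha⟩ : ∃ a, ¬ covMx O (z (σ a) / v) := by
    by_contra hcon
    push Not at hcon
    obtain ⟨M, hM⟩ := hc.cov
    have h1 : ∀ x ∈ Submodule.span k (Set.range fun a => z (σ a)) * lsys k z ^ M,
        covMx O (x / v ^ (M + 1)) := by
      intro x hx
      refine Submodule.mul_induction_on hx ?_ ?_
      · intro m hm n hn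
        have h2 : covMx O (m / v) := covMx_span (by
          rintro _ ⟨a, rfl⟩
          exact hcon a) hm
        have h3 : n / v ^ M ∈ O := hle ((mem_cht_iff hv hv0 _).2 ⟨M, n, hn, rfl⟩)
        have h4 : m * n / v ^ (M + 1) = n / v ^ M * (m / v) := by
          rw [pow_succ, div_mul_div_comm, mul_comm m n]
        rw [h4]
        exact covMx_mul h3 h2
      · intro x y hx hy
        rw [add_div]
        exact covMx_add hx hy
    have h2 : ∀ j, covMx O (z j / v) := by
      intro j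
      refine covMx_pow (n := M + 1) (hdiv _ (hz j)) ?_
      rw [div_pow]
      exact h1 _ (hM j)
    have h3 : covMx O (v / v) := covMx_span (by
      rintro _ ⟨j, rfl⟩
      exact h2 j) hv
    rw [div_self hv0] at h3
    obtain ⟨h4, h5⟩ := h3
    have h6 : (1 : O) ∈ IsLocalRing.maximalIdeal O := h5
    exact (IsLocalRing.maximalIdeal.isMaximal O).ne_top ((Ideal.eq_top_iff_one _).2 h6)
  refine ⟨a, ?_⟩
  have h1 : z (σ a) / v ∈ O := hdiv _ (hz _)
  have h2 : IsUnit (⟨z (σ a) / v, h1⟩ : O) := by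
    by_contra h2
    exact ha ⟨h1, (IsLocalRing.mem_maximalIdeal _).2 h2⟩
  obtain ⟨b, hb⟩ := h2.exists_right_inv
  have h3 : z (σ a) / v * (b : L) = 1 := congrArg Subtype.val hb
  have h4 : v / z (σ a) ∈ O := by
    have h5 : v / z (σ a) = b := by
      rw [← inv_div]
      exact inv_eq_of_mul_eq_one_right h3
    rw [h5]
    exact b.2
  refine Algebra.adjoin_le ?_
  rintro _ ⟨w, hw, rfl⟩
  have h5 : w / z (σ a) = w / v * (v / z (σ a)) := by
    rw [div_mul_div_cancel₀ hv0]
  show w / z (σ a) ∈ O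
  rw [h5]
  exact O.mul_mem (hdiv w hw) h4

/-- common denominators -/
private theorem cov_den {A O : Subalgebra k L} (h : LocAt A O) (T : Finset L)
    (hT : ∀ s ∈ T, s ∈ O) : ∃ b ∈ A, b ≠ 0 ∧ b⁻¹ ∈ O ∧ ∀ s ∈ T, s * b ∈ A := by
  classical
  induction T using Finset.induction_on with
  | empty =>
    refine ⟨1, A.one_mem, one_ne_zero, ?_, fun s hs => absurd hs (Finset.notMem_empty s)⟩
    rw [inv_one]
    exact O.one_mem
  | insert s T _ ih =>
    obtain ⟨b, hb, hb0, hbO, hbT⟩ := ih fun t ht => hT t (Finset.mem_insert_of_mem ht)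
    obtain ⟨P, hP, hx⟩ := h
    obtain ⟨a, c, hc, hs⟩ := (hx s).1 (hT s (Finset.mem_insert_self s T))
    have hc0 : (c : L) ≠ 0 := by
      intro h0
      apply hc
      have : c = 0 := Subtype.ext h0
      rw [this]
      exact P.zero_mem
    have hcO : (c : L)⁻¹ ∈ O := (hx _).2 ⟨1, c, hc, by
      rw [OneMemClass.coe_one, one_div]⟩
    refine ⟨c * b, A.mul_mem c.2 hb, mul_ne_zero hc0 hb0, ?_, ?_⟩
    · rw [mul_inv]
      exact O.mul_mem hcO hbO
    · intro t ht
      rcases Finset.mem_insert.1 ht with rfl | ht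
      · have h1 : t * ((c : L) * b) = a * b := by
          rw [hs, ← mul_assoc, div_mul_cancel₀ _ hc0]
        rw [h1]
        exact A.mul_mem a.2 hb
      · have h1 : t * ((c : L) * b) = c * (t * b) := by ring
        rw [h1]
        exact A.mul_mem c.2 (hbT t ht)

/-- a locally principal neighbourhood.

PROOF. `O` is a local ring of `A = cht V v`. For every `i` let `S i` be the finite subset of `O` in
`IsCar`; its elements are fractions of elements of `A` with denominators which are units of `O`;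
let `G / v ^ e`, `G ∈ V ^ e` (`mem_cht_iff`), be the product of all these denominators, `g = v * G`,
`d = e + 1`. `cht (V ^ d) g = A[(G / v ^ e)⁻¹]` (`cht_mul`) is contained in `O` and contains the `S i`. -/
theorem exists_nbhd {ι : Type*} [Finite ι] {V : Submodule k L} {D : ι → Subalgebra k L → Lˣ}
    (hD : ∀ i, IsCar (Pts V) (D i)) {O : Subalgebra k L} (hO : O ∈ Pts V) :
    ∃ (d : ℕ) (g : L), 1 ≤ d ∧ g ∈ V ^ d ∧ g ≠ 0 ∧ cht (V ^ d) g ≤ O ∧
      ∃ α : ι → Lˣ, ∀ i, ∀ O' ∈ Pts V, cht (V ^ d) g ≤ O' → Un O' (D i O' / α i : Lˣ) := by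
  classical
  have := Fintype.ofFinite ι
  choose S hS hS' using fun i => hD i O hO
  obtain ⟨v, hv, hv0, hl⟩ := hO
  obtain ⟨b, hb, hb0, hbO, hbT⟩ := cov_den hl (Finset.univ.biUnion S) (by
    intro s hs
    obtain ⟨i, _, hi⟩ := Finset.mem_biUnion.1 hs
    exact hS i s hi)
  obtain ⟨e, G, hG, hbG⟩ := (mem_cht_iff hv hv0 b).1 hb
  have hG0 : G ≠ 0 := by
    rintro rfl
    rw [zero_div] at hbG
    exact hb0 hbG
  have hle : cht (V ^ (e + 1)) (v * G) = Algebra.adjoin k ((cht V v : Set L) ∪ {b⁻¹}) := by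
    rw [cht_mul hv hv0 hG hG0, hbG]
  refine ⟨e + 1, v * G, by omega, ?_, mul_ne_zero hv0 hG0, ?_, fun i => D i O, ?_⟩
  · rw [pow_succ, mul_comm v G]
    exact Submodule.mul_mem_mul hG hv
  · rw [hle]
    refine Algebra.adjoin_le ?_
    rintro x (hx | hx)
    · exact hl.le hx
    · rw [Set.mem_singleton_iff] at hx
      rw [hx]
      exact hbO
  · intro i O' hO' hc
    have h1 : Un O' (D i O / D i O' : Lˣ) := by
      refine hS' i O' hO' fun s hs => hc ?_
      rw [hle]
      have h2 : s * b ∈ cht V v := hbT s (Finset.mem_biUnion.2 ⟨i, Finset.mem_univ i, hs⟩)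
      have h3 : s = s * b * b⁻¹ := by rw [mul_inv_cancel_right₀ hb0]
      rw [h3]
      exact Subalgebra.mul_mem _ (Algebra.subset_adjoin (Or.inl h2))
        (Algebra.subset_adjoin (Or.inr rfl))
    have h2 : ((D i O' / D i O : Lˣ) : L) = ((D i O / D i O' : Lˣ) : L)⁻¹ := by
      rw [← Units.val_inv_eq_inv_val, inv_div]
    rw [h2]
    exact h1.inv

/-- an adapted cover.

PROOF. `V = lsys k z₀` with `z₀` a basis of `V` (`V ≠ ⊥` and finite dimensional); `exists_cover` with
`P d g` := the existence of the `α i` in `exists_nbhd`; `cht (V ^ (e * r)) (g ^ r) = cht (V ^ e) g` is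
`cht_pow`, `Pts (V ^ d) = Pts V` is `Pts_pow`. -/
theorem exists_cvr {ι : Type*} [Finite ι] {V : Submodule k L} (hV : Module.Finite k V)
    (hV0 : V ≠ ⊥) {D : ι → Subalgebra k L → Lˣ} (hD : ∀ i, IsCar (Pts V) (D i)) :
    ∃ (d N K : ℕ) (z : Fin N → L) (σ : Fin K → Fin N) (α : ι → Fin K → Lˣ), 1 ≤ d ∧
      lsys k z = V ^ d ∧ Cvr k z σ ∧ ∀ i, OnC z σ (D i) (α i) := by
  classical
  obtain ⟨n, z₀, hz₀, hspan, hn⟩ : ∃ (n : ℕ) (z₀ : Fin n → L), (∀ i, z₀ i ≠ 0) ∧
      Submodule.span k (Set.range z₀) = V ∧ 0 < n := by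
    let β := Module.finBasis k V
    refine ⟨Module.finrank k V, fun i => (β i : L), fun i h => ?_, ?_, ?_⟩
    · exact β.ne_zero i (Subtype.ext h)
    · have h1 : Set.range (fun i => (β i : L)) = V.subtype '' Set.range β := by
        rw [← Set.range_comp]
        rfl
      rw [h1, Submodule.span_image, β.span_eq, Submodule.map_top, Submodule.range_subtype]
    · have : Nontrivial V := Submodule.nontrivial_iff_ne_bot.2 hV0
      exact Module.finrank_pos
  subst hspan
  obtain ⟨d, N', K', z', σ', hd, hz', hsp, hcov, hloc⟩ := exists_cover hn z₀ hz₀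
    (fun d g => ∃ α : ι → Lˣ, ∀ i, ∀ O' ∈ Pts (Submodule.span k (Set.range z₀)),
      cht (Submodule.span k (Set.range z₀) ^ d) g ≤ O' → Un O' (D i O' / α i : Lˣ))
    (fun O hO => exists_nbhd hD hO)
  choose e r g hr he hder hzg hg α hα using hloc
  refine ⟨d, N', K', z', σ', fun i a => α a i, hd, hsp, ⟨hz', hcov⟩, ?_⟩
  intro i a O hO hc
  have h1 : lsys k z' = Submodule.span k (Set.range z₀) ^ d := hsp
  rw [h1] at hO hc
  rw [Pts_pow _ hd] at hO
  have hg0 : g a ≠ 0 := by
    intro h0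
    apply hz' (σ' a)
    rw [hzg, h0, zero_pow (by have := hr a; omega)]
  rw [hder a, hzg a, cht_pow (hr a) (hg a) hg0] at hc
  exact hα a i O hO hc

end Pool.Agent.KM
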