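import Pool.Agent.Lib.MP_732f67_ag.G.Stmt

/-!
Degrees of Cartier divisors on integral curves, nef and numerically trivial divisors, numerical
equivalence, nef decompositions.
-/

namespace Pool.Agent.KM

variable {k L : Type*} [Field k] [Field L] [Algebra k L]

/-- the closure `C` of the point `O` of `X` is an integral curve: `O` is not closed, and there is
no chain of specialisations of `O` of length two -/
def IsCrv (X : Set (Subalgebra k L)) (O : Subalgebra k L) : Prop :=
  O ∈ X ∧ (∃ O' ∈ X, O' < O) ∧ ¬ ∃ O' ∈ X, ∃ O'' ∈ X, O'' < O' ∧ O' < O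

/-- `f` is in the maximal ideal of the local ring `O` -/
def Mx (O : Subalgebra k L) (f : L) : Prop := f ∈ O ∧ ¬ Un O f

/-- `f` (modulo the maximal ideal of `O`) is a section of the restriction of `O(D)` to the closure
of the point `O`, in the trivialisation given by `D O` -/
def IsSecC (X : Set (Subalgebra k L)) (D : Subalgebra k L → Lˣ) (O : Subalgebra k L) (f : L) :
    Prop :=
  f ∈ O ∧ ∀ O' ∈ X, O' ≤ O → ∃ g ∈ O', Mx O (f * (D O' / D O : Lˣ) - g)

/-- the restriction of `O(D)` to the closure of the point `O` has `r` linearly independent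
sections -/
def HasSecC (X : Set (Subalgebra k L)) (D : Subalgebra k L → Lˣ) (O : Subalgebra k L) (r : ℕ) :
    Prop :=
  ∃ f : Fin r → L, (∀ i, IsSecC X D O (f i)) ∧ ∀ c : Fin r → k, Mx O (∑ i, c i • f i) → c = 0

/-- the dimension of the space of sections of `O(D)` on the closure of the point `O` is `h` -/
def IsH0 (X : Set (Subalgebra k L)) (D : Subalgebra k L → Lˣ) (O : Subalgebra k L) (h : ℕ) :
    Prop :=
  HasSecC X D O h ∧ ¬ HasSecC X D O (h + 1)

/-- the degree of `D` on the curve `C` with the generic point `O` is `d`: for all large `b` we have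
`h^0 (C, O(D + b A)) = h^0 (C, O(b A)) + d`; here `A` is ample -/
def IsDeg (X : Set (Subalgebra k L)) (A D : Subalgebra k L → Lˣ) (O : Subalgebra k L) (d : ℤ) :
    Prop :=
  ∃ b₀ : ℕ, ∀ b, b₀ ≤ b → ∀ h h' : ℕ, IsH0 X (A ^ b) O h → IsH0 X (D * A ^ b) O h' →
    (h' : ℤ) = h + d

/-- `D` is nef: its degree is non-negative on every integral curve -/
def NefD (X : Set (Subalgebra k L)) (A D : Subalgebra k L → Lˣ) : Prop :=
  ∀ O, IsCrv X O → ∀ d, IsDeg X A D O d → 0 ≤ d

/-- `D` is numerically trivial: its degree is zero on every integral curve -/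
def NumTriv (X : Set (Subalgebra k L)) (A D : Subalgebra k L → Lˣ) : Prop :=
  ∀ O, IsCrv X O → ∀ d, IsDeg X A D O d → d = 0

/-- `- κ / m` is numerically equivalent to `∑ a i * M i` -/
def NumEq {r : ℕ} (X : Set (Subalgebra k L)) (A : Subalgebra k L → Lˣ) (m : ℕ)
    (κ : Subalgebra k L → Lˣ) (a : Fin r → ℝ) (M : Fin r → Subalgebra k L → Lˣ) : Prop :=
  ∀ O, IsCrv X O → ∀ (c : ℤ) (e : Fin r → ℤ), IsDeg X A κ O c → (∀ i, IsDeg X A (M i) O (e i)) →
    -(c : ℝ) / m = ∑ i, a i * e i

/-- `- K_X ≡ ∑ a i * M i` is a nef decomposition: the `a i` are positive real numbers, the `M i`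
are nef Cartier divisors which are not numerically trivial; degrees are measured with the help of
the ample Cartier divisor `A` (they do not depend on it) -/
structure NDec {r : ℕ} (X : Set (Subalgebra k L))
    (A : Subalgebra k L → Lˣ) (m : ℕ) (κ : Subalgebra k L → Lˣ) (a : Fin r → ℝ)
    (M : Fin r → Subalgebra k L → Lˣ) : Prop where
  pos : ∀ i, 0 < a i
  car : ∀ i, IsCar X (M i)
  nef : ∀ i, NefD X A (M i)
  ne : ∀ i, ¬ NumTriv X A (M i)
  equiv : NumEq X A m κ a M

end Pool.Agent.KM
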