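import Pool.Agent.Lib.MP_732f67_ag.NE.SecB
import Pool.Agent.Lib.MP_0b721b_ag.Kl.Curve

/-!
Degrees on a curve, on a fixed cover.
-/

namespace Pool.Agent.KM

open MvPolynomial
open Pool.Agent.Lib.MP_0b721b_ag
open Pool.Agent.Lib.MP_0b721b_ag.St (Hom)
open Pool.Agent.Lib.MP_732f67_ag.V (relIdeal mem_relIdeal)

universe u v

variable {k : Type u} {L : Type v} [Field k] [Field L] [Algebra k L] {N K : ℕ} {z : Fin N → L}
  {σ : Fin K → Fin N}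

/-- PROOF. `hasSecC_iff` and `exists_rep`. -/
theorem exists_isH0 (hc : Cvr k z σ) {D H : Subalgebra k L → Lˣ} {β : Fin K → Lˣ}
    (h : OnC z σ D β) (hH : BF (Pts (lsys k z)) H (lsys k z)) (n : ℤ) {O : Subalgebra k L}
    (hO : O ∈ Pts (lsys k z)) : ∃ h, IsH0 (Pts (lsys k z)) (D * H ^ n) O h := by
  obtain ⟨Q, hQ, rfl⟩ := exists_ptQ hc.ne hO
  obtain ⟨B, hB⟩ := exists_rep hc h
  exact ⟨_, (hasSecC_iff hc h hB hH n hQ _).2 le_rfl,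
    fun h1 => Nat.not_succ_le_self _ ((hasSecC_iff hc h hB hH n hQ _).1 h1)⟩

/-- the dimension is unique -/
theorem IsH0.uniq {X : Set (Subalgebra k L)} {D : Subalgebra k L → Lˣ} {O : Subalgebra k L}
    {h h' : ℕ} (h1 : IsH0 X D O h) (h2 : IsH0 X D O h') : h = h' := by
  by_contra hne
  rcases Nat.lt_or_gt_of_ne hne with hlt | hlt
  · exact h1.2 (h2.1.mono hlt)
  · exact h2.2 (h1.1.mono hlt)

/-- the degree of a twist on the curve `Q`.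

PROOF. Let `M := DT (X ∘ σ) 1 1` (`Rep.lb` of `Rep.one`), `S := (Kl.geo hM).sys`, `P := ⟨Q, _⟩`. `S.Curve P`
(as in `Kl.nef_sys`), so `Dg 2 (S.p P)` (`Kl.ev_of_curve`, `Snap.dim`), so `dl B 0 (S.p P)` is constant
(`Dg.const`): `δ B := dl B 0 (S.p P) 1 0`; additive because
`p (A B B') - p A = (p (A B B') - p (A B)) + (p (A B) - p A)`. `S.p P A y = S.h P A y` for large `y`. -/
theorem exists_degT (hc : Cvr k z σ) {Q : Ideal (MvPolynomial (Fin N) k)} (hQ : HP z Q)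
    (hcrv : Pool.Agent.Lib.MP_0b721b_ag.IsCurve (fun _ : Fin N => (1 : ℤ)) Q) :
    ∃ δ : Twt (MvPolynomial (Fin N) k) (Fin K) → ℤ, ∀ (β β' : Fin K → Lˣ)
      (B B' : Twt (MvPolynomial (Fin N) k) (Fin K)), Rep z σ β B → Rep z σ β' B' →
      δ (B * B') = δ B + δ B' ∧ ∃ n₀ : ℤ, ∀ n, n₀ ≤ n →
        (h0 (DT (fun a => (X (σ a) : MvPolynomial (Fin N) k)) (fun _ => 1) (B * B')) (fun _ => 1) Q
          hQ.sub n : ℤ) =
        h0 (DT (fun a => (X (σ a) : MvPolynomial (Fin N) k)) (fun _ => 1) B') (fun _ => 1) Q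
          hQ.sub n + δ B := by
  classical
  have hM := Rep.lb hc (Rep.one (k := k) (z := z) (σ := σ))
  let S := (Kl.geo hM).sys (fun _ => rfl)
  let P : Kl.Hi (fun _ : Fin N => (1 : ℤ)) (relIdeal k z) := ⟨Q, hQ.sub, hQ.rel⟩
  have hcv : S.Curve P := by
    obtain ⟨h1, ⟨Q', h2, h3⟩, h4⟩ := hcrv
    refine ⟨h1.2, ⟨⟨Q', h2.1, hQ.rel.trans h3.le⟩, h2.2, h3⟩, ?_⟩
    intro Q₁ Q₂ h5 h6 h7 h8
    exact h4 ⟨Q₁.1, Q₂.1, ⟨Q₁.2.1, h5⟩, ⟨Q₂.2.1, h6⟩, h7, h8⟩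
  have hdg : Kl.Dg 2 (S.p P) := (S.snap P).dim _ (Kl.ev_of_curve hcv).1
  have hdl : ∀ B : twSub hM, Kl.Dg 1 (Kl.dl B 0 (S.p P)) := fun B => hdg B 0
  let δ : Twt (MvPolynomial (Fin N) k) (Fin K) → ℤ := fun B =>
    if h : B ∈ twSub hM then Kl.dl (⟨B, h⟩ : twSub hM) 0 (S.p P) 1 0 else 0
  refine ⟨δ, fun β β' B B' hB hB' => ?_⟩
  have m1 : B ∈ twSub hM := Rep.lb hc hB
  have m2 : B' ∈ twSub hM := Rep.lb hc hB'
  have m3 : B * B' ∈ twSub hM := (twSub hM).mul_mem m1 m2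
  have d1 : δ B = Kl.dl (⟨B, m1⟩ : twSub hM) 0 (S.p P) 1 0 := dif_pos m1
  have d2 : δ B' = Kl.dl (⟨B', m2⟩ : twSub hM) 0 (S.p P) 1 0 := dif_pos m2
  have d3 : δ (B * B') = Kl.dl (⟨B * B', m3⟩ : twSub hM) 0 (S.p P) 1 0 := dif_pos m3
  have e3 : (⟨B * B', m3⟩ : twSub hM) = ⟨B, m1⟩ * ⟨B', m2⟩ := rfl
  constructor
  · rw [d1, d2, d3, e3, ← (hdl ⟨B', m2⟩).const ⟨B, m1⟩ 0]
    simp only [Kl.dl, one_mul, add_zero]
    ring
  · have h1 := (S.snap P).ev (⟨B, m1⟩ * ⟨B', m2⟩)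
    have h2 := (S.snap P).ev ⟨B', m2⟩
    obtain ⟨n₀, hn⟩ := Filter.eventually_atTop.1 (h1.and h2)
    refine ⟨n₀, fun n hle => ?_⟩
    obtain ⟨h3, h4⟩ := hn n hle
    have h5 : S.h P (⟨B, m1⟩ * ⟨B', m2⟩) n =
      (h0 (DT (fun a => (X (σ a) : MvPolynomial (Fin N) k)) (fun _ => 1) (B * B')) (fun _ => 1) Q
          hQ.sub n : ℤ) := rfl
    have h6 : S.h P ⟨B', m2⟩ n =
      (h0 (DT (fun a => (X (σ a) : MvPolynomial (Fin N) k)) (fun _ => 1) B') (fun _ => 1) Q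
          hQ.sub n : ℤ) := rfl
    rw [← h5, ← h6, h3, h4, d1, ← (hdl ⟨B, m1⟩).const ⟨B', m2⟩ n]
    simp only [Kl.dl, add_zero]
    rw [mul_comm (⟨B', m2⟩ : twSub hM)]
    ring

/-- the degree of a divisor on the curve `O`.

PROOF. `O = ptQ z Q hQ` (`exists_ptQ`), `isCrv_ptQ`, `δ` from `exists_degT`. For `D` with `OnC z σ D β` for some
`β` choose one `β` and `B` with `Rep z σ β B` (`exists_rep`) and let `δ D := δ B`. The second statement is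
`hasSecC_iff` for `D'` and `D * D'` (represented by `β * β'`, `B * B'`: `OnC.mul`, `Rep.mul`) and
`exists_degT`. The first one: `D * D'` is represented by the chosen `B''` and by `B * B'`, and both have
the same `h0` for all `n` (`hasSecC_iff`), so `δ B'' = δ (B * B')` by the formula with `B' = 1`. -/
theorem exists_deg (hc : Cvr k z σ) {H : Subalgebra k L → Lˣ}
    (hH : BF (Pts (lsys k z)) H (lsys k z)) {O : Subalgebra k L}
    (hO : IsCrv (Pts (lsys k z)) O) :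
    ∃ δ : (Subalgebra k L → Lˣ) → ℤ, ∀ D D' : Subalgebra k L → Lˣ, (∃ β, OnC z σ D β) →
      (∃ β, OnC z σ D' β) → δ (D * D') = δ D + δ D' ∧ ∃ n₀ : ℤ, ∀ n, n₀ ≤ n → ∀ h h' : ℕ,
        IsH0 (Pts (lsys k z)) (D' * H ^ n) O h → IsH0 (Pts (lsys k z)) (D * D' * H ^ n) O h' →
        (h' : ℤ) = h + δ D := by
  classical
  obtain ⟨Q, hQ, rfl⟩ := exists_ptQ hc.ne hO.1
  obtain ⟨δ, hδ⟩ := exists_degT hc hQ ((isCrv_ptQ hc.ne hQ).1 hO)
  have hh : ∀ {D : Subalgebra k L → Lˣ} {β : Fin K → Lˣ}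
      {B : Twt (MvPolynomial (Fin N) k) (Fin K)} {n : ℤ} {h : ℕ}, OnC z σ D β → Rep z σ β B →
      IsH0 (Pts (lsys k z)) (D * H ^ n) (ptQ z Q hQ) h →
      h = h0 (DT (fun a => (X (σ a) : MvPolynomial (Fin N) k)) (fun _ => 1) B) (fun _ => 1) Q
        hQ.sub n := by
    intro D β B n h h1 h2 h3
    refine le_antisymm ((hasSecC_iff hc h1 h2 hH n hQ _).1 h3.1) ?_
    by_contra hlt
    exact h3.2 ((hasSecC_iff hc h1 h2 hH n hQ _).2 (not_le.1 hlt))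
  have hex : ∀ D : Subalgebra k L → Lˣ, ∃ B : Twt (MvPolynomial (Fin N) k) (Fin K),
      (∃ β, OnC z σ D β) → ∃ β, OnC z σ D β ∧ Rep z σ β B := by
    intro D
    by_cases h : ∃ β, OnC z σ D β
    · obtain ⟨β, hβ⟩ := h
      obtain ⟨B, hB⟩ := exists_rep hc hβ
      exact ⟨B, fun _ => ⟨β, hβ, hB⟩⟩
    · exact ⟨1, fun h' => absurd h' h⟩
  choose F hF using hex
  -- the degree does not depend on the representation
  have huniq : ∀ {D : Subalgebra k L → Lˣ} {β β' : Fin K → Lˣ}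
      {B B' : Twt (MvPolynomial (Fin N) k) (Fin K)}, OnC z σ D β → Rep z σ β B →
      OnC z σ D β' → Rep z σ β' B' → δ B = δ B' := by
    intro D β β' B B' h1 h2 h3 h4
    obtain ⟨-, n₁, hn₁⟩ := hδ β 1 B 1 h2 Rep.one
    obtain ⟨-, n₂, hn₂⟩ := hδ β' 1 B' 1 h4 Rep.one
    have h5 := hn₁ (max n₁ n₂) (le_max_left _ _)
    have h6 := hn₂ (max n₁ n₂) (le_max_right _ _)
    rw [mul_one] at h5 h6
    obtain ⟨h, hh0⟩ := exists_isH0 hc h1 hH (max n₁ n₂) hO.1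
    have h7 := hh h1 h2 hh0
    have h8 := hh h3 h4 hh0
    rw [← h7] at h5
    rw [← h8] at h6
    linarith
  refine ⟨fun D => δ (F D), fun D D' h1 h2 => ?_⟩
  have h3 : ∃ β, OnC z σ (D * D') β := by
    obtain ⟨β, hβ⟩ := h1
    obtain ⟨β', hβ'⟩ := h2
    exact ⟨_, hβ.mul hβ'⟩
  obtain ⟨β₁, a1, b1⟩ := hF D h1
  obtain ⟨β₂, a2, b2⟩ := hF D' h2
  obtain ⟨β₃, a3, b3⟩ := hF (D * D') h3
  obtain ⟨c1, n₀, hn⟩ := hδ _ _ _ _ b1 b2
  refine ⟨?_, n₀, fun n hle h h' e1 e2 => ?_⟩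
  · rw [← c1]
    exact huniq a3 b3 (a1.mul a2) (b1.mul b2)
  · rw [hh a2 b2 e1, hh (a1.mul a2) (b1.mul b2) e2]
    exact hn n hle

end Pool.Agent.KM
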