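import Pool.Agent.Lib.MP_732f67_ag.NE.Def
import Pool.Agent.Lib.MP_732f67_ag.V.Rel

/-!
The dictionary between homogeneous prime ideals and points (local rings), first part.
-/

namespace Pool.Agent.KM

open MvPolynomial
open Pool.Agent.Lib.MP_0b721b_ag
open Pool.Agent.Lib.MP_0b721b_ag.St (Hom)
open Pool.Agent.Lib.MP_732f67_ag.V (relIdeal mem_relIdeal)

universe u v

variable {k : Type u} {L : Type v} [Field k] [Field L] [Algebra k L] {N : ℕ} {z : Fin N → L}

/-- the linear system of the coordinates -/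
abbrev lsys (k : Type u) {L : Type v} [Field k] [Field L] [Algebra k L] {N : ℕ} (z : Fin N → L) :
    Submodule k L := Submodule.span k (Set.range z)

/-- `Q` is a homogeneous prime ideal which contains the relations between the `z j`, and not all
variables -/
structure HP (z : Fin N → L) (Q : Ideal (MvPolynomial (Fin N) k)) : Prop where
  sub : (polyGr k (fun _ : Fin N => (1 : ℤ))).Sub Q
  prime : Q.IsPrime
  rel : relIdeal k z ≤ Q
  ne : ∃ i, (X i : MvPolynomial (Fin N) k) ∉ Q

theorem dicA_mul {m n : ℤ} {f g : MvPolynomial (Fin N) k} (hf : Hom k N m f) (hg : Hom k N n g) :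
    Hom k N (m + n) (f * g) := St.hom_iff.2 (polyGr_mul (St.hom_iff.1 hf) (St.hom_iff.1 hg))

theorem dicA_add {n : ℤ} {f g : MvPolynomial (Fin N) k} (hf : Hom k N n f) (hg : Hom k N n g) :
    Hom k N n (f + g) := by
  classical
  intro d hd
  rcases Finset.mem_union.1 (support_add hd) with h | h
  · exact hf d h
  · exact hg d h

theorem dicA_neg {n : ℤ} {f : MvPolynomial (Fin N) k} (hf : Hom k N n f) : Hom k N n (-f) := by
  intro d hd
  rw [support_neg] at hd
  exact hf d hd

theorem dicA_sub {n : ℤ} {f g : MvPolynomial (Fin N) k} (hf : Hom k N n f) (hg : Hom k N n g) :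
    Hom k N n (f - g) := by
  rw [sub_eq_add_neg]
  exact dicA_add hf (dicA_neg hg)

theorem dicA_C (c : k) : Hom k N 0 (C c : MvPolynomial (Fin N) k) := by
  classical
  intro d hd
  rw [mem_support_iff, coeff_C] at hd
  split_ifs at hd with h
  · rw [← h]
    simp
  · exact absurd rfl hd

theorem dicA_X (i : Fin N) : Hom k N 1 (X i : MvPolynomial (Fin N) k) :=
  St.hom_iff.2 (polyGr_X (fun _ : Fin N => (1 : ℤ)) i)

theorem dicA_zero (n : ℤ) : Hom k N n (0 : MvPolynomial (Fin N) k) := by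
  intro d hd
  rw [support_zero] at hd
  exact absurd hd (Finset.notMem_empty d)

theorem dicA_smul {n : ℤ} {f : MvPolynomial (Fin N) k} (hf : Hom k N n f) (c : k) :
    Hom k N n (c • f) := by
  have h := dicA_mul (dicA_C (N := N) c) hf
  rw [zero_add, ← MvPolynomial.smul_eq_C_mul] at h
  exact h

/-- a form with value zero is a relation -/
theorem dicA_rel {n : ℤ} {g : MvPolynomial (Fin N) k} (hg : Hom k N n g)
    (h : (aeval z g : L) = 0) : g ∈ relIdeal k z := by
  rw [mem_relIdeal]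
  intro m
  have h1 : (polyGr k (fun _ : Fin N => (1 : ℤ))).pr n g = g := St.hom_iff.1 hg
  by_cases hm : m = n
  · subst hm
    rw [h1]
    exact h
  · rw [← h1, Gr.pr_ne _ _ _ hm, map_zero]

/-- the values of the forms of degree `e` -/
def dicAval (k : Type u) {L : Type v} [Field k] [Field L] [Algebra k L] {N : ℕ} (z : Fin N → L)
    (e : ℤ) : Submodule k L where
  carrier := {x | ∃ f : MvPolynomial (Fin N) k, Hom k N e f ∧ aeval z f = x}
  zero_mem' := ⟨0, dicA_zero e, map_zero _⟩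
  add_mem' := by
    rintro _ _ ⟨f, hf, rfl⟩ ⟨g, hg, rfl⟩
    exact ⟨f + g, dicA_add hf hg, map_add _ _ _⟩
  smul_mem' := by
    rintro c _ ⟨f, hf, rfl⟩
    exact ⟨c • f, dicA_smul hf c, map_smul _ _ _⟩

/-- forms and elements of the powers of the linear system -/
theorem mem_pow_iff {e : ℕ} {x : L} :
    x ∈ lsys k z ^ e ↔ ∃ f : MvPolynomial (Fin N) k, Hom k N e f ∧ aeval z f = x := by
  constructor
  · intro hx
    have key : ∀ e : ℕ, lsys k z ^ e ≤ dicAval k z e := by
      intro e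
      induction e with
      | zero =>
        rw [pow_zero]
        intro y hy
        rw [Submodule.mem_one] at hy
        obtain ⟨c, rfl⟩ := hy
        exact ⟨C c, dicA_C c, aeval_C _ _⟩
      | succ e ih =>
        rw [pow_succ, Submodule.mul_le]
        intro m hm n hn
        obtain ⟨f, hf, rfl⟩ := ih hm
        have h1 : lsys k z ≤ dicAval k z 1 := by
          rw [Submodule.span_le]
          rintro _ ⟨i, rfl⟩
          exact ⟨X i, dicA_X i, aeval_X _ _⟩
        obtain ⟨g, hg, rfl⟩ := h1 hn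
        refine ⟨f * g, ?_, map_mul _ _ _⟩
        have h2 := dicA_mul hf hg
        push_cast
        exact h2
    exact key e hx
  · rintro ⟨f, hf, rfl⟩
    rw [aeval_def, eval₂_eq']
    refine Submodule.sum_mem _ fun d hd => ?_
    have h1 : ∀ s : Finset (Fin N), ∏ i ∈ s, z i ^ d i ∈ lsys k z ^ (∑ i ∈ s, d i) := by
      classical
      intro s
      induction s using Finset.induction_on with
      | empty =>
        rw [Finset.prod_empty, Finset.sum_empty, pow_zero]
        exact Submodule.one_le.1 le_rfl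
      | insert a s ha ih =>
        rw [Finset.prod_insert ha, Finset.sum_insert ha, pow_add]
        have ha' : z a ∈ lsys k z := Submodule.subset_span (Set.mem_range_self a)
        exact Submodule.mul_mem_mul (Submodule.pow_mem_pow _ ha' _) ih
    have h2 : ∑ i, d i = e := by
      have := hf d hd
      exact_mod_cast this
    have h3 := h1 Finset.univ
    rw [h2] at h3
    rw [← Algebra.smul_def]
    exact Submodule.smul_mem _ _ h3

/-- a form which is not in `Q` does not vanish -/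
theorem HP.aeval_ne {Q : Ideal (MvPolynomial (Fin N) k)} (hQ : HP z Q) {n : ℤ}
    {g : MvPolynomial (Fin N) k} (hg : Hom k N n g) (h : g ∉ Q) : (aeval z g : L) ≠ 0 :=
  fun h0 => h (hQ.rel (dicA_rel hg h0))

/-- a vanishing form is in `Q` -/
theorem HP.mem_of_aeval {Q : Ideal (MvPolynomial (Fin N) k)} (hQ : HP z Q) {n : ℤ}
    {g : MvPolynomial (Fin N) k} (hg : Hom k N n g) (h : (aeval z g : L) = 0) : g ∈ Q :=
  hQ.rel (dicA_rel hg h)

theorem HP.mul_notMem {Q : Ideal (MvPolynomial (Fin N) k)} (hQ : HP z Q)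
    {f g : MvPolynomial (Fin N) k} (hf : f ∉ Q) (hg : g ∉ Q) : f * g ∉ Q := fun h =>
  (hQ.prime.mem_or_mem h).elim hf hg

/-- the local ring of `Q` -/
noncomputable def ptQ (z : Fin N → L) (Q : Ideal (MvPolynomial (Fin N) k)) (hQ : HP z Q) :
    Subalgebra k L where
  carrier := {x | ∃ (n : ℤ) (f g : MvPolynomial (Fin N) k), Hom k N n f ∧ Hom k N n g ∧ g ∉ Q ∧
    x = aeval z f / aeval z g}
  mul_mem' := by
    rintro _ _ ⟨n, f, g, hf, hg, h, rfl⟩ ⟨n', f', g', hf', hg', h', rfl⟩
    exact ⟨n + n', f * f', g * g', dicA_mul hf hf', dicA_mul hg hg', hQ.mul_notMem h h', by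
      rw [map_mul, map_mul, div_mul_div_comm]⟩
  add_mem' := by
    rintro _ _ ⟨n, f, g, hf, hg, h, rfl⟩ ⟨n', f', g', hf', hg', h', rfl⟩
    exact ⟨n + n', f * g' + g * f', g * g', dicA_add (dicA_mul hf hg') (dicA_mul hg hf'),
      dicA_mul hg hg', hQ.mul_notMem h h', by
      rw [div_add_div _ _ (hQ.aeval_ne hg h) (hQ.aeval_ne hg' h'), map_add, map_mul, map_mul,
        map_mul]⟩
  algebraMap_mem' := by
    intro c
    refine ⟨0, C c, C 1, dicA_C c, dicA_C 1, ?_, ?_⟩
    · rw [C_1]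
      exact fun h => hQ.prime.ne_top ((Ideal.eq_top_iff_one Q).2 h)
    · rw [aeval_C, C_1, map_one, div_one]

theorem mem_ptQ {Q : Ideal (MvPolynomial (Fin N) k)} {hQ : HP z Q} {x : L} :
    x ∈ ptQ z Q hQ ↔ ∃ (n : ℤ) (f g : MvPolynomial (Fin N) k), Hom k N n f ∧ Hom k N n g ∧
      g ∉ Q ∧ x = aeval z f / aeval z g := Iff.rfl

/-- PROOF. `(f / g)⁻¹ = g / f` if `f ∉ Q`; conversely if `f / g` is a unit, `g / f = f' / g'` with
`g' ∉ Q`, then `f f' - g g'` is a form with value zero, so `f f' ∉ Q`. -/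
theorem un_ptQ {Q : Ideal (MvPolynomial (Fin N) k)} {hQ : HP z Q} {n : ℤ}
    {f g : MvPolynomial (Fin N) k} (hf : Hom k N n f) (hg : Hom k N n g) (h : g ∉ Q) :
    Un (ptQ z Q hQ) (aeval z f / aeval z g) ↔ f ∉ Q := by
  have hg0 := hQ.aeval_ne hg h
  constructor
  · rintro ⟨h0, -, n', f', g', hf', hg', h', he⟩ hfQ
    have hf0 : (aeval z f : L) ≠ 0 := fun h1 => h0 (by rw [h1, zero_div])
    have hg0' := hQ.aeval_ne hg' h'
    rw [inv_div, div_eq_div_iff hf0 hg0'] at he
    have h1 : f * f' - g * g' ∈ Q := by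
      refine hQ.mem_of_aeval (dicA_sub (dicA_mul hf hf') (dicA_mul hg hg')) ?_
      rw [_root_.map_sub, map_mul, map_mul, he]
      ring
    have h2 : g * g' ∈ Q := by
      have h3 := Q.sub_mem (Q.mul_mem_right f' hfQ) h1
      rwa [sub_sub_cancel] at h3
    exact hQ.mul_notMem h h' h2
  · intro hfQ
    have hf0 := hQ.aeval_ne hf hfQ
    exact ⟨div_ne_zero hf0 hg0, ⟨n, f, g, hf, hg, h, rfl⟩, ⟨n, g, f, hg, hf, hfQ, inv_div _ _⟩⟩

theorem mx_ptQ {Q : Ideal (MvPolynomial (Fin N) k)} {hQ : HP z Q} {n : ℤ}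
    {f g : MvPolynomial (Fin N) k} (hf : Hom k N n f) (hg : Hom k N n g) (h : g ∉ Q) :
    Mx (ptQ z Q hQ) (aeval z f / aeval z g) ↔ f ∈ Q := by
  unfold Mx
  rw [un_ptQ hf hg h, not_not]
  exact ⟨fun h1 => h1.2, fun h1 => ⟨⟨n, f, g, hf, hg, h, rfl⟩, h1⟩⟩

end Pool.Agent.KM
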