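import Pool.Agent.Lib.MP_732f67_ag.NE.DicA
import Pool.Agent.Lib.MP_732f67_ag.G.PtC
import Pool.Agent.Lib.MP_732f67_ag.G.Ver
import Pool.Agent.Lib.MP_0b721b_ag.Kl.Hid

/-!
The dictionary between homogeneous prime ideals and points (local rings): the charts, every point
comes from a homogeneous prime ideal.
-/

namespace Pool.Agent.KM

open MvPolynomial
open Pool.Agent.Lib.MP_0b721b_ag
open Pool.Agent.Lib.MP_0b721b_ag.St (Hom)
open Pool.Agent.Lib.MP_732f67_ag.V (relIdeal mem_relIdeal relIdeal_sub)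

universe u v

variable {k : Type u} {L : Type v} [Field k] [Field L] [Algebra k L] {N : ℕ} {z : Fin N → L}

theorem dicB_X (j : Fin N) : Hom k N 1 (X j : MvPolynomial (Fin N) k) :=
  St.hom_iff.2 (polyGr_X (fun _ => 1) j)

theorem dicB_pow (j : Fin N) (e : ℕ) : Hom k N e ((X j : MvPolynomial (Fin N) k) ^ e) := by
  have h := polyGr_pow (St.hom_iff.1 (dicB_X (k := k) j)) e
  rw [mul_one] at h
  exact St.hom_iff.2 h

theorem dicB_sub {n : ℤ} {f g : MvPolynomial (Fin N) k} (hf : Hom k N n f) (hg : Hom k N n g) :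
    Hom k N n (g - f) := by
  rw [sub_eq_add_neg]
  exact St.hom_iff.2 ((St.hom_iff.1 hg).add (St.hom_iff.1 hf).neg)

theorem dicB_nonneg {n : ℤ} {g : MvPolynomial (Fin N) k} (hg : Hom k N n g) (h : g ≠ 0) :
    ∃ m : ℕ, n = m := by
  have h1 := Kl.deg_nonneg (fun _ => zero_le_one) (St.hom_iff.1 hg) h
  exact Int.eq_ofNat_of_zero_le h1

/-- elements of the chart -/
theorem dicB_cht (hz : ∀ j, z j ≠ 0) (j : Fin N) (x : L) :
    x ∈ cht (lsys k z) (z j) ↔ ∃ (e : ℕ) (f : MvPolynomial (Fin N) k), Hom k N e f ∧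
      x = aeval z f / z j ^ e := by
  have hzj : z j ∈ lsys k z := Submodule.subset_span ⟨j, rfl⟩
  rw [mem_cht_iff hzj (hz j)]
  constructor
  · rintro ⟨e, H, hH, rfl⟩
    obtain ⟨f, hf, rfl⟩ := mem_pow_iff.1 hH
    exact ⟨e, f, hf, rfl⟩
  · rintro ⟨e, f, hf, rfl⟩
    exact ⟨e, _, mem_pow_iff.2 ⟨f, hf, rfl⟩, rfl⟩

theorem dicB_cht_le {Q : Ideal (MvPolynomial (Fin N) k)} (hQ : HP z Q)
    {j : Fin N} (hj : (X j : MvPolynomial (Fin N) k) ∉ Q) :
    cht (lsys k z) (z j) ≤ ptQ z Q hQ := by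
  rw [cht_span]
  refine Algebra.adjoin_le ?_
  rintro _ ⟨i, rfl⟩
  refine mem_ptQ.2 ⟨1, X i, X j, dicB_X i, dicB_X j, hj, ?_⟩
  rw [aeval_X, aeval_X]

/-- PROOF. The prime ideal of `A = cht V (z j)`, `V = lsys k z`, is the set of the `f (z) / z j ^ e`,
`f ∈ Q` a form of degree `e`; `f / g` of degree `n` is `(f / z j ^ n) / (g / z j ^ n)`. -/
theorem locAt_ptQ (hz : ∀ j, z j ≠ 0) {Q : Ideal (MvPolynomial (Fin N) k)} (hQ : HP z Q)
    {j : Fin N} (hj : (X j : MvPolynomial (Fin N) k) ∉ Q) :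
    LocAt (cht (lsys k z) (z j)) (ptQ z Q hQ) := by
  rw [pt_locAt_iff]
  refine ⟨dicB_cht_le hQ hj, ?_, ?_⟩
  · refine IsLocalRing.of_isUnit_or_isUnit_one_sub_self fun x => ?_
    obtain ⟨n, f, g, hf, hg, hgQ, hx⟩ := mem_ptQ.1 x.2
    by_cases hfQ : f ∈ Q
    · right
      have h1 : g - f ∉ Q := fun h => hgQ (by
        have h2 := Q.add_mem h hfQ
        rwa [sub_add_cancel] at h2)
      have h2 := (un_ptQ (hQ := hQ) (dicB_sub hf hg) hg hgQ).2 h1
      have h3 : (aeval z (g - f) : L) / aeval z g = ((1 - x : ptQ z Q hQ) : L) := by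
        rw [_root_.map_sub, sub_div, div_self (hQ.aeval_ne hg hgQ), ← hx]
        rfl
      rw [h3] at h2
      exact (pt_isUnit_iff _).2 ⟨h2.1, h2.2.2⟩
    · left
      have h2 := (un_ptQ (hQ := hQ) hf hg hgQ).2 hfQ
      rw [← hx] at h2
      exact (pt_isUnit_iff _).2 ⟨h2.1, h2.2.2⟩
  · intro x hx
    obtain ⟨n, f, g, hf, hg, hgQ, rfl⟩ := mem_ptQ.1 hx
    obtain ⟨m, rfl⟩ := dicB_nonneg hg (fun h => hgQ (by rw [h]; exact Q.zero_mem))
    have h0 := hQ.aeval_ne hg hgQ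
    have hzm := pow_ne_zero m (hz j)
    refine ⟨aeval z f / z j ^ m, (dicB_cht hz j _).2 ⟨m, f, hf, rfl⟩, aeval z g / z j ^ m,
      (dicB_cht hz j _).2 ⟨m, g, hg, rfl⟩, div_ne_zero h0 hzm, ?_, ?_⟩
    · rw [inv_div]
      refine mem_ptQ.2 ⟨m, X j ^ m, g, dicB_pow j m, hg, hgQ, ?_⟩
      rw [map_pow, aeval_X]
    · rw [div_div_div_cancel_right₀ hzm]

theorem ptQ_mem (hz : ∀ j, z j ≠ 0) {Q : Ideal (MvPolynomial (Fin N) k)} (hQ : HP z Q) :
    ptQ z Q hQ ∈ Pts (lsys k z) := by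
  obtain ⟨i, hi⟩ := hQ.ne
  exact ⟨z i, Submodule.subset_span ⟨i, rfl⟩, hz i, locAt_ptQ hz hQ hi⟩

/-- `cht V (z j) ≤ ptQ` exactly if `X j ∉ Q` -/
theorem cht_le_ptQ (hz : ∀ j, z j ≠ 0) {Q : Ideal (MvPolynomial (Fin N) k)} (hQ : HP z Q)
    {j : Fin N} : cht (lsys k z) (z j) ≤ ptQ z Q hQ ↔ (X j : MvPolynomial (Fin N) k) ∉ Q := by
  constructor
  · intro h
    obtain ⟨i, hi⟩ := hQ.ne
    have h1 : z i / z j ∈ ptQ z Q hQ := h (by
      rw [cht_span]
      exact Algebra.subset_adjoin ⟨i, rfl⟩)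
    have h2 : Un (ptQ z Q hQ) ((aeval z (X j : MvPolynomial (Fin N) k) : L) /
        aeval z (X i : MvPolynomial (Fin N) k)) := by
      rw [aeval_X, aeval_X]
      refine ⟨div_ne_zero (hz j) (hz i), mem_ptQ.2 ⟨1, X j, X i, dicB_X j, dicB_X i, hi, ?_⟩, ?_⟩
      · rw [aeval_X, aeval_X]
      · rw [inv_div]
        exact h1
    exact (un_ptQ (dicB_X j) (dicB_X i) hi).1 h2
  · exact dicB_cht_le hQ

/-- every point contains a chart of the cover by the coordinates -/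
theorem dicB_exists_cht (hz : ∀ j, z j ≠ 0) {O : Subalgebra k L} (hO : O ∈ Pts (lsys k z)) :
    ∃ j, cht (lsys k z) (z j) ≤ O := by
  have hloc : IsLocalRing O := by
    obtain ⟨v', _, _, hl⟩ := hO
    exact hl.isLocalRing
  have hne : Nonempty (Fin N) := by
    by_contra hcon
    rw [not_nonempty_iff] at hcon
    obtain ⟨v, hv, hv0, -⟩ := hO
    have h1 : Set.range z = ∅ := Set.range_eq_empty _
    rw [lsys, h1, Submodule.span_empty, Submodule.mem_bot] at hv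
    exact hv0 hv
  obtain ⟨R, hR, hR'⟩ := exists_val hloc
  have hk : ∀ c : k, algebraMap k L c ∈ R := fun c => hR _ (O.algebraMap_mem c)
  obtain ⟨j, hj⟩ := exists_cht_le_of_span z hz R hk
  let R' : Subalgebra k L := { R.toSubring with algebraMap_mem' := hk }
  have hRl : IsLocalRing R' := (inferInstance : IsLocalRing R)
  have hd : Dom O R' := ⟨fun x hx => hR x hx, fun x hx hx' => hR' x hx hx'⟩
  refine ⟨j, Pts.le_of_dom hO hd (Submodule.subset_span ⟨j, rfl⟩) (hz j) le_rfl ?_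
    (fun x hx => hj x hx) hRl⟩
  intro x hx
  exact ⟨x, hx, 1, Subalgebra.one_mem _, one_ne_zero, by rw [inv_one]; exact Subalgebra.one_mem _,
    by rw [div_one]⟩

/-- the dehomogenisation -/
theorem dicB_aeval_div (j : Fin N) {e : ℕ} {f : MvPolynomial (Fin N) k}
    (hf : Hom k N e f) :
    (aeval (fun i => z i / z j) f : L) = aeval z f / z j ^ e := by
  rw [aeval_def, eval₂_eq', aeval_def, eval₂_eq', Finset.sum_div]
  refine Finset.sum_congr rfl fun d hd => ?_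
  have h1 := hf d hd
  have h2 : ∑ i, d i = e := by exact_mod_cast h1
  have h3 : ∏ i, (z i / z j) ^ d i = (∏ i, z i ^ d i) / z j ^ e := by
    rw [← h2, ← Finset.prod_pow_eq_pow_sum, ← Finset.prod_div_distrib]
    exact Finset.prod_congr rfl fun i _ => div_pow _ _ _
  rw [h3, mul_div_assoc]

/-- every point is a `ptQ`.

PROOF. `O ∈ Pts V` contains a chart `cht V (z j)` (`exists_cht_le_of_span` for a valuation ring which
dominates `O`, `exists_val`, `Pts.le_of_dom`) and is a local ring of it (`Pts.locAt`). `Q` := the set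
of the `f` such that `Mx O (aeval z (pr n f) / z j ^ n)` for all `n ≥ 0`. -/
theorem exists_ptQ (hz : ∀ j, z j ≠ 0) {O : Subalgebra k L} (hO : O ∈ Pts (lsys k z)) :
    ∃ (Q : Ideal (MvPolynomial (Fin N) k)) (hQ : HP z Q), O = ptQ z Q hQ := by
  classical
  obtain ⟨j, hj⟩ := dicB_exists_cht hz hO
  have hL := Pts.locAt hO (Submodule.subset_span ⟨j, rfl⟩) (hz j) hj
  have hloc := hL.isLocalRing
  have hmem : ∀ i, z i / z j ∈ O := fun i => hj (by
    rw [cht_span]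
    exact Algebra.subset_adjoin ⟨i, rfl⟩)
  -- the prime ideal of the point on the chart
  let ψ : MvPolynomial (Fin N) k →ₐ[k] O := aeval fun i => (⟨z i / z j, hmem i⟩ : O)
  have hψ : ∀ f, ((ψ f : O) : L) = aeval (fun i => z i / z j) f := by
    intro f
    have h1 := aeval_algebraMap_apply L (fun i => (⟨z i / z j, hmem i⟩ : O)) f
    exact h1.symm
  set 𝔮 : Ideal (MvPolynomial (Fin N) k) :=
    Ideal.comap ψ.toRingHom (IsLocalRing.maximalIdeal O) with h𝔮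
  have hp : 𝔮.IsPrime := Ideal.IsPrime.comap _
  have hm𝔮 : ∀ f, f ∉ 𝔮 ↔ Un O (aeval (fun i => z i / z j) f) := by
    intro f
    rw [h𝔮, Ideal.mem_comap, IsLocalRing.mem_maximalIdeal, mem_nonunits_iff, not_not]
    show IsUnit (ψ f) ↔ _
    rw [pt_isUnit_iff, hψ]
    constructor
    · rintro ⟨h1, h2⟩
      refine ⟨h1, ?_, h2⟩
      rw [← hψ]
      exact (ψ f).2
    · rintro ⟨h1, -, h2⟩
      exact ⟨h1, h2⟩
  let := weightedGradedAlgebra k (fun _ : Fin N => (1 : ℤ))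
  set Q : Ideal (MvPolynomial (Fin N) k) := (Ideal.homogeneousCore
    (weightedHomogeneousSubmodule k (fun _ : Fin N => (1 : ℤ))) 𝔮).toIdeal with hQdef
  have hQ𝔮 : Q ≤ 𝔮 := Ideal.toIdeal_homogeneousCore_le _ _
  have hcore : ∀ {n : ℤ} {f : MvPolynomial (Fin N) k}, Hom k N n f → (f ∈ Q ↔ f ∈ 𝔮) := by
    intro n f hf
    refine ⟨fun h => hQ𝔮 h, fun h => ?_⟩
    refine Ideal.mem_homogeneousCore_of_homogeneous_of_mem ⟨n, ?_⟩ h
    exact (mem_weightedHomogeneousSubmodule _ _ _ _).2 (polyGr_hom_iff.1 (St.hom_iff.1 hf))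
  have hXj : (X j : MvPolynomial (Fin N) k) ∉ 𝔮 := by
    rw [hm𝔮, aeval_X, div_self (hz j)]
    exact ⟨one_ne_zero, O.one_mem, by rw [inv_one]; exact O.one_mem⟩
  have hQ : HP z Q := by
    refine ⟨Kl.sub_iff.2 (HomogeneousIdeal.isHomogeneous _), hp.homogeneousCore, ?_, j, ?_⟩
    · have h1 := Kl.sub_iff.1 (relIdeal_sub (R := k) (z := z))
      rw [← h1.toIdeal_homogeneousCore_eq_self]
      refine Ideal.homogeneousCore_mono _ ?_
      intro f hf
      rw [← (polyGr k (fun _ : Fin N => (1 : ℤ))).sum f]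
      refine finsum_induction (fun y => y ∈ 𝔮) 𝔮.zero_mem (fun _ _ h h' => 𝔮.add_mem h h')
        (fun n => ?_)
      have h2 := mem_relIdeal.1 hf n
      have h3 : Hom k N n ((polyGr k (fun _ : Fin N => (1 : ℤ))).pr n f) :=
        St.hom_iff.2 ((polyGr k _).hom_pr n f)
      by_cases h0 : (polyGr k (fun _ : Fin N => (1 : ℤ))).pr n f = 0
      · rw [h0]
        exact 𝔮.zero_mem
      · obtain ⟨m, hm⟩ := dicB_nonneg h3 h0
        subst hm
        by_contra h4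
        have h5 := ((hm𝔮 _).1 h4).1
        rw [dicB_aeval_div j h3, h2, zero_div] at h5
        exact h5 rfl
    · exact fun h => hXj (hQ𝔮 h)
  refine ⟨Q, hQ, ?_⟩
  have hu : ∀ {e : ℕ} {g : MvPolynomial (Fin N) k}, Hom k N e g →
      (g ∉ Q ↔ Un O (aeval z g / z j ^ e)) := by
    intro e g hg
    rw [hcore hg, ← dicB_aeval_div j hg]
    exact hm𝔮 g
  obtain ⟨-, -, h3⟩ := pt_locAt_iff.1 hL
  apply le_antisymm
  · intro x hx
    obtain ⟨a, ha, b, hb, hb0, hbO, rfl⟩ := h3 x hx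
    obtain ⟨e, f, hf, rfl⟩ := (dicB_cht hz j a).1 ha
    obtain ⟨e', g, hg, rfl⟩ := (dicB_cht hz j b).1 hb
    have hze := pow_ne_zero e (hz j)
    have hze' := pow_ne_zero e' (hz j)
    have hgQ : g ∉ Q := (hu hg).2 ⟨hb0, hj hb, hbO⟩
    have hg0 := hQ.aeval_ne hg hgQ
    have hXQ : (X j : MvPolynomial (Fin N) k) ^ e ∉ Q := fun h =>
      hXj (hQ𝔮 (hQ.prime.mem_of_pow_mem e h))
    have h4 : Hom k N ((e : ℤ) + e') (f * X j ^ e') :=
      St.hom_iff.2 (polyGr_mul (St.hom_iff.1 hf) (St.hom_iff.1 (dicB_pow j e')))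
    have h5 : Hom k N ((e : ℤ) + e') (X j ^ e * g) :=
      St.hom_iff.2 (polyGr_mul (St.hom_iff.1 (dicB_pow j e)) (St.hom_iff.1 hg))
    refine mem_ptQ.2 ⟨(e : ℤ) + e', f * X j ^ e', X j ^ e * g, h4, h5, ?_, ?_⟩
    · intro h
      rcases hQ.prime.mem_or_mem h with h | h
      · exact hXQ h
      · exact hgQ h
    · rw [map_mul, map_mul, map_pow, map_pow, aeval_X]
      field_simp
  · intro x hx
    obtain ⟨n, f, g, hf, hg, hgQ, rfl⟩ := mem_ptQ.1 hx
    obtain ⟨m, rfl⟩ := dicB_nonneg hg (fun h => hgQ (by rw [h]; exact Q.zero_mem))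
    have hzm := pow_ne_zero m (hz j)
    have h4 := (hu hg).1 hgQ
    have h5 : aeval z f / z j ^ m ∈ O := hj ((dicB_cht hz j _).2 ⟨m, f, hf, rfl⟩)
    have h6 : (aeval z f : L) / aeval z g = aeval z f / z j ^ m * (aeval z g / z j ^ m)⁻¹ := by
      rw [inv_div, div_mul_div_comm, mul_comm (z j ^ m), mul_div_mul_right _ _ hzm]
    rw [h6]
    exact O.mul_mem h5 h4.2.2

end Pool.Agent.KM
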