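import Pool.Agent.Lib.MP_732f67_ag.NE.Def
import Pool.Agent.Lib.MP_732f67_ag.NE.DicA
import Pool.Agent.Lib.MP_732f67_ag.NE.DicB
import Pool.Agent.Lib.MP_732f67_ag.G.PtC
import Pool.Agent.Lib.MP_732f67_ag.G.Ver
import Pool.Agent.Lib.MP_732f67_ag.V.Rel

/-!
The dictionary between homogeneous prime ideals and points (local rings).
-/

namespace Pool.Agent.KM

open MvPolynomial
open Pool.Agent.Lib.MP_0b721b_ag
open Pool.Agent.Lib.MP_0b721b_ag.St (Hom)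
open Pool.Agent.Lib.MP_732f67_ag.V (relIdeal mem_relIdeal)

universe u v

variable {k : Type u} {L : Type v} [Field k] [Field L] [Algebra k L] {N : ℕ} {z : Fin N → L}

/-- the powers of a variable are forms -/
theorem dic_hom_pow (j : Fin N) (m : ℕ) : Hom k N m (X j ^ m : MvPolynomial (Fin N) k) := by
  classical
  intro d hd
  rw [MvPolynomial.X_pow_eq_monomial] at hd
  have h1 := MvPolynomial.support_monomial_subset hd
  rw [Finset.mem_singleton] at h1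
  subst h1
  rw [Finset.sum_eq_single j]
  · rw [Finsupp.single_eq_same]
  · intro i _ hi
    rw [Finsupp.single_eq_of_ne hi]
    rfl
  · intro h
    exact absurd (Finset.mem_univ j) h

/-- a form of negative degree is zero -/
theorem dic_hom_neg {n : ℤ} (hn : n < 0) {f : MvPolynomial (Fin N) k} (hf : Hom k N n f) :
    f = 0 := by
  rw [← MvPolynomial.support_eq_empty, Finset.eq_empty_iff_forall_notMem]
  intro d hd
  have h1 := hf d hd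
  have h2 : (0 : ℤ) ≤ ∑ i, (d i : ℤ) := Finset.sum_nonneg fun i _ => Int.natCast_nonneg _
  omega

/-- homogeneous ideals can be compared on forms -/
theorem dic_le_of_forms {Q Q' : Ideal (MvPolynomial (Fin N) k)}
    (hQ : (polyGr k (fun _ : Fin N => (1 : ℤ))).Sub Q)
    (h : ∀ (n : ℕ) (f : MvPolynomial (Fin N) k), Hom k N n f → f ∈ Q → f ∈ Q') : Q ≤ Q' := by
  intro f hf
  rw [← (polyGr k (fun _ : Fin N => (1 : ℤ))).sum f]
  refine finsum_induction (fun y => y ∈ Q') (Submodule.zero_mem _)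
    (fun x y hx hy => Submodule.add_mem _ hx hy) (fun n => ?_)
  have h1 : Hom k N n ((polyGr k (fun _ : Fin N => (1 : ℤ))).pr n f) :=
    Pool.Agent.Lib.MP_0b721b_ag.St.hom_iff.2 (Gr.hom_pr _ n f)
  rcases lt_or_ge n 0 with hn | hn
  · rw [dic_hom_neg hn h1]
    exact Submodule.zero_mem _
  · obtain ⟨m, rfl⟩ := Int.eq_ofNat_of_zero_le hn
    exact h m _ h1 (hQ _ _ hf)

theorem dic_pow_notMem {Q : Ideal (MvPolynomial (Fin N) k)} (hQ : HP z Q) {j : Fin N}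
    (hj : (X j : MvPolynomial (Fin N) k) ∉ Q) (m : ℕ) :
    (X j ^ m : MvPolynomial (Fin N) k) ∉ Q := fun h => hj (hQ.prime.mem_of_pow_mem m h)

/-- PROOF. `←`: `g ∉ Q'` implies `g ∉ Q`. `→`: let `f ∈ Q` be a form of degree `n`, `X j ∉ Q'`; if
`f ∉ Q'`, then `X j ^ n / f ∈ ptQ Q' ≤ ptQ Q`; but `X j ∉ Q` (as `cht V (z j) ≤ ptQ Q' ≤ ptQ Q`), so
`f / X j ^ n` would be a unit of `ptQ Q`. -/
theorem ptQ_le (hz : ∀ j, z j ≠ 0) {Q Q' : Ideal (MvPolynomial (Fin N) k)} (hQ : HP z Q)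
    (hQ' : HP z Q') : ptQ z Q' hQ' ≤ ptQ z Q hQ ↔ Q ≤ Q' := by
  constructor
  · intro hle
    obtain ⟨j, hj'⟩ := hQ'.ne
    have hj : (X j : MvPolynomial (Fin N) k) ∉ Q :=
      (cht_le_ptQ hz hQ).1 (((cht_le_ptQ hz hQ').2 hj').trans hle)
    refine dic_le_of_forms hQ.sub fun n f hf hfQ => ?_
    by_contra hfQ'
    have h1 := (un_ptQ (hQ := hQ') hf (dic_hom_pow j n) (dic_pow_notMem hQ' hj' n)).2 hfQ'
    have h2 : Un (ptQ z Q hQ) (aeval z f / aeval z (X j ^ n : MvPolynomial (Fin N) k)) :=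
      ⟨h1.1, hle h1.2.1, hle h1.2.2⟩
    exact (un_ptQ (hQ := hQ) hf (dic_hom_pow j n) (dic_pow_notMem hQ hj n)).1 h2 hfQ
  · rintro hle x ⟨n, f, g, hf, hg, hgQ, rfl⟩
    exact ⟨n, f, g, hf, hg, fun h => hgQ (hle h), rfl⟩

theorem ptQ_lt (hz : ∀ j, z j ≠ 0) {Q Q' : Ideal (MvPolynomial (Fin N) k)} (hQ : HP z Q)
    (hQ' : HP z Q') : ptQ z Q' hQ' < ptQ z Q hQ ↔ Q < Q' := by
  rw [lt_iff_le_not_ge, lt_iff_le_not_ge, ptQ_le hz hQ hQ', ptQ_le hz hQ' hQ]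

/-- curves -/
theorem isCrv_ptQ (hz : ∀ j, z j ≠ 0) {Q : Ideal (MvPolynomial (Fin N) k)} (hQ : HP z Q) :
    IsCrv (Pts (lsys k z)) (ptQ z Q hQ) ↔
      Pool.Agent.Lib.MP_0b721b_ag.IsCurve (fun _ : Fin N => (1 : ℤ)) Q := by
  have hup : ∀ Q' : Ideal (MvPolynomial (Fin N) k), RelPrime (fun _ : Fin N => (1 : ℤ)) Q' →
      Q < Q' → HP z Q' := fun Q' h h' => ⟨h.1, h.2.1, hQ.rel.trans h'.le, h.2.2⟩
  have hrp : ∀ Q' : Ideal (MvPolynomial (Fin N) k), HP z Q' →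
      RelPrime (fun _ : Fin N => (1 : ℤ)) Q' := fun Q' h => ⟨h.sub, h.prime, h.ne⟩
  constructor
  · rintro ⟨-, ⟨O', hO', hlt⟩, hno⟩
    refine ⟨hrp Q hQ, ?_, ?_⟩
    · obtain ⟨Q', hQ', rfl⟩ := exists_ptQ hz hO'
      exact ⟨Q', hrp Q' hQ', (ptQ_lt hz hQ hQ').1 hlt⟩
    · rintro ⟨Q', Q'', h', h'', hlt', hlt''⟩
      have e' := hup Q' h' hlt'
      have e'' := hup Q'' h'' (hlt'.trans hlt'')
      exact hno ⟨ptQ z Q' e', ptQ_mem hz e', ptQ z Q'' e'', ptQ_mem hz e'',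
        (ptQ_lt hz e' e'').2 hlt'', (ptQ_lt hz hQ e').2 hlt'⟩
  · rintro ⟨-, ⟨Q', h', hlt⟩, hno⟩
    refine ⟨ptQ_mem hz hQ, ?_, ?_⟩
    · have e' := hup Q' h' hlt
      exact ⟨ptQ z Q' e', ptQ_mem hz e', (ptQ_lt hz hQ e').2 hlt⟩
    · rintro ⟨O', hO', O'', hO'', hlt', hlt''⟩
      obtain ⟨Q', hQ', rfl⟩ := exists_ptQ hz hO'
      obtain ⟨Q'', hQ'', rfl⟩ := exists_ptQ hz hO''
      exact hno ⟨Q', Q'', hrp Q' hQ', hrp Q'' hQ'', (ptQ_lt hz hQ hQ').1 hlt'',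
        (ptQ_lt hz hQ' hQ'').1 hlt'⟩

end Pool.Agent.KM
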