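import Pool.Agent.Lib.MP_732f67_ag.NE.Conv
import Pool.Agent.Lib.MP_732f67_ag.S.A

/-!
The final statement: nef decompositions of `- K_X`, both directions of the equality case, reduced to
the statement about semiample divisors and the base point free theorem.
-/

namespace Pool.Agent.KM

/-- the final statement: on a klt Fano variety of dimension `n` over `ℂ` every nef decomposition of
`- K_X` has total weight `≤ 2 n`, and the value `2 n` is attained if and only if `X` is `(ℙ^1)^n` -/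
def MainI : Prop :=
  ∀ (L : Type) [Field L] [Algebra ℂ L] (n : ℕ) (X : Set (Subalgebra ℂ L))
    (D : Fin n → Derivation ℂ L L) (m : ℕ) (κ : Subalgebra ℂ L → Lˣ), KltFano X D m κ →
    ∀ A : Subalgebra ℂ L → Lˣ, IsCar X A → Ample X A →
    (∀ (r : ℕ) (a : Fin r → ℝ) (M : Fin r → Subalgebra ℂ L → Lˣ), NDec X A m κ a M →
      ∑ i, a i ≤ 2 * n) ∧
    ((∃ (r : ℕ) (a : Fin r → ℝ) (M : Fin r → Subalgebra ℂ L → Lˣ), NDec X A m κ a M ∧
      ∑ i, a i = 2 * n) ↔ IsP1n X n)

theorem mainI_of (hS : MainS) (hB : BpfN) : MainI := by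
  intro L _ _ n X D m κ hX A hAc hA
  have hbpf : ∀ E, IsCar X E → NefD X A E → Semi X E := fun E hE hN =>
    hB L n X D m κ hX E hE fun b => NefD.ample_pow hX.proj hX.can.1.inv hX.fano hE
      (hN.change hX.proj hAc hA hX.can.1.inv hX.fano hE) b
  have hdec : ∀ (r : ℕ) (a : Fin r → ℝ) (M : Fin r → Subalgebra ℂ L → Lˣ),
      NDec X A m κ a M → Dec X m κ a M := fun r a M hM =>
    hM.dec hX.proj hAc hA hX.can.1 hbpf
  refine ⟨fun r a M hM => (hS L n X D m κ hX r a M (hdec r a M hM)).1, ?_, fun h => ?_⟩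
  · rintro ⟨r, a, M, hM, h⟩
    exact (hS L n X D m κ hX r a M (hdec r a M hM)).2 h
  · obtain ⟨M, hM⟩ := exists_dec_of_P1 hX h
    refine ⟨n, fun _ => 2, M, hM.ndec hX.proj hX.normal hAc hA hX.can.1 hbpf, ?_⟩
    rw [Finset.sum_const, Finset.card_univ, Fintype.card_fin, nsmul_eq_mul, mul_comm]

end Pool.Agent.KM
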