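import Pool.Agent.Lib.MP_732f67_ag.G2.ExL
import Pool.Agent.Lib.MP_732f67_ag.G2.MainL
import Pool.Agent.Lib.MP_732f67_ag.T2.Main
import Pool.Agent.Lib.MP_732f67_ag.NE.BpfT
import Pool.Agent.Lib.MP_732f67_ag.NE.Main

/-!
# Project KM: the final theorem
-/

set_option autoImplicit false

namespace Pool.Agent.KM

theorem exL : ExL := by
  intro F _ _ n m X D κ hX r M hM hs ht q' c u hq hc hu
  obtain ⟨E, hF, hA, i, Y, S, h1, h2, h3, h4, h5, h6⟩ := exists_atL hX hM hs ht hq hc hu
  exact ⟨E, hF, hA, Y, S, i, h1, h2, h3, h4, h5, h6⟩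

theorem mainS : MainS := mainS_of Pool.Agent.Lib.MP_732f67_ag.T.tthmL exL

/-- **every nef decomposition of `- K_X` of a klt Fano variety of dimension `n` over `ℂ` has total
weight at most `2 n`, and the value `2 n` is attained if and only if `X` is `(ℙ^1)^n`** -/
theorem mainI : MainI := mainI_of mainS bpfN

end Pool.Agent.KM
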