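import Pool.Agent.Lib.MP_732f67_ag.NE.Cov

/-!
Products and powers of Cartier divisors; adapted covers with a polarisation.
-/

namespace Pool.Agent.KM

universe u v

variable {k : Type u} {L : Type v} [Field k] [Field L] [Algebra k L]

theorem IsCar.mul {X : Set (Subalgebra k L)} {D D' : Subalgebra k L → Lˣ} (h : IsCar X D)
    (h' : IsCar X D') : IsCar X (D * D') := by
  classical
  intro O hO
  obtain ⟨S, hS, hS'⟩ := h O hO
  obtain ⟨T, hT, hT'⟩ := h' O hO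
  refine ⟨S ∪ T, fun s hs => ?_, fun O' hO' hs => ?_⟩
  · rcases Finset.mem_union.1 hs with hs | hs
    · exact hS s hs
    · exact hT s hs
  · have e : (D * D') O / (D * D') O' = (D O / D O') * (D' O / D' O') := by
      rw [Pi.mul_apply, Pi.mul_apply, mul_div_mul_comm]
    rw [e, Units.val_mul]
    exact (hS' O' hO' fun s hs' => hs s (Finset.mem_union_left _ hs')).mul
      (hT' O' hO' fun s hs' => hs s (Finset.mem_union_right _ hs'))

theorem IsCar.inv {X : Set (Subalgebra k L)} {D : Subalgebra k L → Lˣ} (h : IsCar X D) :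
    IsCar X D⁻¹ := by
  intro O hO
  obtain ⟨S, hS, hS'⟩ := h O hO
  refine ⟨S, hS, fun O' hO' hs => ?_⟩
  have e : (D⁻¹) O / (D⁻¹) O' = (D O / D O')⁻¹ := by
    rw [Pi.inv_apply, Pi.inv_apply, inv_div_inv, inv_div]
  rw [e, Units.val_inv_eq_inv_val]
  exact (hS' O' hO' hs).inv

theorem IsCar.pow {X : Set (Subalgebra k L)} {D : Subalgebra k L → Lˣ} (h : IsCar X D) (n : ℕ) :
    IsCar X (D ^ n) := by
  intro O hO
  obtain ⟨S, hS, hS'⟩ := h O hO
  refine ⟨S, hS, fun O' hO' hs => ?_⟩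
  have e : (D ^ n) O / (D ^ n) O' = (D O / D O') ^ n := by
    rw [Pi.pow_apply, Pi.pow_apply, div_pow]
  rw [e, Units.val_pow_eq_pow_val]
  exact (hS' O' hO' hs).pow n

theorem IsCar.zpow {X : Set (Subalgebra k L)} {D : Subalgebra k L → Lˣ} (h : IsCar X D) (n : ℤ) :
    IsCar X (D ^ n) := by
  intro O hO
  obtain ⟨S, hS, hS'⟩ := h O hO
  refine ⟨S, hS, fun O' hO' hs => ?_⟩
  have e : (D ^ n) O / (D ^ n) O' = (D O / D O') ^ n := by
    rw [Pi.pow_apply, Pi.pow_apply, div_zpow]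
  rw [e, Units.val_zpow_eq_zpow_val]
  exact (hS' O' hO' hs).zpow n

/-- a projective variety has a point -/
theorem IsProj.exists_mem {X : Set (Subalgebra k L)} (hX : IsProj X) : ∃ O, O ∈ X := by
  obtain ⟨V, _, h0, _, rfl⟩ := hX
  obtain ⟨v, hv, hv0⟩ := (Submodule.ne_bot_iff _).1 h0
  haveI : (⊥ : Ideal (cht V v)).IsPrime := Ideal.isPrime_bot
  exact ⟨_, v, hv, hv0, locAt_ordLoc (cht V v) ⊥⟩

/-- An adapted cover with a polarisation: `H = A ^ m` is generated by the `z j`.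

PROOF. `A ^ m'` is very ample for some `m' ≥ 1`: `exists_va` gives `V` with `VA X (A ^ m') V`; `exists_cvr` for
`V`; `BF.pow` and `lsys k z = V ^ d`; `m = m' * d`. -/
theorem exists_polC {ι : Type*} [Finite ι] {X : Set (Subalgebra k L)} (hX : IsProj X)
    {A : Subalgebra k L → Lˣ} (hAc : IsCar X A) (hA : Ample X A) {D : ι → Subalgebra k L → Lˣ}
    (hD : ∀ i, IsCar X (D i)) :
    ∃ (m N K : ℕ) (z : Fin N → L) (σ : Fin K → Fin N) (α : ι → Fin K → Lˣ), 1 ≤ m ∧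
      VA X (A ^ m) (lsys k z) ∧ Cvr k z σ ∧ ∀ i, OnC z σ (D i) (α i) := by
  obtain ⟨m', hm', hF, hP⟩ := hA
  obtain ⟨V, hV⟩ := exists_va hX (hAc.pow m') hF hP
  obtain ⟨O, hO⟩ := hX.exists_mem
  obtain ⟨f, hf, hu⟩ := hV.gen O hO
  have hV0 : V ≠ ⊥ := (Submodule.ne_bot_iff _).2 ⟨f, hf, left_ne_zero_of_mul hu.1⟩
  have hD' : ∀ i, IsCar (Pts V) (D i) := by
    rw [← hV.eq]
    exact hD
  obtain ⟨d, N, K, z, σ, α, hd, hz, hc, ho⟩ := exists_cvr hV.fin hV0 hD'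
  refine ⟨m' * d, N, K, z, σ, α, Nat.mul_pos hm' hd, ?_, hc, ho⟩
  rw [hz, pow_mul]
  exact hV.pow hX hd

end Pool.Agent.KM
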