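import Pool.Agent.Lib.MP_732f67_ag.NE.Deg
import Pool.Agent.Lib.MP_732f67_ag.NE.K1A

/-!
Adapted covers with a polarisation; Cartier divisors form a group: see `NE/K1A.lean`.
-/
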