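import Pool.Agent.Lib.MP_732f67_ag.NE.K1

/-!
Degrees of Cartier divisors on integral curves: existence, uniqueness, additivity.
-/

namespace Pool.Agent.KM

open Pool.Agent.Lib.MP_0b721b_ag

universe u v

variable {k : Type u} {L : Type v} [Field k] [Field L] [Algebra k L]

theorem OnC.pow {N K : ℕ} {z : Fin N → L} {σ : Fin K → Fin N} {D : Subalgebra k L → Lˣ}
    {β : Fin K → Lˣ} (h : OnC z σ D β) (n : ℕ) : OnC z σ (D ^ n) (β ^ n) := by
  induction n with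
  | zero =>
    rw [pow_zero, pow_zero]
    exact OnC.one
  | succ n ih =>
    rw [pow_succ, pow_succ]
    exact ih.mul h

theorem IsDeg.of_onC {N K : ℕ} {z : Fin N → L} {σ : Fin K → Fin N} (hc : Cvr k z σ)
    {A : Subalgebra k L → Lˣ} {m : ℕ} (hm : 1 ≤ m) (hH : BF (Pts (lsys k z)) (A ^ m) (lsys k z))
    {α : Fin K → Lˣ} (hA : OnC z σ A α) {O : Subalgebra k L} {δ : (Subalgebra k L → Lˣ) → ℤ}
    (hδ : ∀ D D' : Subalgebra k L → Lˣ, (∃ β, OnC z σ D β) →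
      (∃ β, OnC z σ D' β) → δ (D * D') = δ D + δ D' ∧ ∃ n₀ : ℤ, ∀ n, n₀ ≤ n → ∀ h h' : ℕ,
        IsH0 (Pts (lsys k z)) (D' * (A ^ m) ^ n) O h →
        IsH0 (Pts (lsys k z)) (D * D' * (A ^ m) ^ n) O h' → (h' : ℤ) = h + δ D)
    {D : Subalgebra k L → Lˣ} (hD : ∃ β, OnC z σ D β) :
    IsDeg (Pts (lsys k z)) A D O (δ D) := by
  choose n₀ hn₀ using fun s : ℕ => (hδ D (A ^ s) hD ⟨_, hA.pow s⟩).2
  refine ⟨m * ∑ s ∈ Finset.range m, (n₀ s).toNat, fun b hb h h' h1 h2 => ?_⟩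
  have h3 : b % m + m * (b / m) = b := Nat.mod_add_div b m
  have h4 : A ^ b = A ^ (b % m) * (A ^ m) ^ ((b / m : ℕ) : ℤ) := by
    rw [zpow_natCast, ← pow_mul, ← pow_add, h3]
  rw [h4] at h1 h2
  rw [← mul_assoc] at h2
  refine hn₀ (b % m) _ ?_ h h' h1 h2
  have h5 : (∑ s ∈ Finset.range m, (n₀ s).toNat) ≤ b / m :=
    (Nat.le_div_iff_mul_le hm).2 (by rwa [mul_comm])
  have h6 : (n₀ (b % m)).toNat ≤ ∑ s ∈ Finset.range m, (n₀ s).toNat :=
    Finset.single_le_sum (f := fun s => (n₀ s).toNat) (fun _ _ => Nat.zero_le _)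
      (Finset.mem_range.2 (Nat.mod_lt _ hm))
  have h7 := Int.self_le_toNat (n₀ (b % m))
  omega

theorem IsDeg.uniq_of_onC {N K : ℕ} {z : Fin N → L} {σ : Fin K → Fin N} (hc : Cvr k z σ)
    {A : Subalgebra k L → Lˣ} {m : ℕ} (hH : BF (Pts (lsys k z)) (A ^ m) (lsys k z))
    {α : Fin K → Lˣ} (hA : OnC z σ A α) {O : Subalgebra k L} (hO : O ∈ Pts (lsys k z))
    {D : Subalgebra k L → Lˣ} {β : Fin K → Lˣ} (hD : OnC z σ D β) {d d' : ℤ}
    (h1 : IsDeg (Pts (lsys k z)) A D O d) (h2 : IsDeg (Pts (lsys k z)) A D O d') : d = d' := by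
  obtain ⟨b₁, hb₁⟩ := h1
  obtain ⟨b₂, hb₂⟩ := h2
  obtain ⟨h, hh⟩ := exists_isH0 hc (hA.pow (max b₁ b₂)) hH 0 hO
  obtain ⟨h', hh'⟩ := exists_isH0 hc (hD.mul (hA.pow (max b₁ b₂))) hH 0 hO
  rw [zpow_zero, mul_one] at hh hh'
  have h3 := hb₁ _ (le_max_left _ _) h h' hh hh'
  have h4 := hb₂ _ (le_max_right _ _) h h' hh hh'
  omega

/-- **Degrees.** On a curve all Cartier divisors have a degree, the degree is additive, and it is the
only number `d` with `IsDeg`. -/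
theorem exists_isDeg {X : Set (Subalgebra k L)} (hX : IsProj X) {A : Subalgebra k L → Lˣ}
    (hAc : IsCar X A) (hA : Ample X A) {O : Subalgebra k L} (hO : IsCrv X O) :
    ∃ δ : (Subalgebra k L → Lˣ) → ℤ, (∀ D, IsCar X D → ∀ d, IsDeg X A D O d ↔ d = δ D) ∧
      ∀ D D', IsCar X D → IsCar X D' → δ (D * D') = δ D + δ D' := by
  classical
  -- local existence
  have key : ∀ D D' : Subalgebra k L → Lˣ, IsCar X D → IsCar X D' →
      ∃ d d' : ℤ, (∀ e, IsDeg X A D O e ↔ e = d) ∧ (∀ e, IsDeg X A D' O e ↔ e = d') ∧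
        ∀ e, IsDeg X A (D * D') O e ↔ e = d + d' := by
    intro D D' hD hD'
    obtain ⟨m, N, K, z, σ, α, hm, hV, hc, hα⟩ := exists_polC hX hAc hA
      (D := ![A, D, D']) (fun i => by
        fin_cases i
        · exact hAc
        · exact hD
        · exact hD')
    obtain rfl := hV.eq
    have h0 : OnC z σ A (α 0) := hα 0
    have h1 : OnC z σ D (α 1) := hα 1
    have h2 : OnC z σ D' (α 2) := hα 2
    obtain ⟨δ, hδ⟩ := exists_deg hc hV.toBF hO
    have h3 : ∀ {E : Subalgebra k L → Lˣ} {β : Fin K → Lˣ}, OnC z σ E β → ∀ e,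
        IsDeg (Pts (lsys k z)) A E O e ↔ e = δ E := by
      intro E β hE e
      have h4 := IsDeg.of_onC hc hm hV.toBF h0 hδ ⟨β, hE⟩
      exact ⟨fun h5 => IsDeg.uniq_of_onC hc hV.toBF h0 hO.1 hE h5 h4, fun h5 => h5 ▸ h4⟩
    refine ⟨δ D, δ D', h3 h1, h3 h2, fun e => ?_⟩
    rw [h3 (h1.mul h2), (hδ D D' ⟨_, h1⟩ ⟨_, h2⟩).1]
  have hex : ∀ D : Subalgebra k L → Lˣ, ∃ d : ℤ, IsCar X D → ∀ e, IsDeg X A D O e ↔ e = d := by
    intro D
    by_cases h : IsCar X D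
    · obtain ⟨d, -, h1, -⟩ := key D D h h
      exact ⟨d, fun _ => h1⟩
    · exact ⟨0, fun h' => absurd h' h⟩
  choose δ hδ using hex
  refine ⟨δ, fun D hD d => hδ D hD d, fun D D' hD hD' => ?_⟩
  obtain ⟨d, d', h1, h2, h3⟩ := key D D' hD hD'
  have e1 : δ D = d := (h1 _).1 ((hδ D hD _).2 rfl)
  have e2 : δ D' = d' := (h2 _).1 ((hδ D' hD' _).2 rfl)
  have e3 : δ (D * D') = d + d' := (h3 _).1 ((hδ _ (hD.mul hD') _).2 rfl)
  rw [e1, e2, e3]

theorem IsCar.one (X : Set (Subalgebra k L)) : IsCar X (1 : Subalgebra k L → Lˣ) := by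
  intro O _
  refine ⟨∅, fun s hs => absurd hs (Finset.notMem_empty s), fun O' _ _ => ?_⟩
  have : ((1 : Subalgebra k L → Lˣ) O / (1 : Subalgebra k L → Lˣ) O' : Lˣ) = 1 := by simp
  rw [this]
  exact ⟨one_ne_zero, O'.one_mem, by
    rw [Units.val_one, inv_one]
    exact O'.one_mem⟩

/-- products of powers -/
theorem exists_isDeg_prod {X : Set (Subalgebra k L)} (hX : IsProj X) {A : Subalgebra k L → Lˣ}
    (hAc : IsCar X A) (hA : Ample X A) {O : Subalgebra k L} (hO : IsCrv X O) :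
    ∃ δ : (Subalgebra k L → Lˣ) → ℤ, (∀ D, IsCar X D → ∀ d, IsDeg X A D O d ↔ d = δ D) ∧
      (∀ D, IsCar X D → δ D⁻¹ = - δ D) ∧ (∀ D D', IsCar X D → IsCar X D' →
        δ (D * D') = δ D + δ D') ∧ (∀ D, IsCar X D → ∀ n : ℤ, δ (D ^ n) = n * δ D) ∧
      ∀ {s : ℕ} (x : Fin s → ℤ) (D : Fin s → Subalgebra k L → Lˣ),
        (∀ i, IsCar X (D i)) → δ (∏ i, D i ^ x i) = ∑ i, x i * δ (D i) := by
  obtain ⟨δ, h1, h2⟩ := exists_isDeg hX hAc hA hO
  have h0 : δ 1 = 0 := by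
    have := h2 1 1 (IsCar.one X) (IsCar.one X)
    rw [mul_one] at this
    omega
  have hinv : ∀ D, IsCar X D → δ D⁻¹ = - δ D := by
    intro D hD
    have := h2 D D⁻¹ hD hD.inv
    rw [mul_inv_cancel, h0] at this
    omega
  have hpow : ∀ D, IsCar X D → ∀ n : ℕ, δ (D ^ n) = n * δ D := by
    intro D hD n
    induction n with
    | zero => rw [pow_zero, h0, Nat.cast_zero, zero_mul]
    | succ n ih =>
      rw [pow_succ, h2 _ _ (hD.pow n) hD, ih]
      push_cast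
      ring
  have hz : ∀ D, IsCar X D → ∀ n : ℤ, δ (D ^ n) = n * δ D := by
    intro D hD n
    obtain ⟨n, rfl | rfl⟩ := n.eq_nat_or_neg
    · rw [zpow_natCast, hpow D hD]
    · rw [zpow_neg, zpow_natCast, hinv _ (hD.pow n), hpow D hD, neg_mul]
  refine ⟨δ, h1, hinv, h2, hz, fun {s} x D hD => ?_⟩
  have : ∀ t : Finset (Fin s), IsCar X (∏ i ∈ t, D i ^ x i) ∧
      δ (∏ i ∈ t, D i ^ x i) = ∑ i ∈ t, x i * δ (D i) := by
    intro t
    induction t using Finset.induction_on with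
    | empty =>
      rw [Finset.prod_empty, Finset.sum_empty]
      exact ⟨IsCar.one X, h0⟩
    | insert i t hi ih =>
      rw [Finset.prod_insert hi, Finset.sum_insert hi]
      exact ⟨((hD i).zpow _).mul ih.1, by rw [h2 _ _ ((hD i).zpow _) ih.1, hz _ (hD i), ih.2]⟩
  exact (this Finset.univ).2

theorem IsCar.prod {X : Set (Subalgebra k L)} {s : ℕ} (x : Fin s → ℤ)
    (D : Fin s → Subalgebra k L → Lˣ) (hD : ∀ i, IsCar X (D i)) : IsCar X (∏ i, D i ^ x i) := by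
  have : ∀ t : Finset (Fin s), IsCar X (∏ i ∈ t, D i ^ x i) := by
    intro t
    induction t using Finset.induction_on with
    | empty =>
      rw [Finset.prod_empty]
      exact IsCar.one X
    | insert i t hi ih =>
      rw [Finset.prod_insert hi]
      exact ((hD i).zpow _).mul ih
  exact this Finset.univ

/-- a principal divisor does not change sections -/
theorem HasSecC.of_principal {X : Set (Subalgebra k L)} {F E : Subalgebra k L → Lˣ} {u : Lˣ}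
    (hF : ∀ O ∈ X, Un O (u * F O : Lˣ)) {O : Subalgebra k L} (hO : O ∈ X) {r : ℕ}
    (h : HasSecC X (F * E) O r) : HasSecC X E O r := by
  obtain ⟨f, hf, hc⟩ := h
  set ε : L := ((u * F O : Lˣ) : L) with hε
  have hu := hF O hO
  have hε0 : ε ≠ 0 := Units.ne_zero _
  have hmx : ∀ {x y : L}, Mx O x → Un O y → Mx O (y * x) := by
    intro x y hx hy
    refine ⟨O.mul_mem hy.2.1 hx.1, fun h => hx.2 ?_⟩
    refine ⟨fun h0 => h.1 (by rw [h0, mul_zero]), hx.1, ?_⟩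
    have := O.mul_mem h.2.2 hy.2.1
    rwa [mul_inv, mul_comm y⁻¹, mul_assoc, inv_mul_cancel₀ hy.1, mul_one] at this
  refine ⟨fun i => ε⁻¹ * f i, fun i => ⟨O.mul_mem hu.2.2 (hf i).1, fun O' hO' hle => ?_⟩,
    fun c h1 => hc c ?_⟩
  · obtain ⟨g, hg, h2⟩ := (hf i).2 O' hO' hle
    have hu' := hF O' hO'
    set ε' : L := ((u * F O' : Lˣ) : L) with hε'
    have hε'0 : ε' ≠ 0 := Units.ne_zero _
    refine ⟨ε'⁻¹ * g, O'.mul_mem hu'.2.2 hg, ?_⟩
    have h3 : Un O ε'⁻¹ := ⟨inv_ne_zero hε'0, hle hu'.2.2, by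
      rw [inv_inv]
      exact hle hu'.2.1⟩
    have h4 := hmx h2 h3
    have h5 : ε'⁻¹ * (f i * ((F * E) O' / (F * E) O : Lˣ) - g) =
        ε⁻¹ * f i * (E O' / E O : Lˣ) - ε'⁻¹ * g := by
      rw [mul_sub]
      congr 1
      simp only [hε, hε', Pi.mul_apply, Units.val_div_eq_div_val, Units.val_mul]
      have h6 : (u : L) ≠ 0 := u.ne_zero
      have h7 : (F O : L) ≠ 0 := (F O).ne_zero
      have h8 : (F O' : L) ≠ 0 := (F O').ne_zero
      have h9 : (E O : L) ≠ 0 := (E O).ne_zero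
      field_simp
    rw [← h5]
    exact h4
  · have h2 := hmx h1 hu
    have h3 : ε * ∑ i, c i • (ε⁻¹ * f i) = ∑ i, c i • f i := by
      rw [Finset.mul_sum]
      refine Finset.sum_congr rfl fun i _ => ?_
      rw [mul_smul_comm, ← mul_assoc, mul_inv_cancel₀ hε0, one_mul]
    rw [← h3]
    exact h2

/-- a torsion divisor is numerically trivial -/
theorem Triv.numTriv {X : Set (Subalgebra k L)} (hX : IsProj X) {A D : Subalgebra k L → Lˣ}
    (hAc : IsCar X A) (hA : Ample X A) (hDc : IsCar X D) (hD : Triv X D) : NumTriv X A D := by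
  obtain ⟨m, hm, u, hu⟩ := hD
  intro O hO d hd
  obtain ⟨δ, h1, -, -, h4, -⟩ := exists_isDeg_prod hX hAc hA hO
  have h5 : IsDeg X A (D ^ m) O 0 := by
    refine ⟨0, fun b _ h h' hh hh' => ?_⟩
    have e1 : ∀ r, HasSecC X (D ^ m * A ^ b) O r → HasSecC X (A ^ b) O r := fun r hr =>
      hr.of_principal (u := u) (fun O hO => hu O hO) hO.1
    have e2 : ∀ r, HasSecC X (A ^ b) O r → HasSecC X (D ^ m * A ^ b) O r := by
      intro r hr
      refine HasSecC.of_principal (F := (D ^ m)⁻¹) (u := u⁻¹) (fun O hO => ?_) hO.1 ?_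
      · have h6 := hu O hO
        have h7 : (u⁻¹ * (D ^ m)⁻¹ O : Lˣ) = (u * D O ^ m : Lˣ)⁻¹ := by
          rw [Pi.inv_apply, Pi.pow_apply, mul_inv]
        rw [h7, Units.val_inv_eq_inv_val]
        exact ⟨inv_ne_zero h6.1, h6.2.2, by
          rw [inv_inv]
          exact h6.2.1⟩
      · rwa [inv_mul_cancel_left]
    have e3 : IsH0 X (A ^ b) O h' := ⟨e1 _ hh'.1, fun h8 => hh'.2 (e2 _ h8)⟩
    rw [hh.uniq e3, add_zero]
  have h6 := (h1 _ (hDc.pow m) 0).1 h5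
  have h7 := h4 D hDc m
  rw [zpow_natCast, ← h6] at h7
  have h8 : (m : ℤ) ≠ 0 := by omega
  rw [(h1 D hDc d).1 hd]
  exact (mul_eq_zero.1 h7.symm).resolve_left h8

end Pool.Agent.KM
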