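import Pool.Agent.Lib.MP_732f67_ag.NE.K2
import Pool.Agent.Lib.MP_732f67_ag.V.Van

/-!
Kleiman's theorem: the sum of a nef and an ample divisor is ample.
-/

namespace Pool.Agent.KM

open Pool.Agent.Lib.MP_0b721b_ag
open Pool.Agent.Lib.MP_0b721b_ag.St (Hom)
open Pool.Agent.Lib.MP_732f67_ag.V (relIdeal mem_relIdeal relIdeal_sub)

universe u v

variable {k : Type u} {L : Type v} [Field k] [Field L] [Algebra k L]

/-- very ample linear systems give ample divisors -/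
theorem VA.ample {X : Set (Subalgebra k L)} (hX : IsProj X) {D : Subalgebra k L → Lˣ}
    {V : Submodule k L} {m : ℕ} (hm : 1 ≤ m) (h : VA X (D ^ m) V) : Ample X D := by
  refine ⟨m, hm, fun O hO => ?_, hX.eq_pts fun O hO => ?_⟩
  · obtain ⟨f, hf, hu⟩ := h.gen O hO
    exact ⟨f, h.sec hf, hu⟩
  · obtain ⟨f, hf, hu⟩ := h.gen O hO
    have hf0 : f ≠ 0 := by
      rintro rfl
      exact hu.1 (zero_mul _)
    have h1 : O ∈ Pts V := by
      rw [← h.eq]
      exact hO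
    have h2 : LocAt (cht V f) O := Pts.locAt h1 hf hf0 (h.cht_le hO hf hu)
    refine ⟨f, h.sec hf, hf0, h2.of_le ?_ ?_⟩
    · refine Algebra.adjoin_mono ?_
      rintro _ ⟨w, hw, rfl⟩
      exact ⟨w, h.sec hw, rfl⟩
    · refine Algebra.adjoin_le ?_
      rintro _ ⟨w, hw, rfl⟩
      have h3 : w / f = w * ((D ^ m) O : Lˣ) * (f * ((D ^ m) O : Lˣ))⁻¹ := by
        have := ((D ^ m) O).ne_zero
        field_simp
      rw [h3]
      exact O.mul_mem (hw O hO) hu.2.2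

/-- the elements of `relIdeal` vanish -/
theorem aeval_relIdeal {N : ℕ} {z : Fin N → L} {f : MvPolynomial (Fin N) k}
    (hf : f ∈ relIdeal k z) : (MvPolynomial.aeval z f : L) = 0 := by
  have h1 := mem_relIdeal.1 hf
  rw [← (polyGr k (fun _ : Fin N => (1 : ℤ))).sum f]
  refine finsum_induction (p := fun x : MvPolynomial (Fin N) k => (MvPolynomial.aeval z x : L) = 0)
    (map_zero _) (fun x y hx hy => by rw [map_add, hx, hy, add_zero]) h1

theorem hom_X_pow {N : ℕ} (j : Fin N) (n : ℕ) :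
    Hom k N n (MvPolynomial.X j ^ n : MvPolynomial (Fin N) k) := by
  have h1 : Hom k N 1 (MvPolynomial.X j : MvPolynomial (Fin N) k) :=
    St.hom_iff.2 (by
      have := polyGr_X (A := k) (fun _ : Fin N => (1 : ℤ)) j
      exact this)
  have h2 := Pool.Agent.Lib.MP_732f67_ag.V.hom_pow h1 n
  rwa [mul_one] at h2

/-- Globally generated line bundles.

PROOF. The sections `ε j` give the elements `f j = aeval z (ε j a) / z (σ a) ^ T / β a` of `L` (independent of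
`a` by the compatibility); `V' :=` their span. `f j ∈ Sec`: on the chart `a` of `O`,
`f j * β a * z (σ a) ^ (-u) = ε j a (z) / z (σ a) ^ (u + T)` (`mem_cht_iff`). Generators: the relation
`X (σ a) ^ e = ∑ c j * ε j a + (relation)` in degree `e` (homogeneous parts) shows that at a point `O` of the
chart `a` one of the `ε j a (z) / z (σ a) ^ (u + T)` is a unit of `O`. -/
theorem bf_of_gg {N K : ℕ} {z : Fin N → L} {σ : Fin K → Fin N} (hc : Cvr k z σ)
    {D H : Subalgebra k L → Lˣ} {β : Fin K → Lˣ} (h : OnC z σ D β)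
    {B : Twt (MvPolynomial (Fin N) k) (Fin K)} (hB : Rep z σ β B)
    (hH : BF (Pts (lsys k z)) H (lsys k z)) {u : ℤ}
    (hg : (DT (fun a => (MvPolynomial.X (σ a) : MvPolynomial (Fin N) k)) (fun _ => 1) B).GG (fun _ => 1)
      (relIdeal k z) u) : ∃ V : Submodule k L, BF (Pts (lsys k z)) (D * H ^ u) V := by
  obtain ⟨T, r, ε, hε, hcomp, hgen⟩ := hg
  rcases Nat.eq_zero_or_pos K with hK | hK
  · subst hK
    refine ⟨⊥, inferInstance, bot_le, fun O hO => ?_⟩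
    obtain ⟨a, -⟩ := hc.exists_le hO
    exact a.elim0
  let a₀ : Fin K := ⟨0, hK⟩
  let F : Fin r → L := fun j => MvPolynomial.aeval z (ε j a₀) / z (σ a₀) ^ T / β a₀
  have hF : ∀ j a, F j = MvPolynomial.aeval z (ε j a) / z (σ a) ^ T / β a := by
    intro j a
    obtain ⟨e, he⟩ := hcomp j a₀ a
    have h1 := aeval_relIdeal he
    change (MvPolynomial.aeval z ((MvPolynomial.X (σ a₀) * MvPolynomial.X (σ a)) ^ e *
      (ε j a₀ * MvPolynomial.X (σ a) ^ T * (MvPolynomial.X (σ a₀) * MvPolynomial.X (σ a)) ^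
        (Multiplicative.toAdd B.1) - B.2 a₀ a * ε j a * MvPolynomial.X (σ a₀) ^ T)) : L) = 0 at h1
    simp only [map_mul, map_pow, _root_.map_sub, MvPolynomial.aeval_X, (hB a₀ a).2] at h1
    have hz0 := hc.ne (σ a₀)
    have hz := hc.ne (σ a)
    have hb0 : (β a₀ : L) ≠ 0 := (β a₀).ne_zero
    have hb : (β a : L) ≠ 0 := (β a).ne_zero
    have h2 := (mul_eq_zero.1 h1).resolve_left (pow_ne_zero _ (mul_ne_zero hz0 hz))
    rw [Units.val_div_eq_div_val] at h2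
    change MvPolynomial.aeval z (ε j a₀) / z (σ a₀) ^ T / β a₀ = _
    have h3 : (z (σ a₀) * z (σ a)) ^ (Multiplicative.toAdd B.1) ≠ 0 :=
      pow_ne_zero _ (mul_ne_zero hz0 hz)
    have h4 : (z (σ a₀) * z (σ a)) ^ (Multiplicative.toAdd B.1) *
        (MvPolynomial.aeval z (ε j a₀) * z (σ a) ^ T -
          (β a₀ / β a) * MvPolynomial.aeval z (ε j a) * z (σ a₀) ^ T) = 0 := by
      rw [← h2]
      ring
    have h5 := sub_eq_zero.1 ((mul_eq_zero.1 h4).resolve_left h3)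
    rw [div_div, div_div, div_eq_div_iff (mul_ne_zero (pow_ne_zero _ hz0) hb0)
      (mul_ne_zero (pow_ne_zero _ hz) hb)]
    have h6 : MvPolynomial.aeval z (ε j a₀) * (z (σ a) ^ T * (β a : L)) =
        (MvPolynomial.aeval z (ε j a₀) * z (σ a) ^ T) * β a := by ring
    rw [h6, h5]
    field_simp
  -- the value at a point
  have hval : ∀ (Q : Ideal (MvPolynomial (Fin N) k)) (hQ : HP z Q) (a : Fin K)
      (ha : (MvPolynomial.X (σ a) : MvPolynomial (Fin N) k) ∉ Q), ∃ ε₁ : L,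
      Un (ptQ z Q hQ) ε₁ ∧ ∀ j, F j * ((D * H ^ u) (ptQ z Q hQ) : Lˣ) =
        ε₁ * (MvPolynomial.aeval z (ε j a) / z (σ a) ^ ((T : ℤ) + u)) := by
    intro Q hQ a ha
    have h1 := h a _ (ptQ_mem hc.ne hQ) ((cht_le_ptQ hc.ne hQ).2 ha)
    have h2 := hH.un_of_cht_le (ptQ_mem hc.ne hQ) (Submodule.subset_span ⟨σ a, rfl⟩) (hc.ne _)
      ((cht_le_ptQ hc.ne hQ).2 ha)
    refine ⟨_, h1.mul (h2.zpow u), fun j => ?_⟩
    rw [hF j a]
    have hz := hc.ne (σ a)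
    have hb : (β a : L) ≠ 0 := (β a).ne_zero
    simp only [Pi.mul_apply, Pi.pow_apply, Units.val_mul, Units.val_div_eq_div_val,
      Units.val_zpow_eq_zpow_val]
    rw [zpow_add₀ hz, zpow_natCast, mul_zpow]
    have h3 : z (σ a) ^ u ≠ 0 := zpow_ne_zero _ hz
    field_simp
  have hmem : ∀ (Q : Ideal (MvPolynomial (Fin N) k)) (hQ : HP z Q) (a : Fin K)
      (ha : (MvPolynomial.X (σ a) : MvPolynomial (Fin N) k) ∉ Q) (j : Fin r),
      (MvPolynomial.aeval z (ε j a) / z (σ a) ^ ((T : ℤ) + u)) ∈ ptQ z Q hQ ∧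
      (ε j a ∉ Q → Un (ptQ z Q hQ) (MvPolynomial.aeval z (ε j a) / z (σ a) ^ ((T : ℤ) + u))) := by
    intro Q hQ a ha j
    have h1 : Hom k N (T + u) (ε j a) := by
      have := St.hom_iff.2 (hε j a)
      change Hom k N (T * 1 + u) (ε j a) at this
      rwa [mul_one] at this
    rcases lt_or_ge ((T : ℤ) + u) 0 with hneg | hpos
    · have h2 : ε j a = 0 := by
        rw [← MvPolynomial.support_eq_empty, Finset.eq_empty_iff_forall_notMem]
        intro d hd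
        have h3 := h1 d hd
        have h4 : (0 : ℤ) ≤ ∑ i, (d i : ℤ) := Finset.sum_nonneg fun i _ => Int.natCast_nonneg _
        omega
      rw [h2, map_zero, zero_div]
      exact ⟨(ptQ z Q hQ).zero_mem, fun h3 => absurd Q.zero_mem h3⟩
    · obtain ⟨n, hn⟩ := Int.eq_ofNat_of_zero_le hpos
      have h2 : Hom k N (T + u) (MvPolynomial.X (σ a) ^ n : MvPolynomial (Fin N) k) := by
        rw [hn]
        exact hom_X_pow (σ a) n
      have h3 : (MvPolynomial.X (σ a) ^ n : MvPolynomial (Fin N) k) ∉ Q := fun h4 =>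
        ha (hQ.prime.mem_of_pow_mem n h4)
      have h4 : z (σ a) ^ ((T : ℤ) + u) =
          MvPolynomial.aeval z (MvPolynomial.X (σ a) ^ n : MvPolynomial (Fin N) k) := by
        rw [hn, map_pow, MvPolynomial.aeval_X]
        exact zpow_natCast _ _
      rw [h4]
      exact ⟨mem_ptQ.2 ⟨_, _, _, h1, h2, h3, rfl⟩, fun h5 => (un_ptQ h1 h2 h3).2 h5⟩
  refine ⟨Submodule.span k (Set.range F), ?_, ?_, fun O hO => ?_⟩
  · exact Module.Finite.span_of_finite k (Set.finite_range F)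
  · refine Submodule.span_le.2 ?_
    rintro _ ⟨j, rfl⟩ O hO
    obtain ⟨Q, hQ, rfl⟩ := exists_ptQ hc.ne hO
    obtain ⟨a, ha⟩ := hc.exists_le hO
    have ha' := (cht_le_ptQ hc.ne hQ).1 ha
    obtain ⟨ε₁, h1, h2⟩ := hval Q hQ a ha'
    rw [h2 j]
    exact (ptQ z Q hQ).mul_mem h1.2.1 (hmem Q hQ a ha' j).1
  · obtain ⟨Q, hQ, rfl⟩ := exists_ptQ hc.ne hO
    obtain ⟨a, ha⟩ := hc.exists_le hO
    have ha' := (cht_le_ptQ hc.ne hQ).1 ha
    obtain ⟨ε₁, h1, h2⟩ := hval Q hQ a ha'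
    obtain ⟨j, hj⟩ : ∃ j, ε j a ∉ Q := by
      by_contra hcon
      push Not at hcon
      obtain ⟨e, he⟩ := hgen a
      refine ha' (hQ.prime.mem_of_pow_mem e ?_)
      refine (sup_le (Ideal.span_le.2 ?_) hQ.rel : _ ≤ Q) he
      rintro _ ⟨j, rfl⟩
      exact hcon j
    refine ⟨F j, Submodule.subset_span ⟨j, rfl⟩, ?_⟩
    rw [h2 j]
    exact h1.mul ((hmem Q hQ a ha' j).2 hj)

theorem isH0_h0 {N K : ℕ} {z : Fin N → L} {σ : Fin K → Fin N} (hc : Cvr k z σ)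
    {D H : Subalgebra k L → Lˣ} {β : Fin K → Lˣ} (h : OnC z σ D β)
    {B : Twt (MvPolynomial (Fin N) k) (Fin K)} (hB : Rep z σ β B)
    (hH : BF (Pts (lsys k z)) H (lsys k z)) (n : ℤ)
    {Q : Ideal (MvPolynomial (Fin N) k)} (hQ : HP z Q) :
    IsH0 (Pts (lsys k z)) (D * H ^ n) (ptQ z Q hQ)
      (h0 (DT (fun a => (MvPolynomial.X (σ a) : MvPolynomial (Fin N) k)) (fun _ => 1) B)
        (fun _ => 1) Q hQ.sub n) :=
  ⟨(hasSecC_iff hc h hB hH n hQ _).2 le_rfl,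
    fun h1 => Nat.not_succ_le_self _ ((hasSecC_iff hc h hB hH n hQ _).1 h1)⟩

/-- nef divisors in the sense of the two libraries.

PROOF. `exists_ptQ`, `isCrv_ptQ`, `hasSecC_iff` for `D` and for `1`; `exists_isDeg` gives the degree `d ≥ 0`. With
`H = A ^ m` take `b = m * n` in `IsDeg`. -/
theorem NefD.nef {X : Set (Subalgebra k L)} (hX : IsProj X) {A D : Subalgebra k L → Lˣ}
    (hAc : IsCar X A) (hA : Ample X A) (hDc : IsCar X D) (hD : NefD X A D) {m N K : ℕ}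
    {z : Fin N → L} {σ : Fin K → Fin N} (hm : 1 ≤ m) (hV : VA X (A ^ m) (lsys k z))
    (hc : Cvr k z σ) {β : Fin K → Lˣ} (h : OnC z σ D β)
    {B : Twt (MvPolynomial (Fin N) k) (Fin K)} (hB : Rep z σ β B) :
    Nef (DT (fun a => (MvPolynomial.X (σ a) : MvPolynomial (Fin N) k)) (fun _ => 1) B) (fun _ => 1)
      (relIdeal k z) := by
  obtain rfl := hV.eq
  intro Q hQc hIQ
  have hQ : HP z Q := ⟨hQc.1.1, hQc.1.2.1, hIQ, hQc.1.2.2⟩
  have hO : IsCrv (Pts (lsys k z)) (ptQ z Q hQ) := (isCrv_ptQ hc.ne hQ).2 hQc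
  obtain ⟨δ, hδ, -⟩ := exists_isDeg hX hAc hA hO
  have hdeg := (hδ D hDc _).2 rfl
  have hd := hD _ hO _ hdeg
  obtain ⟨b₁, hb⟩ := hdeg
  refine ⟨(b₁ : ℤ), fun n hn => ?_⟩
  obtain ⟨n, rfl⟩ := Int.eq_ofNat_of_zero_le ((Int.natCast_nonneg b₁).trans hn)
  have hn' : b₁ ≤ m * n := by
    have h1 : b₁ ≤ n := by exact_mod_cast hn
    exact h1.trans (Nat.le_mul_of_pos_left _ hm)
  have h1 := isH0_h0 hc OnC.one Rep.one hV.toBF (n : ℤ) hQ
  have h2 := isH0_h0 hc h hB hV.toBF (n : ℤ) hQ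
  have h3 : (1 : Subalgebra k L → Lˣ) * (A ^ m) ^ (n : ℤ) = A ^ (m * n) := by
    rw [one_mul, zpow_natCast, pow_mul]
  have h4 : D * (A ^ m) ^ (n : ℤ) = D * A ^ (m * n) := by
    rw [zpow_natCast, pow_mul]
  rw [h3] at h1
  rw [h4] at h2
  have h5 := hb _ hn' _ _ h1 h2
  have h6 : (DT (fun a => (MvPolynomial.X (σ a) : MvPolynomial (Fin N) k)) (fun _ => (1 : ℤ)) B).pw 0 =
      DT (fun a => (MvPolynomial.X (σ a) : MvPolynomial (Fin N) k)) (fun _ => 1) 1 :=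
    (DT_one _ _ _).symm
  rw [h6]
  have h7 : ((h0 (DT (fun a => (MvPolynomial.X (σ a) : MvPolynomial (Fin N) k)) (fun _ => 1) 1)
      (fun _ => 1) Q hQ.sub (n : ℤ) : ℕ) : ℤ) ≤
      (h0 (DT (fun a => (MvPolynomial.X (σ a) : MvPolynomial (Fin N) k)) (fun _ => 1) B)
      (fun _ => 1) Q hQ.sub (n : ℤ) : ℕ) := by
    rw [h5]
    omega
  exact_mod_cast h7

theorem Rep.pow {N K : ℕ} {z : Fin N → L} {σ : Fin K → Fin N} {β : Fin K → Lˣ}
    {B : Twt (MvPolynomial (Fin N) k) (Fin K)} (h : Rep z σ β B) (n : ℕ) :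
    Rep z σ (β ^ n) (B ^ n) := by
  induction n with
  | zero =>
    rw [pow_zero, pow_zero]
    exact Rep.one
  | succ n ih =>
    rw [pow_succ, pow_succ]
    exact ih.mul h

/-- **Kleiman's theorem**: nef plus ample is ample. -/
theorem NefD.ample {X : Set (Subalgebra k L)} (hX : IsProj X) {A D : Subalgebra k L → Lˣ}
    (hAc : IsCar X A) (hA : Ample X A) (hDc : IsCar X D) (hD : NefD X A D) : Ample X (A * D) := by
  obtain ⟨m, N, K, z, σ, α, hm, hV, hc, hα⟩ := exists_polC hX hAc hA (D := fun _ : Unit => D)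
    (fun _ => hDc)
  have hβ : OnC z σ D (α ()) := hα ()
  obtain ⟨B, hB⟩ := exists_rep hc hβ
  have hnef := hD.nef hX hAc hA hDc hm hV hc hβ hB
  have hamp := Kl.kleiman_geo relIdeal_sub (hB.lb hc) hnef m hm
  obtain ⟨n₀, u, hn₀, hu, hgg⟩ := hamp
  rw [mul_one] at hu
  rw [← DT_pow, ← DT_pow] at hgg
  have hV' : VA (Pts (lsys k z)) (A ^ m) (lsys k z) := by
    have := hV.eq
    rwa [this] at hV
  obtain ⟨V', hV''⟩ := bf_of_gg hc ((hβ.pow m).pow n₀) ((hB.pow m).pow n₀) hV'.toBF hgg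
  rw [← hV.eq] at hV''
  obtain ⟨j, hj⟩ := Int.eq_ofNat_of_zero_le (show (0 : ℤ) ≤ n₀ - u by omega)
  have hj1 : 1 ≤ j := by omega
  have h1 := (hV.pow hX hj1).mul hX hV''
  have h2 : (A ^ m) ^ j * ((D ^ m) ^ n₀ * (A ^ m) ^ u) = (A * D) ^ (m * n₀) := by
    have h3 : (A ^ m) ^ j = (A ^ m) ^ ((n₀ : ℤ) - u) := by
      rw [hj]
      exact (zpow_natCast _ _).symm
    rw [h3, mul_comm ((D ^ m) ^ n₀), ← mul_assoc, ← zpow_add, sub_add_cancel, zpow_natCast,
      pow_mul, mul_pow, mul_pow]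
  rw [h2] at h1
  exact h1.ample hX (Nat.mul_pos hm hn₀)

theorem NefD.pow {X : Set (Subalgebra k L)} (hX : IsProj X) {A D : Subalgebra k L → Lˣ}
    (hAc : IsCar X A) (hA : Ample X A) (hDc : IsCar X D) (hD : NefD X A D) (n : ℕ) :
    NefD X A (D ^ n) := by
  intro O hO d hd
  obtain ⟨δ, h1, -, -, h4, -⟩ := exists_isDeg_prod hX hAc hA hO
  have h5 := h4 D hDc n
  rw [zpow_natCast] at h5
  rw [(h1 _ (hDc.pow n) d).1 hd, h5]
  exact mul_nonneg (Int.natCast_nonneg _) (hD O hO _ ((h1 D hDc _).2 rfl))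

theorem NumTriv.nef {X : Set (Subalgebra k L)} (hX : IsProj X) {A D : Subalgebra k L → Lˣ}
    (hAc : IsCar X A) (hA : Ample X A) (hDc : IsCar X D) (hD : NumTriv X A D) :
    NefD X A D ∧ NefD X A D⁻¹ := by
  refine ⟨fun O hO d hd => (hD O hO d hd).ge, fun O hO d hd => ?_⟩
  obtain ⟨δ, h1, h2, -⟩ := exists_isDeg_prod hX hAc hA hO
  rw [(h1 _ hDc.inv d).1 hd, h2 D hDc, hD O hO _ ((h1 D hDc _).2 rfl), neg_zero]

/-- nef divisors: `A + a D` is ample for all `a ≥ 0` -/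
theorem NefD.ample_pow {X : Set (Subalgebra k L)} (hX : IsProj X) {A D : Subalgebra k L → Lˣ}
    (hAc : IsCar X A) (hA : Ample X A) (hDc : IsCar X D) (hD : NefD X A D) (a : ℕ) :
    Ample X (A * D ^ a) :=
  (hD.pow hX hAc hA hDc a).ample hX hAc hA (hDc.pow a)

end Pool.Agent.KM
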