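import Pool.Agent.Lib.MP_732f67_ag.NE.K2

/-!
Real solutions of integral linear equations; numerical equivalence of real divisors.
-/

namespace Pool.Agent.KM

/-- a real solution of a system of integral linear equations is a real combination of integral
solutions.

PROOF. Let `b` be a basis of the `ℚ`-subspace of `ℝ` spanned by the `y i`: `y i = ∑ j, q j i * b j` with rational
`q j i`. For an equation `e`: `0 = ∑ j, (∑ i, e i * q j i) * b j`, so `∑ i, e i * q j i = 0` for all `j`. Let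
`n ≥ 1` be a common denominator, `x j i = n q j i`, and the coefficients `b j / n`. -/
theorem exists_int_comb {r : ℕ} (y : Fin r → ℝ) (E : Set (Fin r → ℤ))
    (hy : ∀ e ∈ E, ∑ i, (e i : ℝ) * y i = 0) :
    ∃ (s : ℕ) (b : Fin s → ℝ) (x : Fin s → Fin r → ℤ), (∀ j, ∀ e ∈ E, ∑ i, e i * x j i = 0) ∧
      ∀ i, y i = ∑ j, b j * x j i := by
  classical
  let W : Submodule ℚ ℝ := Submodule.span ℚ (Set.range y)
  haveI : FiniteDimensional ℚ W := FiniteDimensional.span_of_finite ℚ (Set.finite_range y)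
  let B := Module.finBasis ℚ W
  let y' : Fin r → W := fun i => ⟨y i, Submodule.subset_span ⟨i, rfl⟩⟩
  have hyB : ∀ i, y i = ∑ j, ((B.repr (y' i) j : ℚ) : ℝ) * (B j : ℝ) := by
    intro i
    have h1 := congrArg (Subtype.val) (B.sum_repr (y' i))
    rw [Submodule.coe_sum] at h1
    have h2 : ((y' i : W) : ℝ) = y i := rfl
    rw [← h2, ← h1]
    refine Finset.sum_congr rfl fun j _ => ?_
    rw [Submodule.coe_smul, Rat.smul_def]
  have hE : ∀ e ∈ E, ∀ j, ∑ i, (e i : ℚ) * B.repr (y' i) j = 0 := by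
    intro e he j
    have h1 : ∑ i, (e i : ℚ) • y' i = 0 := by
      apply Subtype.ext
      rw [Submodule.coe_sum, Submodule.coe_zero, ← hy e he]
      refine Finset.sum_congr rfl fun i _ => ?_
      rw [Submodule.coe_smul, Rat.smul_def]
      norm_cast
    have h2 := congrArg (fun w => B.repr w j) h1
    simpa only [map_sum, map_smul, map_zero, Finsupp.coe_finset_sum, Finset.sum_apply,
      Finsupp.smul_apply, smul_eq_mul, Finsupp.coe_zero, Pi.zero_apply] using h2
  obtain ⟨n, hn⟩ := IsLocalization.exist_integer_multiples_of_finite (nonZeroDivisors ℤ)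
    (S := ℚ) (fun p : Fin (Module.finrank ℚ W) × Fin r => B.repr (y' p.2) p.1)
  have hn0 : ((n : ℤ) : ℚ) ≠ 0 := by
    exact_mod_cast nonZeroDivisors.coe_ne_zero n
  choose z hz using hn
  have hz' : ∀ j i, ((z (j, i) : ℤ) : ℚ) = ((n : ℤ) : ℚ) * B.repr (y' i) j := by
    intro j i
    have h1 := hz (j, i)
    simpa [zsmul_eq_mul] using h1
  refine ⟨Module.finrank ℚ W, fun j => (B j : ℝ) / ((n : ℤ) : ℝ), fun j i => z (j, i), ?_, ?_⟩
  · intro j e he
    have h1 : ((∑ i, e i * z (j, i) : ℤ) : ℚ) = 0 := by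
      push_cast
      have h2 : ∀ i ∈ (Finset.univ : Finset (Fin r)), (e i : ℚ) * (z (j, i) : ℚ) =
          ((n : ℤ) : ℚ) * ((e i : ℚ) * B.repr (y' i) j) := by
        intro i _
        rw [hz']
        ring
      rw [Finset.sum_congr rfl h2, ← Finset.mul_sum, hE e he j, mul_zero]
    exact_mod_cast h1
  · intro i
    rw [hyB i]
    refine Finset.sum_congr rfl fun j _ => ?_
    have hn1 : ((n : ℤ) : ℝ) ≠ 0 := by exact_mod_cast hn0
    have h3 : ((z (j, i) : ℤ) : ℝ) = ((n : ℤ) : ℝ) * ((B.repr (y' i) j : ℚ) : ℝ) := by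
      have := hz' j i
      exact_mod_cast congrArg (fun q : ℚ => (q : ℝ)) this
    rw [h3]
    field_simp

universe u v

variable {k : Type u} {L : Type v} [Field k] [Field L] [Algebra k L]

/-- a product of powers of Cartier divisors -/
theorem IsCar.prod_zpow {X : Set (Subalgebra k L)} {κ : Subalgebra k L → Lˣ} (hκ : IsCar X κ)
    {ι : Type*} (s : Finset ι) (x : ι → ℤ) (D : ι → Subalgebra k L → Lˣ)
    (hD : ∀ i ∈ s, IsCar X (D i)) : IsCar X (∏ i ∈ s, D i ^ x i) := by
  classical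
  induction s using Finset.induction_on with
  | empty =>
    rw [Finset.prod_empty]
    have h := hκ.mul hκ.inv
    rwa [mul_inv_cancel] at h
  | @insert i s hi ih =>
    rw [Finset.prod_insert hi]
    exact ((hD i (Finset.mem_insert_self i s)).zpow _).mul
      (ih fun j hj => hD j (Finset.mem_insert_of_mem hj))

/-- numerical equivalence of real divisors is generated by numerically trivial integral divisors.

PROOF. `exists_int_comb` for `y = Fin.cons (1 / m) a : Fin (r + 1) → ℝ` and the set `E` of the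
vectors `(deg κ, deg M_i)` on the curves `O` (`exists_isDeg_prod`). -/
theorem NumEq.exists_comb {r m : ℕ} {X : Set (Subalgebra k L)} (hX : IsProj X)
    {A : Subalgebra k L → Lˣ} (hAc : IsCar X A) (hA : Ample X A) {κ : Subalgebra k L → Lˣ}
    (hκ : IsCar X κ) {M : Fin r → Subalgebra k L → Lˣ} (hM : ∀ i, IsCar X (M i)) {a : Fin r → ℝ}
    (h : NumEq X A m κ a M) :
    ∃ (s : ℕ) (b : Fin s → ℝ) (c : Fin s → ℤ) (x : Fin s → Fin r → ℤ),
      (∀ j, NumTriv X A (κ ^ c j * ∏ i, M i ^ x j i)) ∧ (1 : ℝ) / m = ∑ j, b j * c j ∧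
      ∀ i, a i = ∑ j, b j * x j i := by
  obtain ⟨s, b, x, hx, hy⟩ := exists_int_comb (Fin.cons ((1 : ℝ) / m) a : Fin (r + 1) → ℝ)
    {v | ∃ O, IsCrv X O ∧ IsDeg X A κ O (v 0) ∧ ∀ i : Fin r, IsDeg X A (M i) O (v i.succ)} (by
      rintro v ⟨O, hO, h0, h1⟩
      have h2 := h O hO (v 0) (fun i => v i.succ) h0 h1
      rw [Fin.sum_univ_succ]
      simp only [Fin.cons_zero, Fin.cons_succ]
      have h3 : ∑ i : Fin r, (v i.succ : ℝ) * a i = ∑ i, a i * (v i.succ : ℝ) :=
        Finset.sum_congr rfl fun i _ => mul_comm _ _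
      rw [h3, ← h2]
      ring)
  refine ⟨s, b, fun j => x j 0, fun j i => x j i.succ, fun j O hO d hd => ?_, ?_, fun i => ?_⟩
  · obtain ⟨δ, hδ, -, -, -, hprod⟩ := exists_isDeg_prod hX hAc hA hO
    have hcar : ∀ i, IsCar X ((Fin.cons κ M : Fin (r + 1) → Subalgebra k L → Lˣ) i) := by
      intro i
      refine Fin.cases ?_ (fun i => ?_) i
      · exact hκ
      · exact hM i
    have h1 : κ ^ x j 0 * ∏ i : Fin r, M i ^ x j i.succ =
        ∏ i, (Fin.cons κ M : Fin (r + 1) → Subalgebra k L → Lˣ) i ^ x j i := by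
      rw [Fin.prod_univ_succ]
      rfl
    rw [h1] at hd
    have h2 := (hδ _ (hκ.prod_zpow Finset.univ _ _ fun i _ => hcar i) d).1 hd
    rw [hprod _ _ hcar] at h2
    have h3 := hx j (fun i => δ ((Fin.cons κ M : Fin (r + 1) → Subalgebra k L → Lˣ) i))
      ⟨O, hO, (hδ _ hκ _).2 rfl, fun i => (hδ _ (hM i) _).2 rfl⟩
    rw [h2, ← h3]
    exact Finset.sum_congr rfl fun i _ => mul_comm _ _
  · exact hy 0
  · exact hy i.succ

end Pool.Agent.KM
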