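import Pool.Agent.Lib.MP_732f67_ag.NE.Cov
import Pool.Agent.Lib.MP_0b721b_ag.Kl.Geom

/-!
Transition functions by polynomials.
-/

namespace Pool.Agent.KM

open MvPolynomial
open Pool.Agent.Lib.MP_0b721b_ag
open Pool.Agent.Lib.MP_0b721b_ag.St (Hom)
open Pool.Agent.Lib.MP_732f67_ag.V (relIdeal mem_relIdeal)

universe u v

variable {k : Type u} {L : Type v} [Field k] [Field L] [Algebra k L] {N K : ℕ} {z : Fin N → L}
  {σ : Fin K → Fin N}

/-- the twist `B` has the transition functions `β a / β b` -/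
def Rep (z : Fin N → L) (σ : Fin K → Fin N) (β : Fin K → Lˣ)
    (B : Twt (MvPolynomial (Fin N) k) (Fin K)) : Prop :=
  ∀ a b, Hom k N (2 * (Multiplicative.toAdd B.1 : ℕ)) (B.2 a b) ∧
    (aeval z (B.2 a b) : L) = (β a / β b : Lˣ) * (z (σ a) * z (σ b)) ^ (Multiplicative.toAdd B.1)

theorem rep_one : Hom k N 0 (1 : MvPolynomial (Fin N) k) := by
  have h := dicA_C (N := N) (1 : k)
  rwa [map_one] at h

theorem rep_pow {n : ℤ} {f : MvPolynomial (Fin N) k} (hf : Hom k N n f) (e : ℕ) :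
    Hom k N (e * n) (f ^ e) := by
  induction e with
  | zero =>
    rw [pow_zero, Nat.cast_zero, zero_mul]
    exact rep_one
  | succ e ih =>
    rw [pow_succ, Nat.cast_succ, add_mul, one_mul]
    exact dicA_mul ih hf

theorem Rep.one : Rep z σ 1 (1 : Twt (MvPolynomial (Fin N) k) (Fin K)) := by
  intro a b
  have h1 : Multiplicative.toAdd (1 : Twt (MvPolynomial (Fin N) k) (Fin K)).1 = 0 := rfl
  have h2 : (1 : Twt (MvPolynomial (Fin N) k) (Fin K)).2 a b = 1 := rfl
  rw [h1, h2, Nat.cast_zero, mul_zero, pow_zero, map_one, Pi.one_apply, Pi.one_apply, div_one,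
    Units.val_one, one_mul]
  exact ⟨rep_one, rfl⟩

theorem Rep.mul {β β' : Fin K → Lˣ} {B B' : Twt (MvPolynomial (Fin N) k) (Fin K)}
    (h : Rep z σ β B) (h' : Rep z σ β' B') : Rep z σ (β * β') (B * B') := by
  intro a b
  have h1 : Multiplicative.toAdd (B * B').1 =
    Multiplicative.toAdd B.1 + Multiplicative.toAdd B'.1 := rfl
  have h2 : (B * B').2 a b = B.2 a b * B'.2 a b := rfl
  obtain ⟨e1, e2⟩ := h a b
  obtain ⟨e3, e4⟩ := h' a b
  rw [h1, h2, Nat.cast_add, mul_add, _root_.map_mul, e2, e4, pow_add, Pi.mul_apply, Pi.mul_apply,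
    mul_div_mul_comm, Units.val_mul]
  exact ⟨dicA_mul e1 e3, by ring⟩

/-- the quotients of the local equations on the intersection of two charts -/
theorem rep_quot (hc : Cvr k z σ) {D : Subalgebra k L → Lˣ} {β : Fin K → Lˣ}
    (h : OnC z σ D β) (a b : Fin K) : ∃ (e : ℕ) (f : MvPolynomial (Fin N) k),
      Hom k N (2 * (e : ℤ)) f ∧ (aeval z f : L) = (β a / β b : Lˣ) * (z (σ a) * z (σ b)) ^ e := by
  have hmem : ∀ j, z j ∈ lsys k z := fun j => Submodule.subset_span ⟨j, rfl⟩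
  have hmem1 : ∀ j, z j ∈ lsys k z ^ 1 := fun j => by
    rw [pow_one]
    exact hmem j
  have hza := hc.ne (σ a)
  have hzb := hc.ne (σ b)
  have hC1 : cht (lsys k z) (z (σ a)) ≤ cht (lsys k z ^ 2) (z (σ a) * z (σ b)) := by
    rw [cht_mul (e := 1) (hmem _) hza (hmem1 _) hzb]
    exact fun x hx => Algebra.subset_adjoin (Or.inl hx)
  have hC2 : cht (lsys k z) (z (σ b)) ≤ cht (lsys k z ^ 2) (z (σ a) * z (σ b)) := by
    rw [mul_comm (z (σ a)) (z (σ b)), cht_mul (e := 1) (hmem _) hzb (hmem1 _) hza]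
    exact fun x hx => Algebra.subset_adjoin (Or.inl hx)
  have hV2 : z (σ a) * z (σ b) ∈ lsys k z ^ 2 := by
    rw [pow_two]
    exact Submodule.mul_mem_mul (hmem _) (hmem _)
  have hV20 : z (σ a) * z (σ b) ≠ 0 := mul_ne_zero hza hzb
  have h1 : ((β a / β b : Lˣ) : L) ∈ cht (lsys k z ^ 2) (z (σ a) * z (σ b)) := by
    refine mem_of_locAt fun O hO => ?_
    have hOP : O ∈ Pts (lsys k z) := by
      rw [← Pts_pow (lsys k z) (d := 2) (by norm_num)]
      exact ⟨_, hV2, hV20, hO⟩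
    have ea := h a O hOP (hC1.trans hO.le)
    have eb := h b O hOP (hC2.trans hO.le)
    have e1 := (eb.mul ea.inv).2.1
    have e2 : ((D O / β b : Lˣ) : L) * ((D O / β a : Lˣ) : L)⁻¹ = ((β a / β b : Lˣ) : L) := by
      rw [Units.val_div_eq_div_val, Units.val_div_eq_div_val, Units.val_div_eq_div_val]
      have f1 := (D O).ne_zero
      have f2 := (β a).ne_zero
      have f3 := (β b).ne_zero
      field_simp
    rwa [e2] at e1
  obtain ⟨e, H, hH, hx⟩ := (mem_cht_iff hV2 hV20 _).1 h1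
  rw [← pow_mul, mem_pow_iff] at hH
  obtain ⟨f, hf, rfl⟩ := hH
  refine ⟨e, f, ?_, ?_⟩
  · rw [Nat.cast_mul] at hf
    exact hf
  · rw [hx, div_mul_cancel₀ _ (pow_ne_zero _ hV20)]

/-- PROOF. Let `V = lsys k z`, `C = cht (V ^ 2) (z (σ a) * z (σ b))`, which contains the charts of `a`
and of `b` (`cht_mul`). Every local ring `O` of `C` is a point (`Pts_pow`), so `D O / β a` and
`D O / β b` are units of `O`, and `β a / β b ∈ O`; so `β a / β b ∈ C` (`mem_of_locAt`), and
`mem_cht_iff`, `mem_pow_iff` give the numerators. A common exponent for all pairs: multiply by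
powers of `X (σ a) * X (σ b)`. -/
theorem exists_rep (hc : Cvr k z σ) {D : Subalgebra k L → Lˣ} {β : Fin K → Lˣ}
    (h : OnC z σ D β) : ∃ B : Twt (MvPolynomial (Fin N) k) (Fin K), Rep z σ β B := by
  choose e f hf hfe using rep_quot hc h
  obtain ⟨E, hE⟩ : ∃ E : ℕ, ∀ a b, e a b ≤ E := by
    refine ⟨∑ a, ∑ b, e a b, fun a b => ?_⟩
    exact (Finset.single_le_sum (f := fun b => e a b) (fun _ _ => Nat.zero_le _)
      (Finset.mem_univ b)).trans (Finset.single_le_sum (f := fun a => ∑ b, e a b)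
        (fun _ _ => Nat.zero_le _) (Finset.mem_univ a))
  refine ⟨⟨Multiplicative.ofAdd E, fun a b => f a b * (X (σ a) * X (σ b)) ^ (E - e a b)⟩,
    fun a b => ?_⟩
  rw [toAdd_ofAdd]
  constructor
  · have h1 := dicA_mul (hf a b) (rep_pow (dicA_mul (dicA_X (k := k) (σ a)) (dicA_X (σ b)))
      (E - e a b))
    have h2 : 2 * (e a b : ℤ) + ((E - e a b : ℕ) : ℤ) * (1 + 1) = 2 * (E : ℤ) := by
      rw [Nat.cast_sub (hE a b)]
      ring
    rw [h2] at h1
    exact h1
  · rw [_root_.map_mul, _root_.map_pow, _root_.map_mul, aeval_X, aeval_X, hfe, mul_assoc,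
      ← pow_add, Nat.add_sub_cancel' (hE a b)]

theorem rep_cov_aux {M : ℕ} {y : L}
    (hy : y ∈ Submodule.span k (Set.range fun a => z (σ a)) * lsys k z ^ M) :
    ∃ p ∈ Ideal.span (Set.range fun a => (X (σ a) : MvPolynomial (Fin N) k)),
      Hom k N (1 + M) p ∧ (aeval z p : L) = y := by
  refine Submodule.mul_induction_on hy ?_ ?_
  · intro m hm n hn
    obtain ⟨g, hg, rfl⟩ := mem_pow_iff.1 hn
    have h1 : ∃ p ∈ Ideal.span (Set.range fun a => (X (σ a) : MvPolynomial (Fin N) k)),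
        Hom k N 1 p ∧ (aeval z p : L) = m := by
      induction hm using Submodule.span_induction with
      | mem x hx =>
        obtain ⟨a, rfl⟩ := hx
        exact ⟨X (σ a), Ideal.subset_span ⟨a, rfl⟩, dicA_X _, aeval_X _ _⟩
      | zero => exact ⟨0, Ideal.zero_mem _, dicA_zero _, map_zero _⟩
      | add x y _ _ hx hy =>
        obtain ⟨p, h1, h2, h3⟩ := hx
        obtain ⟨q, h4, h5, h6⟩ := hy
        exact ⟨p + q, Ideal.add_mem _ h1 h4, dicA_add h2 h5, by rw [map_add, h3, h6]⟩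
      | smul c x _ hx =>
        obtain ⟨p, h1, h2, h3⟩ := hx
        refine ⟨c • p, ?_, dicA_smul h2 c, by rw [map_smul, h3]⟩
        rw [MvPolynomial.smul_eq_C_mul]
        exact Ideal.mul_mem_left _ _ h1
    obtain ⟨p, h2, h3, h4⟩ := h1
    exact ⟨p * g, Ideal.mul_mem_right _ _ h2, dicA_mul h3 hg, by rw [_root_.map_mul, h4]⟩
  · rintro x y ⟨p, h1, h2, h3⟩ ⟨q, h4, h5, h6⟩
    exact ⟨p + q, Ideal.add_mem _ h1 h4, dicA_add h2 h5, by rw [map_add, h3, h6]⟩

/-- the data of the cover -/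
theorem Cvr.cov' (hc : Cvr k z σ) : ∀ i, ∃ e : ℕ, (X i : MvPolynomial (Fin N) k) ^ e ∈
    relIdeal k z ⊔ Ideal.span (Set.range fun a => (X (σ a) : MvPolynomial (Fin N) k)) := by
  obtain ⟨M, hM⟩ := hc.cov
  intro i
  obtain ⟨p, h1, h2, h3⟩ := rep_cov_aux (hM i)
  refine ⟨M + 1, ?_⟩
  have h4 : (X i : MvPolynomial (Fin N) k) ^ (M + 1) - p ∈ relIdeal k z := by
    refine dicA_rel (n := 1 + M) (dicA_sub ?_ h2) ?_
    · have h5 := rep_pow (dicA_X (k := k) i) (M + 1)
      have h6 : ((M + 1 : ℕ) : ℤ) * 1 = 1 + M := by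
        push_cast
        ring
      rwa [h6] at h5
    · rw [_root_.map_sub, _root_.map_pow, aeval_X, h3, sub_self]
  have h5 : (X i : MvPolynomial (Fin N) k) ^ (M + 1) = (X i ^ (M + 1) - p) + p := by ring
  rw [h5]
  exact Submodule.add_mem_sup h4 h1

/-- PROOF. The polynomials in `self` and `cocy` are homogeneous with value zero, so they are in
`relIdeal` (`relIdeal`: `mem_relIdeal_of_hom`; or as in `HP.mem_of_aeval`); `cov` is `Cvr.cov'`. -/
theorem Rep.lb (hc : Cvr k z σ) {β : Fin K → Lˣ} {B : Twt (MvPolynomial (Fin N) k) (Fin K)}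
    (h : Rep z σ β B) : (DT (fun a => (X (σ a) : MvPolynomial (Fin N) k)) (fun _ => 1) B).Lb
      (fun _ => 1) (relIdeal k z) := by
  have ht : ∀ a, Hom k N (2 * (Multiplicative.toAdd B.1 : ℕ))
      ((X (σ a) : MvPolynomial (Fin N) k) ^ (2 * Multiplicative.toAdd B.1)) := by
    intro a
    have h5 := rep_pow (dicA_X (k := k) (σ a)) (2 * Multiplicative.toAdd B.1)
    rwa [mul_one, Nat.cast_mul] at h5
  refine ⟨fun _ => one_pos, fun a => St.hom_iff.1 (dicA_X (σ a)), fun a b => ?_, fun a => ?_,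
    fun a b c => ?_, hc.cov'⟩
  · have h1 := St.hom_iff.1 (h a b).1
    rw [mul_comm] at h1
    exact h1
  · refine ⟨0, ?_⟩
    rw [pow_zero, one_mul]
    refine dicA_rel (dicA_sub (h a a).1 (ht a)) ?_
    change (aeval z (B.2 a a - X (σ a) ^ (2 * Multiplicative.toAdd B.1)) : L) = 0
    rw [_root_.map_sub, (h a a).2, _root_.map_pow, aeval_X, div_self', Units.val_one, one_mul, ← pow_two,
      ← pow_mul, sub_self]
  · refine ⟨0, ?_⟩
    rw [pow_zero, one_mul]
    refine dicA_rel (dicA_sub (dicA_mul (h a b).1 (h b c).1) (dicA_mul (h a c).1 (ht b))) ?_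
    change (aeval z (B.2 a b * B.2 b c - B.2 a c * X (σ b) ^ (2 * Multiplicative.toAdd B.1)) : L) = 0
    rw [_root_.map_sub, _root_.map_mul, _root_.map_mul, (h a b).2, (h b c).2, (h a c).2,
      _root_.map_pow, aeval_X, Units.val_div_eq_div_val, Units.val_div_eq_div_val, Units.val_div_eq_div_val]
    have f2 := (β a).ne_zero
    have f3 := (β b).ne_zero
    have f4 := (β c).ne_zero
    rw [mul_pow, mul_pow, mul_pow, mul_comm 2, pow_mul]
    field_simp
    ring

end Pool.Agent.KM
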