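import Pool.Agent.Lib.MP_732f67_ag.NE.Rep

/-!
Sections on the closure of a point: from local rings to polynomials.
-/

namespace Pool.Agent.KM

open MvPolynomial
open Pool.Agent.Lib.MP_0b721b_ag
open Pool.Agent.Lib.MP_0b721b_ag.St (Hom)
open Pool.Agent.Lib.MP_732f67_ag.V (relIdeal mem_relIdeal)

universe u v

variable {k : Type u} {L : Type v} [Field k] [Field L] [Algebra k L] {N K : ℕ} {z : Fin N → L}
  {σ : Fin K → Fin N}

theorem mx_iff {O : Subalgebra k L} {x : L} :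
    Mx O x ↔ ∃ h : x ∈ O, ¬ IsUnit (⟨x, h⟩ : O) := by
  have key : ∀ h : x ∈ O, IsUnit (⟨x, h⟩ : O) ↔ Un O x := by
    intro h
    constructor
    · intro hu
      obtain ⟨y, hy⟩ := hu.exists_right_inv
      have h1 : x * (y : L) = 1 := congrArg Subtype.val hy
      have h0 : x ≠ 0 := left_ne_zero_of_mul_eq_one h1
      have h2 : x⁻¹ = y := inv_eq_of_mul_eq_one_right h1
      exact ⟨h0, h, by rw [h2]; exact y.2⟩
    · rintro ⟨h0, _, hi⟩
      exact IsUnit.of_mul_eq_one (⟨x⁻¹, hi⟩ : O) (Subtype.ext (mul_inv_cancel₀ h0))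
  unfold Mx
  constructor
  · rintro ⟨h, hu⟩
    exact ⟨h, fun hu' => hu ((key h).1 hu')⟩
  · rintro ⟨h, hu⟩
    exact ⟨h, fun hu' => hu ((key h).2 hu')⟩

theorem Mx.add {O : Subalgebra k L} (hO : IsLocalRing O) {x y : L} (hx : Mx O x) (hy : Mx O y) :
    Mx O (x + y) := by
  rw [mx_iff] at hx hy ⊢
  obtain ⟨h1, h2⟩ := hx
  obtain ⟨h3, h4⟩ := hy
  exact ⟨O.add_mem h1 h3, IsLocalRing.nonunits_add h2 h4⟩

theorem Mx.mul {O : Subalgebra k L} {x y : L} (hx : Mx O x) (hy : y ∈ O) : Mx O (y * x) := by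
  refine ⟨O.mul_mem hy hx.1, fun hu => hx.2 ?_⟩
  have h0 : x ≠ 0 := right_ne_zero_of_mul hu.1
  have h0' : y ≠ 0 := left_ne_zero_of_mul hu.1
  refine ⟨h0, hx.1, ?_⟩
  have h1 : x⁻¹ = y * (y * x)⁻¹ := by
    field_simp
  rw [h1]
  exact O.mul_mem hy hu.2.2

theorem Mx.neg {O : Subalgebra k L} {x : L} (hx : Mx O x) : Mx O (-x) := by
  refine ⟨O.neg_mem hx.1, fun hu => hx.2 ?_⟩
  refine ⟨neg_ne_zero.1 hu.1, hx.1, ?_⟩
  have h1 := O.neg_mem hu.2.2
  rwa [inv_neg, neg_neg] at h1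

theorem mx_zero {O : Subalgebra k L} : Mx O 0 := by
  exact ⟨O.zero_mem, fun hu => hu.1 rfl⟩

/-- Regular functions on the closure of the point `O` in an affine chart.

PROOF. The set `J` of the `b ∈ A` such that there is `c ∈ A` with `Mx O (b * φ - c)` is an ideal of `A`.
If it is not the unit ideal, it is contained in a maximal ideal `P'`; it contains the prime ideal of
`O`, so the local ring `O'` of `P'` is contained in `O`; by assumption there is `g ∈ O'`, `g = c / b`,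
`b ∉ P'`, with `Mx O (φ - g)`, so `b ∈ J`, a contradiction. -/
theorem exists_regular {A O : Subalgebra k L} (hO : LocAt A O) {φ : L} (hφ : φ ∈ O)
    (h : ∀ O', LocAt A O' → O' ≤ O → ∃ g ∈ O', Mx O (φ - g)) : ∃ c ∈ A, Mx O (φ - c) := by
  have hOl := hO.isLocalRing
  obtain ⟨P, hP, hPO⟩ := id hO
  have hin : ∀ b : A, b ∉ P → (b : L) ≠ 0 := by
    intro b hb h0
    apply hb
    rw [show b = 0 from Subtype.ext h0]
    exact P.zero_mem
  have hPM : ∀ b ∈ P, Mx O (b : L) := by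
    intro b hb
    refine ⟨hO.le b.2, fun hu => ?_⟩
    obtain ⟨a, c, hc, hac⟩ := (hPO _).1 hu.2.2
    apply hc
    have h1 : c = a * b := by
      apply Subtype.ext
      have h2 := hin c hc
      have h3 := hu.1
      push_cast
      rw [inv_eq_iff_eq_inv, inv_div] at hac
      have h4 : (a : L) ≠ 0 := by
        intro h4
        rw [h4, div_zero] at hac
        exact h3 hac
      rw [hac, mul_div_cancel₀ _ h4]
    rw [h1]
    exact P.mul_mem_left _ hb
  let J : Ideal A :=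
    { carrier := {b | ∃ c ∈ A, Mx O ((b : L) * φ - c)}
      zero_mem' := ⟨0, A.zero_mem, by
        rw [ZeroMemClass.coe_zero, zero_mul, sub_zero]
        exact mx_zero⟩
      add_mem' := by
        rintro b b' ⟨c, hc, h1⟩ ⟨c', hc', h2⟩
        refine ⟨c + c', A.add_mem hc hc', ?_⟩
        have h3 := Mx.add hOl h1 h2
        have h4 : (b : L) * φ - c + ((b' : L) * φ - c') = ((b + b' : A) : L) * φ - (c + c') := by
          push_cast
          ring
        rwa [h4] at h3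
      smul_mem' := by
        rintro a b ⟨c, hc, h1⟩
        refine ⟨a * c, A.mul_mem a.2 hc, ?_⟩
        have h3 := Mx.mul h1 (hO.le a.2)
        have h4 : (a : L) * ((b : L) * φ - c) = ((a • b : A) : L) * φ - a * c := by
          rw [smul_eq_mul]
          push_cast
          ring
        rwa [h4] at h3 }
  have hJ : ∀ b : A, b ∈ J ↔ ∃ c ∈ A, Mx O ((b : L) * φ - c) := fun _ => Iff.rfl
  have htop : J = ⊤ := by
    by_contra hne
    obtain ⟨P', hP', hle⟩ := Ideal.exists_le_maximal _ hne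
    have hPp : P'.IsPrime := hP'.isPrime
    have hPP : P ≤ P' := by
      refine le_trans (fun b hb => (hJ b).2 ⟨0, A.zero_mem, ?_⟩) hle
      rw [sub_zero, mul_comm]
      exact Mx.mul (hPM b hb) hφ
    have hl : LocAt A (covLoc A P') := covLoc_locAt A P'
    have hO' : covLoc A P' ≤ O := by
      rintro _ ⟨a, b, hb, rfl⟩
      exact (hPO _).2 ⟨a, b, fun hb' => hb (hPP hb'), rfl⟩
    obtain ⟨g, hg, hmx⟩ := h _ hl hO'
    obtain ⟨c, b, hb, rfl⟩ := hg
    apply hb
    apply hle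
    refine (hJ b).2 ⟨c, c.2, ?_⟩
    have h3 := Mx.mul hmx (hO.le b.2)
    have hb0 : (b : L) ≠ 0 := by
      intro h0
      apply hb
      rw [show b = 0 from Subtype.ext h0]
      exact P'.zero_mem
    have h4 : (b : L) * (φ - c / b) = b * φ - c := by
      field_simp
    rwa [h4] at h3
  obtain ⟨c, hc, hmx⟩ := (hJ 1).1 (by rw [htop]; trivial)
  refine ⟨c, hc, ?_⟩
  rwa [OneMemClass.coe_one, one_mul] at hmx

/-- `f` in the trivialisation of the chart `a`, at the point `O` -/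
noncomputable def tau (z : Fin N → L) (σ : Fin K → Fin N) (D H : Subalgebra k L → Lˣ)
    (β : Fin K → Lˣ) (n : ℤ) (O : Subalgebra k L) (a : Fin K) : L :=
  (β a : L) * z (σ a) ^ (-n) / ((D O : L) * (H O : L) ^ n)

/-- on the closure of `ptQ z Q hQ` the function `f` is, in the trivialisation of the chart `a`, equal to
`m a / z (σ a) ^ (n + T)` -/
def Eqs (z : Fin N → L) (σ : Fin K → Fin N) (D H : Subalgebra k L → Lˣ) (β : Fin K → Lˣ) (n : ℤ)
    (Q : Ideal (MvPolynomial (Fin N) k)) (hQ : HP z Q) (T : ℕ) (f : L)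
    (m : Fin K → MvPolynomial (Fin N) k) : Prop :=
  ∀ a, (X (σ a) : MvPolynomial (Fin N) k) ∉ Q →
    Mx (ptQ z Q hQ) (f * tau z σ D H β n (ptQ z Q hQ) a - aeval z (m a) / z (σ a) ^ (n + T))

/-- `tau` is a unit, in terms of the local equations -/
theorem un_tau_aux {O : Subalgebra k L} {d e b w : L} (hd : d ≠ 0) (he : e ≠ 0) (hb : b ≠ 0)
    (hw : w ≠ 0) (h1 : Un O (d / b)) (h2 : Un O (w * e)) (n : ℤ) :
    Un O (b * w ^ (-n) / (d * e ^ n)) := by
  have h3 := h1.inv.mul (h2.zpow (-n))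
  have h4 : (d / b)⁻¹ * (w * e) ^ (-n) = b * w ^ (-n) / (d * e ^ n) := by
    rw [mul_zpow, zpow_neg e, inv_div]
    have h5 := zpow_ne_zero n he
    field_simp
  rwa [h4] at h3

/-- `tau` is a unit -/
theorem un_tau (hc : Cvr k z σ) {D H : Subalgebra k L → Lˣ} {β : Fin K → Lˣ} (h : OnC z σ D β)
    (hH : BF (Pts (lsys k z)) H (lsys k z)) (n : ℤ) {Q : Ideal (MvPolynomial (Fin N) k)}
    (hQ : HP z Q) {a : Fin K} (ha : (X (σ a) : MvPolynomial (Fin N) k) ∉ Q) :
    Un (ptQ z Q hQ) (tau z σ D H β n (ptQ z Q hQ) a) := by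
  have hO := ptQ_mem hc.ne hQ
  have hle := (cht_le_ptQ hc.ne hQ).2 ha
  have h1 := h a _ hO hle
  rw [Units.val_div_eq_div_val] at h1
  exact un_tau_aux (D _).ne_zero (H _).ne_zero (β a).ne_zero (hc.ne _) h1
    (hH.un_of_cht_le hO (Submodule.subset_span ⟨_, rfl⟩) (hc.ne _) hle) n

/-- PROOF. `tau a / tau b = (β a / β b) (z (σ b) / z (σ a)) ^ n` -/
theorem tau_div (hc : Cvr k z σ) {D H : Subalgebra k L → Lˣ} {β : Fin K → Lˣ} (n : ℤ)
    (O : Subalgebra k L) (a b : Fin K) : tau z σ D H β n O a =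
      (β a / β b : Lˣ) * (z (σ b) / z (σ a)) ^ n * tau z σ D H β n O b := by
  unfold tau
  rw [Units.val_div_eq_div_val, div_zpow, zpow_neg, zpow_neg]
  have h1 := (β b).ne_zero
  have h2 := (D O).ne_zero
  have h3 := zpow_ne_zero n (H O).ne_zero
  have h4 := zpow_ne_zero n (hc.ne (σ a))
  have h5 := zpow_ne_zero n (hc.ne (σ b))
  field_simp

/-- one chart -/
theorem exists_eqs_one (hc : Cvr k z σ) {D H : Subalgebra k L → Lˣ} {β : Fin K → Lˣ}
    (h : OnC z σ D β) (hH : BF (Pts (lsys k z)) H (lsys k z)) {n : ℤ}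
    {Q : Ideal (MvPolynomial (Fin N) k)} {hQ : HP z Q} {f : L}
    (hf : IsSecC (Pts (lsys k z)) (D * H ^ n) (ptQ z Q hQ) f) (a : Fin K) :
    ∃ e : ℕ, ∀ T : ℕ, (e : ℤ) ≤ n + T → ∃ m : MvPolynomial (Fin N) k, Hom k N (n + T) m ∧
      ((X (σ a) : MvPolynomial (Fin N) k) ∉ Q → Mx (ptQ z Q hQ)
        (f * tau z σ D H β n (ptQ z Q hQ) a - aeval z m / z (σ a) ^ (n + T))) := by
  by_cases ha : (X (σ a) : MvPolynomial (Fin N) k) ∈ Q
  · exact ⟨0, fun T _ => ⟨0, dicA_zero _, fun h1 => absurd ha h1⟩⟩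
  have hmem : z (σ a) ∈ lsys k z := Submodule.subset_span ⟨_, rfl⟩
  have hz := hc.ne (σ a)
  have hl := locAt_ptQ hc.ne hQ ha
  have hut := un_tau hc h hH n hQ ha
  obtain ⟨c, hcA, hmx⟩ := exists_regular hl
    (φ := f * tau z σ D H β n (ptQ z Q hQ) a) ((ptQ z Q hQ).mul_mem hf.1 hut.2.1) (by
      intro O' hO' hle
      have hO'P : O' ∈ Pts (lsys k z) := ⟨_, hmem, hz, hO'⟩
      obtain ⟨g, hg, hmx⟩ := hf.2 O' hO'P hle
      have h1 := h a _ hO'P hO'.le
      rw [Units.val_div_eq_div_val] at h1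
      have hu : Un O' (tau z σ D H β n O' a) := un_tau_aux (D _).ne_zero (H _).ne_zero
        (β a).ne_zero hz h1 (hH.un_of_cht_le hO'P hmem hz hO'.le) n
      refine ⟨tau z σ D H β n O' a * g, O'.mul_mem hu.2.1 hg, ?_⟩
      have h2 := Mx.mul hmx (hle hu.2.1)
      have h3 : tau z σ D H β n O' a * (f * (((D * H ^ n) O' / (D * H ^ n) (ptQ z Q hQ) : Lˣ) : L)
          - g) = f * tau z σ D H β n (ptQ z Q hQ) a - tau z σ D H β n O' a * g := by
        unfold tau
        rw [Units.val_div_eq_div_val, Pi.mul_apply, Pi.mul_apply, Pi.pow_apply, Pi.pow_apply,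
          Units.val_mul, Units.val_mul, Units.val_zpow_eq_zpow_val, Units.val_zpow_eq_zpow_val]
        have e1 := (D O').ne_zero
        have e2 := zpow_ne_zero n (H O').ne_zero
        have e3 := (D (ptQ z Q hQ)).ne_zero
        have e4 := zpow_ne_zero n (H (ptQ z Q hQ)).ne_zero
        field_simp
      rwa [h3] at h2)
  obtain ⟨e, G, hG, rfl⟩ := (mem_cht_iff hmem hz _).1 hcA
  obtain ⟨F, hF, rfl⟩ := mem_pow_iff.1 hG
  refine ⟨e, fun T hT => ⟨X (σ a) ^ (n + T - e).toNat * F, ?_, fun _ => ?_⟩⟩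
  · have h1 := dicA_mul (rep_pow (dicA_X (k := k) (σ a)) (n + T - e).toNat) hF
    have h2 : ((n + T - e).toNat : ℤ) * 1 + e = n + T := by
      rw [Int.toNat_of_nonneg (by omega)]
      ring
    rwa [h2] at h1
  · have h1 : (aeval z (X (σ a) ^ (n + T - e).toNat * F) : L) / z (σ a) ^ (n + T) =
        aeval z F / z (σ a) ^ e := by
      rw [_root_.map_mul, _root_.map_pow, aeval_X]
      have h2 : z (σ a) ^ (n + T) = z (σ a) ^ (n + T - e).toNat * z (σ a) ^ e := by
        rw [← zpow_natCast, ← zpow_natCast, ← zpow_add₀ hz, Int.toNat_of_nonneg (by omega)]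
        congr 1
        ring
      rw [h2, mul_div_mul_left _ _ (pow_ne_zero _ hz)]
    rw [h1]
    exact hmx

/-- a section is on every chart given by a polynomial.

PROOF. `exists_regular` for the chart `A = cht (lsys k z) (z (σ a))` (`locAt_ptQ`) and
`φ = f * tau a ∈ ptQ`: for `O'` with `LocAt A O'`, `O' ≤ ptQ`: `O' ∈ Pts`, `IsSecC` gives `g'` with
`Mx (f (D H ^ n) (O') / (D H ^ n) (ptQ) - g')`; multiply with the unit
`β a z (σ a) ^ (-n) / (D H ^ n) (O')` of `O'` (`OnC`, `BF.un_of_cht_le`). The element `c ∈ A` is `F / z (σ a) ^ e`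
with a form `F` of degree `e` (`mem_cht_iff`, `mem_pow_iff`); for `n + T ≥ e` let
`m a = X (σ a) ^ (n + T - e) F`. The largest of the `e` for all `a`. For the `a` with `X (σ a) ∈ Q` take `0`. -/
theorem exists_eqs (hc : Cvr k z σ) {D H : Subalgebra k L → Lˣ} {β : Fin K → Lˣ}
    (h : OnC z σ D β) (hH : BF (Pts (lsys k z)) H (lsys k z)) {n : ℤ}
    {Q : Ideal (MvPolynomial (Fin N) k)} {hQ : HP z Q} {f : L}
    (hf : IsSecC (Pts (lsys k z)) (D * H ^ n) (ptQ z Q hQ) f) :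
    ∃ T₀ : ℕ, ∀ T, T₀ ≤ T → ∃ m : Fin K → MvPolynomial (Fin N) k, (∀ a, Hom k N (n + T) (m a)) ∧
      Eqs z σ D H β n Q hQ T f m := by
  choose e he using exists_eqs_one hc h hH hf
  refine ⟨∑ a, e a + n.natAbs, fun T hT => ?_⟩
  have h1 : ∀ a, (e a : ℤ) ≤ n + T := by
    intro a
    have h2 : e a ≤ ∑ a, e a := Finset.single_le_sum (f := e) (fun _ _ => Nat.zero_le _)
      (Finset.mem_univ a)
    omega
  choose m hm1 hm2 using fun a => he a T (h1 a)
  exact ⟨m, hm1, hm2⟩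

end Pool.Agent.KM
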