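import Pool.Agent.Lib.MP_732f67_ag.NE.SecB1

/-!
Sections on the closure of a point: the dimension of the space of sections.
-/

namespace Pool.Agent.KM

open MvPolynomial
open Pool.Agent.Lib.MP_0b721b_ag
open Pool.Agent.Lib.MP_0b721b_ag.St (Hom)
open Pool.Agent.Lib.MP_732f67_ag.V (relIdeal mem_relIdeal)

universe u v

variable {k : Type u} {L : Type v} [Field k] [Field L] [Algebra k L] {N K : ℕ} {z : Fin N → L}
  {σ : Fin K → Fin N}

theorem Mx.sum {O : Subalgebra k L} (hO : IsLocalRing O) {ι : Type*} (s : Finset ι) {f : ι → L}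
    (h : ∀ i ∈ s, Mx O (f i)) : Mx O (∑ i ∈ s, f i) := by
  classical
  induction s using Finset.induction_on with
  | empty =>
    rw [Finset.sum_empty]
    exact mx_zero
  | insert i s hi ih =>
    rw [Finset.sum_insert hi]
    exact (h i (Finset.mem_insert_self i s)).add hO
      (ih fun j hj => h j (Finset.mem_insert_of_mem hj))

theorem Mx.smul {O : Subalgebra k L} {x : L} (hx : Mx O x) (c : k) : Mx O (c • x) := by
  rw [Algebra.smul_def]
  exact hx.mul (O.algebraMap_mem c)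

/-- forms of degree `d` and the maximal ideal -/
theorem mx_form_iff {Q : Ideal (MvPolynomial (Fin N) k)} {hQ : HP z Q} {d : ℤ}
    {F : MvPolynomial (Fin N) k} (hF : Hom k N d F) {j : Fin N}
    (hj : (X j : MvPolynomial (Fin N) k) ∉ Q) :
    Mx (ptQ z Q hQ) (aeval z F / z j ^ d) ↔ F ∈ Q := by
  rcases lt_or_ge d 0 with hneg | hpos
  · have h2 : F = 0 := by
      rw [← MvPolynomial.support_eq_empty, Finset.eq_empty_iff_forall_notMem]
      intro e he
      have h3 := hF e he
      have h4 : (0 : ℤ) ≤ ∑ i, (e i : ℤ) := Finset.sum_nonneg fun i _ => Int.natCast_nonneg _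
      omega
    rw [h2, map_zero, zero_div]
    exact ⟨fun _ => Q.zero_mem, fun _ => mx_zero⟩
  · obtain ⟨n, rfl⟩ := Int.eq_ofNat_of_zero_le hpos
    have h1 : Hom k N 1 (X j : MvPolynomial (Fin N) k) :=
      St.hom_iff.2 (by
        have := polyGr_X (A := k) (fun _ : Fin N => (1 : ℤ)) j
        exact this)
    have h2 : Hom k N n (X j ^ n : MvPolynomial (Fin N) k) := by
      have h3 := St.hom_iff.2 (polyGr_pow (St.hom_iff.1 h1) n)
      rwa [mul_one] at h3
    have h3 : (X j ^ n : MvPolynomial (Fin N) k) ∉ Q := fun h4 =>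
      hj (hQ.prime.mem_of_pow_mem n h4)
    have h4 : z j ^ ((n : ℕ) : ℤ) = aeval z (X j ^ n : MvPolynomial (Fin N) k) := by
      rw [map_pow, aeval_X]
      exact zpow_natCast _ _
    rw [h4]
    exact mx_ptQ hF h2 h3

/-- a combination of sections vanishes if and only if the combination of the polynomials does -/
theorem mx_sum_iff (hc : Cvr k z σ) {D H : Subalgebra k L → Lˣ} {β : Fin K → Lˣ}
    (h : OnC z σ D β) (hH : BF (Pts (lsys k z)) H (lsys k z)) {n : ℤ}
    {Q : Ideal (MvPolynomial (Fin N) k)} {hQ : HP z Q} {T r : ℕ} {f : Fin r → L}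
    {m : Fin r → Fin K → MvPolynomial (Fin N) k} (hm : ∀ i a, Hom k N (n + T) (m i a))
    (he : ∀ i, Eqs z σ D H β n Q hQ T (f i) (m i))
    (hf : ∀ i, f i ∈ ptQ z Q hQ) (c : Fin r → k) :
    Mx (ptQ z Q hQ) (∑ i, c i • f i) ↔
      ∀ a, ∃ e : ℕ, (X (σ a) : MvPolynomial (Fin N) k) ^ e * ∑ i, c i • m i a ∈ Q := by
  obtain ⟨a₁, ha₁⟩ := hc.exists_le (ptQ_mem hc.ne hQ)
  have hX₁ := (cht_le_ptQ hc.ne hQ).1 ha₁
  have hloc : IsLocalRing (ptQ z Q hQ) := (locAt_ptQ hc.ne hQ hX₁).isLocalRing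
  have key : ∀ a, (X (σ a) : MvPolynomial (Fin N) k) ∉ Q →
      (Mx (ptQ z Q hQ) (∑ i, c i • f i) ↔ ∑ i, c i • m i a ∈ Q) := by
    intro a ha
    have hu := un_tau hc h hH n hQ ha
    have hform : Hom k N (n + T) (∑ i, c i • m i a) := by
      rw [St.hom_iff]
      refine Finset.sum_induction _ (fun x => (polyGr k (fun _ : Fin N => (1 : ℤ))).Hom (n + T) x)
        (fun _ _ => Gr.Hom.add) (Gr.Hom.zero _ _) (fun i _ => ?_)
      rw [MvPolynomial.smul_eq_C_mul]
      have h1 := polyGr_mul (polyGr_C (A := k) (fun _ : Fin N => (1 : ℤ)) (c i))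
        (St.hom_iff.1 (hm i a))
      rwa [zero_add] at h1
    rw [← mx_form_iff (hQ := hQ) hform ha]
    have h1 : Mx (ptQ z Q hQ) (∑ i, c i • (f i * tau z σ D H β n (ptQ z Q hQ) a -
        aeval z (m i a) / z (σ a) ^ (n + T))) :=
      Mx.sum hloc _ fun i _ => (he i a ha).smul _
    have h2 : ∑ i, c i • (f i * tau z σ D H β n (ptQ z Q hQ) a -
        aeval z (m i a) / z (σ a) ^ (n + T)) =
        tau z σ D H β n (ptQ z Q hQ) a * (∑ i, c i • f i) -
          aeval z (∑ i, c i • m i a) / z (σ a) ^ (n + T) := by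
      rw [map_sum, Finset.mul_sum, Finset.sum_div, ← Finset.sum_sub_distrib]
      refine Finset.sum_congr rfl fun i _ => ?_
      rw [map_smul, smul_sub, mul_smul_comm, mul_comm (f i), smul_div_assoc]
    rw [h2] at h1
    constructor
    · intro h3
      have h4 := (h3.mul hu.2.1).add hloc h1.neg
      rwa [neg_sub, add_sub_cancel] at h4
    · intro h3
      have h4 := h1.add hloc h3
      rw [sub_add_cancel] at h4
      have h5 := h4.mul hu.2.2
      rwa [← mul_assoc, inv_mul_cancel₀ hu.1, one_mul] at h5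
  constructor
  · intro h1 a
    by_cases ha : (X (σ a) : MvPolynomial (Fin N) k) ∈ Q
    · refine ⟨1, ?_⟩
      rw [pow_one]
      exact Q.mul_mem_right _ ha
    · refine ⟨0, ?_⟩
      rw [pow_zero, one_mul]
      exact (key a ha).1 h1
  · intro h1
    obtain ⟨e, he'⟩ := h1 a₁
    exact (key a₁ hX₁).2 ((hQ.prime.mem_or_mem he').resolve_left fun h2 =>
      hX₁ (hQ.prime.mem_of_pow_mem e h2))

theorem HasSecC.mono {X : Set (Subalgebra k L)} {D : Subalgebra k L → Lˣ} {O : Subalgebra k L}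
    {r s : ℕ} (h : HasSecC X D O r) (hs : s ≤ r) : HasSecC X D O s := by
  obtain ⟨t, rfl⟩ := Nat.exists_eq_add_of_le hs
  obtain ⟨f, hf, hc⟩ := h
  refine ⟨fun i => f (Fin.castAdd t i), fun i => hf _, fun c h1 => ?_⟩
  have h2 := hc (Fin.append c 0) (by
    rw [Fin.sum_univ_add]
    simp only [Fin.append_left, Fin.append_right, Pi.zero_apply, zero_smul, Finset.sum_const_zero,
      add_zero]
    exact h1)
  funext i
  have h3 := congrFun h2 (Fin.castAdd t i)
  rw [Fin.append_left] at h3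
  exact h3

/-- **the dictionary for sections** -/
theorem hasSecC_iff (hc : Cvr k z σ) {D H : Subalgebra k L → Lˣ} {β : Fin K → Lˣ}
    (h : OnC z σ D β) {B : Twt (MvPolynomial (Fin N) k) (Fin K)} (hB : Rep z σ β B)
    (hH : BF (Pts (lsys k z)) H (lsys k z)) (n : ℤ)
    {Q : Ideal (MvPolynomial (Fin N) k)} (hQ : HP z Q) (r : ℕ) :
    HasSecC (Pts (lsys k z)) (D * H ^ n) (ptQ z Q hQ) r ↔
      r ≤ h0 (DT (fun a => (X (σ a) : MvPolynomial (Fin N) k)) (fun _ => 1) B) (fun _ => 1) Q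
        hQ.sub n := by
  have hlb : (St.toDat (bun σ B)).Lb (fun _ => 1) Q := (hB.lb hc).mono hQ.rel
  constructor
  · rintro ⟨f, hf, hind⟩
    choose T₀ hT₀ using fun i => exists_eqs hc h hH (hf i)
    have hle : ∀ i, T₀ i ≤ ∑ i, T₀ i := fun i =>
      Finset.single_le_sum (f := T₀) (fun _ _ => Nat.zero_le _) (Finset.mem_univ i)
    choose m hm hE using fun i => hT₀ i _ (hle i)
    refine St.le_h0 (D := bun σ B) hlb hQ.sub ⟨∑ i, T₀ i, m, fun i =>
      isSec_of_eqs hc h hB hH (hm i) (hE i), fun c h1 => hind c ?_⟩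
    exact (mx_sum_iff hc h hH hm hE (fun i => (hf i).1) c).2 h1
  · intro hr
    refine HasSecC.mono ?_ hr
    obtain ⟨T, m, h1, h2⟩ := St.hasSec_h0 (D := bun σ B) hlb hQ.sub n
    choose f hf hE using fun i => exists_of_isSec hc h hB hH (h1 i)
    have hm : ∀ i a, Hom k N (n + T) (m i a) := by
      intro i a
      have h3 := (h1 i).1 a
      change Hom k N (n + T * 1) (m i a) at h3
      rwa [mul_one] at h3
    exact ⟨f, hf, fun c h3 => h2 c ((mx_sum_iff hc h hH hm hE (fun i => (hf i).1) c).1 h3)⟩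

end Pool.Agent.KM
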