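import Pool.Agent.Lib.MP_732f67_ag.NE.SecA
import Pool.Agent.Lib.MP_0b721b_ag.StN

/-!
Sections on the closure of a point: sections in the statement layer of the library on Fujita
vanishing.
-/

namespace Pool.Agent.KM

open MvPolynomial
open Pool.Agent.Lib.MP_0b721b_ag
open Pool.Agent.Lib.MP_0b721b_ag.St (Hom)
open Pool.Agent.Lib.MP_732f67_ag.V (relIdeal mem_relIdeal)

universe u v

variable {k : Type u} {L : Type v} [Field k] [Field L] [Algebra k L] {N K : ℕ} {z : Fin N → L}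
  {σ : Fin K → Fin N}

/-- the line bundle of a twist, in the statement layer of the library on Fujita vanishing -/
noncomputable def bun (σ : Fin K → Fin N) (B : Twt (MvPolynomial (Fin N) k) (Fin K)) :
    St.Bun (MvPolynomial (Fin N) k) (Fin K) :=
  ⟨fun a => X (σ a), fun _ => 1, Multiplicative.toAdd B.1, B.2⟩

/-- products of forms -/
theorem secB_hmul {m n : ℤ} {f g : MvPolynomial (Fin N) k} (hf : Hom k N m f) (hg : Hom k N n g) :
    Hom k N (m + n) (f * g) := St.hom_iff.2 (polyGr_mul (St.hom_iff.1 hf) (St.hom_iff.1 hg))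

/-- differences of forms -/
theorem secB_hsub {n : ℤ} {f g : MvPolynomial (Fin N) k} (hf : Hom k N n f) (hg : Hom k N n g) :
    Hom k N n (f - g) := by
  classical
  intro d hd
  rcases Finset.mem_union.1 (support_sub _ f g hd) with h | h
  · exact hf d h
  · exact hg d h

/-- forms of degree `m`, divided by a power of a variable, are regular -/
theorem secB_mem {Q : Ideal (MvPolynomial (Fin N) k)} {hQ : HP z Q} {j : Fin N}
    (hj : (X j : MvPolynomial (Fin N) k) ∉ Q) {n : ℤ} {f : MvPolynomial (Fin N) k}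
    (hf : Hom k N n f) : aeval z f / z j ^ n ∈ ptQ z Q hQ := by
  rcases lt_or_ge n 0 with hn | hn
  · rw [dic_hom_neg hn hf, map_zero, zero_div]
    exact Subalgebra.zero_mem _
  · obtain ⟨M, rfl⟩ := Int.eq_ofNat_of_zero_le hn
    refine ⟨M, f, X j ^ M, hf, dic_hom_pow j M, dic_pow_notMem hQ hj M, ?_⟩
    rw [map_pow, aeval_X, zpow_natCast]

/-- multiplication with a unit -/
theorem secB_mx_iff {O : Subalgebra k L} {x y : L} (hy : Un O y) : Mx O (y * x) ↔ Mx O x := by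
  refine ⟨fun h => ?_, fun h => h.mul hy.2.1⟩
  have h1 := h.mul hy.2.2
  rwa [inv_mul_cancel_left₀ hy.1] at h1

/-- the compatibility condition on two charts, in the local ring -/
theorem secB_key (hc : Cvr k z σ) {D H : Subalgebra k L → Lˣ} {β : Fin K → Lˣ}
    {B : Twt (MvPolynomial (Fin N) k) (Fin K)} (hB : Rep z σ β B) {n : ℤ}
    {Q : Ideal (MvPolynomial (Fin N) k)} {hQ : HP z Q} {T : ℕ}
    {m : Fin K → MvPolynomial (Fin N) k} (hm : ∀ a, Hom k N (n + T) (m a)) {a b : Fin K}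
    (ha : (X (σ a) : MvPolynomial (Fin N) k) ∉ Q) (hb : (X (σ b) : MvPolynomial (Fin N) k) ∉ Q) :
    Mx (ptQ z Q hQ) (aeval z (m a) / z (σ a) ^ (n + T) -
      tau z σ D H β n (ptQ z Q hQ) a / tau z σ D H β n (ptQ z Q hQ) b *
        (aeval z (m b) / z (σ b) ^ (n + T))) ↔
    m a * X (σ b) ^ T * (X (σ a) * X (σ b)) ^ (Multiplicative.toAdd B.1) -
      B.2 a b * m b * X (σ a) ^ T ∈ Q := by
  have hza := hc.ne (σ a)
  have hzb := hc.ne (σ b)
  set t : ℕ := Multiplicative.toAdd B.1 with ht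
  rcases lt_or_ge (n + T) 0 with hn | hn
  · rw [dic_hom_neg hn (hm a), dic_hom_neg hn (hm b)]
    simp only [map_zero, zero_div, mul_zero, sub_zero, zero_mul]
    exact ⟨fun _ => Q.zero_mem, fun _ => mx_zero⟩
  · obtain ⟨M, hM⟩ := Int.eq_ofNat_of_zero_le hn
    have htb : tau z σ D H β n (ptQ z Q hQ) b ≠ 0 := by
      unfold tau
      refine div_ne_zero (mul_ne_zero (β b).ne_zero (zpow_ne_zero _ hzb))
        (mul_ne_zero (D _).ne_zero (zpow_ne_zero _ (H _).ne_zero))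
    have htau : tau z σ D H β n (ptQ z Q hQ) a / tau z σ D H β n (ptQ z Q hQ) b =
        (β a / β b : Lˣ) * (z (σ b) / z (σ a)) ^ n := by
      rw [tau_div hc (D := D) (H := H) n (ptQ z Q hQ) a b, mul_div_cancel_right₀ _ htb]
    have hn' : n = (M : ℤ) - (T : ℤ) := by
      have := hM
      linarith
    have hzn : (z (σ b) / z (σ a)) ^ n = z (σ b) ^ M * z (σ a) ^ T / (z (σ a) ^ M * z (σ b) ^ T) := by
      rw [hn', zpow_sub₀ (div_ne_zero hzb hza), zpow_natCast, zpow_natCast, div_pow, div_pow]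
      field_simp
    -- the unit
    have hw : Un (ptQ z Q hQ) ((aeval z (X (σ b) ^ (T + t) : MvPolynomial (Fin N) k) : L) /
        aeval z (X (σ a) ^ (T + t) : MvPolynomial (Fin N) k)) :=
      (un_ptQ (dic_hom_pow (σ b) (T + t)) (dic_hom_pow (σ a) (T + t))
        (dic_pow_notMem hQ ha _)).2 (dic_pow_notMem hQ hb _)
    have hF : Hom k N (M + T + 2 * t : ℕ)
        (m a * X (σ b) ^ T * (X (σ a) * X (σ b)) ^ t - B.2 a b * m b * X (σ a) ^ T) := by
      have e1 : Hom k N (((M : ℤ)) + T + (t * 1 + t * 1 : ℤ))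
          (m a * X (σ b) ^ T * (X (σ a) * X (σ b)) ^ t) := by
        rw [mul_pow]
        refine secB_hmul (secB_hmul (hM ▸ hm a) (dic_hom_pow _ _)) ?_
        rw [mul_one]
        exact secB_hmul (dic_hom_pow _ _) (dic_hom_pow _ _)
      have e2 : Hom k N ((2 * (t : ℤ)) + ((M : ℤ)) + T)
          (B.2 a b * m b * X (σ a) ^ T) :=
        secB_hmul (secB_hmul (hB a b).1 (hM ▸ hm b)) (dic_hom_pow _ _)
      have e3 : ((M + T + 2 * t : ℕ) : ℤ) = ((M : ℤ)) + T + (t * 1 + t * 1 : ℤ) := by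
        push_cast; ring
      have e4 : ((M + T + 2 * t : ℕ) : ℤ) = (2 * (t : ℤ)) + ((M : ℤ)) + T := by
        push_cast; ring
      rw [← e3] at e1
      rw [← e4] at e2
      exact secB_hsub e1 e2
    rw [← mx_ptQ (hQ := hQ) hF (dic_hom_pow (σ a) (M + T + 2 * t)) (dic_pow_notMem hQ ha _),
      ← secB_mx_iff hw, htau, hzn, hM, zpow_natCast, zpow_natCast]
    have hval : (aeval z (m a * X (σ b) ^ T * (X (σ a) * X (σ b)) ^ t -
        B.2 a b * m b * X (σ a) ^ T) : L) = aeval z (m a) * z (σ b) ^ T * (z (σ a) * z (σ b)) ^ t -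
        (β a / β b : Lˣ) * (z (σ a) * z (σ b)) ^ t * aeval z (m b) * z (σ a) ^ T := by
      rw [_root_.map_sub, map_mul, map_mul, map_mul, map_mul, map_pow, map_pow, map_pow, map_mul,
        aeval_X, aeval_X, (hB a b).2]
    rw [hval]
    simp only [map_pow, aeval_X]
    have e5 : z (σ b) ^ (T + t) / z (σ a) ^ (T + t) * ((aeval z (m a) : L) / z (σ a) ^ M -
        (β a / β b : Lˣ) * (z (σ b) ^ M * z (σ a) ^ T / (z (σ a) ^ M * z (σ b) ^ T)) *
          (aeval z (m b) / z (σ b) ^ M)) =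
        (aeval z (m a) * z (σ b) ^ T * (z (σ a) * z (σ b)) ^ t -
        (β a / β b : Lˣ) * (z (σ a) * z (σ b)) ^ t * aeval z (m b) * z (σ a) ^ T) /
          z (σ a) ^ (M + T + 2 * t) := by
      generalize ((β a / β b : Lˣ) : L) = c
      field_simp
      ring
    rw [e5]

/-- the function `tau` is not zero -/
theorem secB_tau_ne (hc : Cvr k z σ) (D H : Subalgebra k L → Lˣ) (β : Fin K → Lˣ) (n : ℤ)
    (O : Subalgebra k L) (a : Fin K) : tau z σ D H β n O a ≠ 0 := by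
  unfold tau
  exact div_ne_zero (mul_ne_zero (β a).ne_zero (zpow_ne_zero _ (hc.ne _)))
    (mul_ne_zero (D _).ne_zero (zpow_ne_zero _ (H _).ne_zero))

/-- PROOF. If `X (σ a)` or `X (σ b)` is in `Q`, take `e = 1`. Otherwise the difference of the two relations
`Eqs` (the second multiplied with the unit `tau a / tau b`, `tau_div`) is
`Mx (m a / z_a ^ (n + T) - (β a / β b) (z_b / z_a) ^ n m b / z_b ^ (n + T))`; multiply with the unit
`z_a ^ (n + T) z_b ^ T (z_a z_b) ^ t / z_a ^ (n + 2 T + 2 t)`: this is the value of the form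
`m a X_b ^ T (X_a X_b) ^ t - v_ab m b X_a ^ T` of degree `n + 2 T + 2 t` divided by `z_a ^ (..)`: `mx_ptQ`. -/
theorem isSec_of_eqs (hc : Cvr k z σ) {D H : Subalgebra k L → Lˣ} {β : Fin K → Lˣ}
    (h : OnC z σ D β) {B : Twt (MvPolynomial (Fin N) k) (Fin K)} (hB : Rep z σ β B)
    (hH : BF (Pts (lsys k z)) H (lsys k z)) {n : ℤ}
    {Q : Ideal (MvPolynomial (Fin N) k)} {hQ : HP z Q} {T : ℕ} {f : L}
    {m : Fin K → MvPolynomial (Fin N) k} (hm : ∀ a, Hom k N (n + T) (m a))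
    (he : Eqs z σ D H β n Q hQ T f m) : St.IsSec (Hom k N) (bun σ B) Q n T m := by
  refine ⟨fun a => ?_, fun a b => ?_⟩
  · show Hom k N (n + T * 1) (m a)
    rw [mul_one]
    exact hm a
  · show ∃ e : ℕ, (X (σ a) * X (σ b)) ^ e *
      (m a * X (σ b) ^ T * (X (σ a) * X (σ b)) ^ (Multiplicative.toAdd B.1) -
        B.2 a b * m b * X (σ a) ^ T) ∈ Q
    by_cases ha : (X (σ a) : MvPolynomial (Fin N) k) ∈ Q
    · refine ⟨1, Q.mul_mem_right _ ?_⟩
      rw [pow_one]
      exact Q.mul_mem_right _ ha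
    by_cases hb : (X (σ b) : MvPolynomial (Fin N) k) ∈ Q
    · refine ⟨1, Q.mul_mem_right _ ?_⟩
      rw [pow_one]
      exact Q.mul_mem_left _ hb
    refine ⟨0, ?_⟩
    rw [pow_zero, one_mul, ← secB_key (D := D) (H := H) (hQ := hQ) hc hB hm ha hb]
    have hloc : IsLocalRing (ptQ z Q hQ) := (locAt_ptQ hc.ne hQ ha).isLocalRing
    have h1 := he a ha
    have h2 := he b hb
    have hua := un_tau hc h hH n hQ ha
    have hub := un_tau hc h hH n hQ hb
    have h3 := h2.mul (hua.div hub).2.1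
    have h4 := (Mx.add hloc h1 h3.neg).neg
    have htb := secB_tau_ne hc D H β n (ptQ z Q hQ) b
    convert h4 using 1
    field_simp
    ring

/-- PROOF. Choose `a` with `X (σ a) ∉ Q` (`Cvr.exists_le`), `f := m a / z_a ^ (n + T) / tau a`. `Eqs` for the
other `b` from the compatibility (as in `isSec_of_eqs`). `IsSecC`: let `O' ≤ ptQ`, `O' = ptQ Q'`
(`exists_ptQ`), `Q ≤ Q'`, and `X (σ b) ∉ Q'`; the unit `ε = (D H ^ n) (O') z_b ^ n / β b` of `O'` (`OnC`,
`BF.un_of_cht_le`), `g = ε m b / z_b ^ (n + T)`, and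
`f (D H ^ n) (O') / (D H ^ n) (ptQ) - g = ε (f tau b - m b / z_b ^ (n + T))`. -/
theorem exists_of_isSec (hc : Cvr k z σ) {D H : Subalgebra k L → Lˣ} {β : Fin K → Lˣ}
    (h : OnC z σ D β) {B : Twt (MvPolynomial (Fin N) k) (Fin K)} (hB : Rep z σ β B)
    (hH : BF (Pts (lsys k z)) H (lsys k z)) {n : ℤ}
    {Q : Ideal (MvPolynomial (Fin N) k)} {hQ : HP z Q} {T : ℕ}
    {m : Fin K → MvPolynomial (Fin N) k} (hm : St.IsSec (Hom k N) (bun σ B) Q n T m) :
    ∃ f, IsSecC (Pts (lsys k z)) (D * H ^ n) (ptQ z Q hQ) f ∧ Eqs z σ D H β n Q hQ T f m := by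
  have hm1 : ∀ a, Hom k N (n + T) (m a) := by
    intro a
    have := hm.1 a
    change Hom k N (n + T * 1) (m a) at this
    rwa [mul_one] at this
  obtain ⟨a, ha0⟩ := hc.exists_le (ptQ_mem hc.ne hQ)
  have ha : (X (σ a) : MvPolynomial (Fin N) k) ∉ Q := (cht_le_ptQ hc.ne hQ).1 ha0
  have hta := secB_tau_ne hc D H β n (ptQ z Q hQ) a
  have hua := un_tau hc h hH n hQ ha
  have hE : Eqs z σ D H β n Q hQ T
      (aeval z (m a) / z (σ a) ^ (n + T) * (tau z σ D H β n (ptQ z Q hQ) a)⁻¹) m := by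
    intro b hb
    obtain ⟨e, he⟩ := hm.2 a b
    change (X (σ a) * X (σ b)) ^ e *
      (m a * X (σ b) ^ T * (X (σ a) * X (σ b)) ^ (Multiplicative.toAdd B.1) -
        B.2 a b * m b * X (σ a) ^ T) ∈ Q at he
    have he' := (hQ.prime.mem_or_mem he).resolve_left fun h1 =>
      (hQ.prime.mem_or_mem (hQ.prime.mem_of_pow_mem _ h1)).elim ha hb
    rw [← secB_key (D := D) (H := H) (hQ := hQ) hc hB hm1 ha hb] at he'
    have hub := un_tau hc h hH n hQ hb
    have htb := secB_tau_ne hc D H β n (ptQ z Q hQ) b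
    have h1 := he'.mul (hub.div hua).2.1
    convert h1 using 1
    field_simp
  refine ⟨_, ⟨?_, ?_⟩, hE⟩
  · exact Subalgebra.mul_mem _ (secB_mem ha (hm1 a)) hua.2.2
  · intro O' hO' hle
    obtain ⟨Q', hQ', rfl⟩ := exists_ptQ hc.ne hO'
    have hQQ : Q ≤ Q' := (ptQ_le hc.ne hQ hQ').1 hle
    obtain ⟨b, hb0⟩ := hc.exists_le hO'
    have hb' : (X (σ b) : MvPolynomial (Fin N) k) ∉ Q' := (cht_le_ptQ hc.ne hQ').1 hb0
    have hb : (X (σ b) : MvPolynomial (Fin N) k) ∉ Q := fun h1 => hb' (hQQ h1)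
    have hub' := un_tau hc h hH n hQ' hb'
    have hε : (tau z σ D H β n (ptQ z Q' hQ') b)⁻¹ ∈ ptQ z Q' hQ' := hub'.2.2
    refine ⟨(tau z σ D H β n (ptQ z Q' hQ') b)⁻¹ * (aeval z (m b) / z (σ b) ^ (n + T)),
      Subalgebra.mul_mem _ hε (secB_mem hb' (hm1 b)), ?_⟩
    have h1 := (hE b hb).mul (hle hε)
    convert h1 using 1
    have hratio : (((D * H ^ n) (ptQ z Q' hQ') / (D * H ^ n) (ptQ z Q hQ) : Lˣ) : L) =
        (tau z σ D H β n (ptQ z Q' hQ') b)⁻¹ * tau z σ D H β n (ptQ z Q hQ) b := by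
      have e1 := (β b).ne_zero
      have e2 := zpow_ne_zero (-n) (hc.ne (σ b))
      have e3 := (D (ptQ z Q hQ)).ne_zero
      have e4 := (D (ptQ z Q' hQ')).ne_zero
      have e5 := zpow_ne_zero n (H (ptQ z Q hQ)).ne_zero
      have e6 := zpow_ne_zero n (H (ptQ z Q' hQ')).ne_zero
      rw [Units.val_div_eq_div_val, Pi.mul_apply, Pi.mul_apply, Pi.pow_apply, Pi.pow_apply,
        Units.val_mul, Units.val_mul, Units.val_zpow_eq_zpow_val, Units.val_zpow_eq_zpow_val]
      unfold tau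
      generalize z (σ b) ^ (-n) = w at *
      generalize ((H (ptQ z Q hQ) : Lˣ) : L) ^ n = w1 at *
      generalize ((H (ptQ z Q' hQ') : Lˣ) : L) ^ n = w2 at *
      field_simp
    rw [hratio]
    ring

end Pool.Agent.KM
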